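import Mathlib

/-!
Finite Fourier analysis for the order relation on digit vectors.
-/

namespace Pool.Agent.DNet

open Finset

variable {q : ℕ} [Fact q.Prime]

/-- the standard additive character of `ZMod q` -/
noncomputable def e (x : ZMod q) : ℂ := ZMod.stdAddChar x

lemma e_zero : e (0 : ZMod q) = 1 := AddChar.map_zero_eq_one _

lemma e_add (x y : ZMod q) : e (x + y) = e x * e y := AddChar.map_add_eq_mul _ _ _

lemma norm_e (x : ZMod q) : ‖e x‖ = 1 := by
  unfold e
  rw [ZMod.stdAddChar_apply]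
  exact Circle.norm_coe _

lemma e_ne_zero (x : ZMod q) : e x ≠ 0 := by
  intro h
  have := norm_e x
  rw [h, norm_zero] at this
  norm_num at this

lemma e_neg (x : ZMod q) : e (-x) = (e x)⁻¹ := by
  have h : e x * e (-x) = 1 := by rw [← e_add, add_neg_cancel, e_zero]
  exact eq_inv_of_mul_eq_one_right h

lemma conj_e (x : ZMod q) : (starRingEnd ℂ) (e x) = e (-x) := by
  rw [e_neg, Complex.inv_def, Complex.normSq_eq_norm_sq, norm_e]
  simp

lemma e_sum {ι : Type*} (s : Finset ι) (f : ι → ZMod q) : e (∑ i ∈ s, f i) = ∏ i ∈ s, e (f i) := by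
  classical
  induction s using Finset.induction_on with
  | empty => simp [e_zero]
  | insert a s ha ih => rw [sum_insert ha, prod_insert ha, e_add, ih]

lemma e_eq_one_iff (x : ZMod q) : e x = 1 ↔ x = 0 := by
  constructor
  · intro h
    have h0 : e x = e (0 : ZMod q) := by rw [h, e_zero]
    exact ZMod.injective_stdAddChar h0
  · rintro rfl
    exact e_zero

lemma sum_e_mul (b : ZMod q) : ∑ x : ZMod q, e (x * b) = if b = 0 then (q : ℂ) else 0 := by
  have h := AddChar.sum_mulShift (R := ZMod q) (R' := ℂ) (ψ := ZMod.stdAddChar) b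
    (ZMod.isPrimitive_stdAddChar q)
  rw [ZMod.card] at h
  unfold e
  rw [h]
  split_ifs <;> simp

/-- the bilinear pairing -/
def ip {ι : Type*} [Fintype ι] (k Y : ι → ZMod q) : ZMod q := ∑ i, k i * Y i

lemma ip_comm {ι : Type*} [Fintype ι] (k Y : ι → ZMod q) : ip k Y = ip Y k :=
  sum_congr rfl fun _ _ => mul_comm _ _

lemma ip_add {ι : Type*} [Fintype ι] (k Y Z : ι → ZMod q) : ip k (Y + Z) = ip k Y + ip k Z := by
  unfold ip
  rw [← sum_add_distrib]
  exact sum_congr rfl fun _ _ => mul_add _ _ _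

lemma add_ip {ι : Type*} [Fintype ι] (k Y Z : ι → ZMod q) : ip (Y + Z) k = ip Y k + ip Z k := by
  rw [ip_comm, ip_add, ip_comm, ip_comm k Z]

lemma ip_zero {ι : Type*} [Fintype ι] (k : ι → ZMod q) : ip k 0 = 0 := by simp [ip]

lemma zero_ip {ι : Type*} [Fintype ι] (k : ι → ZMod q) : ip 0 k = 0 := by simp [ip]

lemma neg_ip {ι : Type*} [Fintype ι] (k Y : ι → ZMod q) : ip (-k) Y = - ip k Y := by
  simp [ip]

lemma ip_neg {ι : Type*} [Fintype ι] (k Y : ι → ZMod q) : ip k (-Y) = - ip k Y := by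
  simp [ip]

/-- orthogonality -/
lemma sum_e_ip {ι : Type*} [Fintype ι] [DecidableEq ι] (w : ι → ZMod q) :
    ∑ f : ι → ZMod q, e (ip f w) = if w = 0 then (q : ℂ) ^ Fintype.card ι else 0 := by
  have h1 : ∀ f : ι → ZMod q, e (ip f w) = ∏ i, e (f i * w i) := fun f => e_sum _ _
  simp_rw [h1]
  have h2 := (Finset.prod_univ_sum (fun _ : ι => (univ : Finset (ZMod q)))
    (fun i x => e (x * w i))).symm
  rw [Fintype.piFinset_univ] at h2
  rw [h2]
  simp_rw [sum_e_mul]
  split_ifs with hw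
  · subst hw
    simp
  · obtain ⟨i, hi⟩ : ∃ i, w i ≠ 0 := by
      by_contra hcon
      push Not at hcon
      exact hw (funext hcon)
    exact prod_eq_zero (mem_univ i) (by rw [if_neg hi])

omit [Fact q.Prime] in
lemma swap4 {α β γ δ : Type*} [Fintype α] [Fintype β] [Fintype γ] [Fintype δ]
    (F : α → β → γ → δ → ℂ) :
    ∑ a, ∑ b, ∑ c, ∑ d, F a b c d = ∑ c, ∑ d, ∑ a, ∑ b, F a b c d := by
  have h1 : ∑ a, ∑ b, ∑ c, ∑ d, F a b c d = ∑ a, ∑ c, ∑ b, ∑ d, F a b c d :=
    sum_congr rfl fun a _ => sum_comm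
  have h2 : ∑ a, ∑ c, ∑ b, ∑ d, F a b c d = ∑ c, ∑ a, ∑ b, ∑ d, F a b c d := sum_comm
  have h3 : ∑ c, ∑ a, ∑ b, ∑ d, F a b c d = ∑ c, ∑ a, ∑ d, ∑ b, F a b c d :=
    sum_congr rfl fun c _ => sum_congr rfl fun a _ => sum_comm
  have h4 : ∑ c, ∑ a, ∑ d, ∑ b, F a b c d = ∑ c, ∑ d, ∑ a, ∑ b, F a b c d :=
    sum_congr rfl fun c _ => sum_comm
  rw [h1, h2, h3, h4]

lemma sum_cons {m : ℕ} {α : Type*} [AddCommMonoid α] (F : (Fin (m + 1) → ZMod q) → α) :
    ∑ f, F f = ∑ x : ZMod q, ∑ g : Fin m → ZMod q, F (Fin.cons x g) := by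
  rw [← Fintype.sum_prod_type' (f := fun (x : ZMod q) (g : Fin m → ZMod q) => F (Fin.cons x g))]
  exact (Fintype.sum_equiv (Fin.consEquiv (fun _ : Fin (m + 1) => ZMod q)) _ _ (fun _ => rfl)).symm

lemma ip_cons {m : ℕ} (x y : ZMod q) (X Y : Fin m → ZMod q) :
    ip (Fin.cons x X : Fin (m + 1) → ZMod q) (Fin.cons y Y) = x * y + ip X Y := by
  unfold ip
  rw [Fin.sum_univ_succ]
  simp

/-! ### Values of digit vectors -/

/-- the integer with base `q` digits `X 0, X 1, ...` (most significant first) -/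
def vl {m : ℕ} (X : Fin m → ZMod q) : ℕ := ∑ i, (X i).val * q ^ (m - 1 - (i : ℕ))

omit [Fact q.Prime] in
lemma vl_cons {m : ℕ} (x : ZMod q) (X : Fin m → ZMod q) :
    vl (Fin.cons x X : Fin (m + 1) → ZMod q) = x.val * q ^ m + vl X := by
  unfold vl
  rw [Fin.sum_univ_succ]
  simp only [Fin.cons_zero, Fin.val_zero, Fin.cons_succ, Fin.val_succ]
  congr 1
  refine sum_congr rfl fun i _ => ?_
  congr 2
  omega

lemma vl_lt {m : ℕ} (X : Fin m → ZMod q) : vl X < q ^ m := by
  induction m with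
  | zero => simp [vl]
  | succ m ih =>
    rw [← Fin.cons_self_tail X, vl_cons]
    have h1 := ih (Fin.tail X)
    have h2 : (X 0).val < q := ZMod.val_lt _
    calc (X 0).val * q ^ m + vl (Fin.tail X) < (X 0).val * q ^ m + q ^ m := by omega
      _ = ((X 0).val + 1) * q ^ m := by ring
      _ ≤ q * q ^ m := Nat.mul_le_mul_right _ h2
      _ = q ^ (m + 1) := by ring

lemma vl_cons_lt {m : ℕ} (x y : ZMod q) (X Y : Fin m → ZMod q) :
    vl (Fin.cons y Y : Fin (m + 1) → ZMod q) < vl (Fin.cons x X : Fin (m + 1) → ZMod q) ↔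
      y.val < x.val ∨ (y = x ∧ vl Y < vl X) := by
  rw [vl_cons, vl_cons]
  have hX := vl_lt X
  have hY := vl_lt Y
  constructor
  · intro h
    rcases lt_trichotomy y.val x.val with h1 | h1 | h1
    · exact Or.inl h1
    · right
      refine ⟨ZMod.val_injective q h1, ?_⟩
      rw [h1] at h
      omega
    · exfalso
      have : (x.val + 1) * q ^ m ≤ y.val * q ^ m := Nat.mul_le_mul_right _ h1
      have h3 : (x.val + 1) * q ^ m = x.val * q ^ m + q ^ m := by ring
      omega
  · rintro (h | ⟨rfl, h⟩)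
    · have : (y.val + 1) * q ^ m ≤ x.val * q ^ m := Nat.mul_le_mul_right _ h
      have h3 : (y.val + 1) * q ^ m = y.val * q ^ m + q ^ m := by ring
      omega
    · omega

lemma vl_injective {m : ℕ} : Function.Injective (vl (q := q) (m := m)) := by
  induction m with
  | zero => intro X Y _; exact Subsingleton.elim _ _
  | succ m ih =>
    intro X Y h
    rw [← Fin.cons_self_tail X, ← Fin.cons_self_tail Y] at h ⊢
    have h1 : ¬ vl (Fin.cons (X 0) (Fin.tail X) : Fin (m + 1) → ZMod q) <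
      vl (Fin.cons (Y 0) (Fin.tail Y) : Fin (m + 1) → ZMod q) := by omega
    have h2 : ¬ vl (Fin.cons (Y 0) (Fin.tail Y) : Fin (m + 1) → ZMod q) <
      vl (Fin.cons (X 0) (Fin.tail X) : Fin (m + 1) → ZMod q) := by omega
    rw [vl_cons_lt] at h1 h2
    push Not at h1 h2
    have h3 : X 0 = Y 0 := ZMod.val_injective q (le_antisymm h2.1 h1.1)
    have h4 := h1.2 h3
    have h5 := h2.2 h3.symm
    rw [h3, ih (le_antisymm h5 h4)]

/-! ### The kernel -/

/-- the order indicator -/
noncomputable def T {m : ℕ} (Y X : Fin m → ZMod q) : ℂ := if vl Y < vl X then 1 else 0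

/-- one-dimensional coefficients -/
noncomputable def c1 (k h : ZMod q) : ℂ :=
  ((q : ℂ)⁻¹) ^ 2 * ∑ x : ZMod q, ∑ y : ZMod q, if y.val < x.val then e (-(k * y)) * e (h * x) else 0

/-- double Fourier coefficients of the order indicator -/
noncomputable def G : (m : ℕ) → (Fin m → ZMod q) → (Fin m → ZMod q) → ℂ
  | 0, _, _ => 0
  | m + 1, k, h => c1 (k 0) (h 0) * (if Fin.tail k = 0 ∧ Fin.tail h = 0 then 1 else 0) +
      (q : ℂ)⁻¹ * (if k 0 = h 0 then 1 else 0) * G m (Fin.tail k) (Fin.tail h)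

lemma q_ne_zero : (q : ℂ) ≠ 0 := by
  have := (Fact.out : q.Prime).pos
  exact_mod_cast this.ne'

lemma one_dim (y x : ZMod q) : ∑ k : ZMod q, ∑ h : ZMod q, c1 k h * (e (k * y) * e (-(h * x))) =
    if y.val < x.val then 1 else 0 := by
  have hq := q_ne_zero (q := q)
  unfold c1
  have h1 : ∀ k h : ZMod q, ((q : ℂ)⁻¹) ^ 2 * (∑ x' : ZMod q, ∑ y' : ZMod q,
      if y'.val < x'.val then e (-(k * y')) * e (h * x') else 0) * (e (k * y) * e (-(h * x))) =
      ∑ x' : ZMod q, ∑ y' : ZMod q, if y'.val < x'.val then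
        ((q : ℂ)⁻¹) ^ 2 * (e (k * (y - y')) * e (h * (x' - x))) else 0 := by
    intro k h
    rw [mul_sum, sum_mul]
    refine sum_congr rfl fun x' _ => ?_
    rw [mul_sum, sum_mul]
    refine sum_congr rfl fun y' _ => ?_
    split_ifs
    · have e1 : e (k * (y - y')) = e (k * y) * e (-(k * y')) := by rw [← e_add]; congr 1; ring
      have e2 : e (h * (x' - x)) = e (h * x') * e (-(h * x)) := by rw [← e_add]; congr 1; ring
      rw [e1, e2]; ring
    · simp
  simp_rw [h1]
  rw [swap4]
  have h3 : ∀ x' y' : ZMod q, ∑ k : ZMod q, ∑ h : ZMod q,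
      (if y'.val < x'.val then ((q : ℂ)⁻¹) ^ 2 * (e (k * (y - y')) * e (h * (x' - x))) else 0) =
      if y' = y ∧ x' = x then (if y'.val < x'.val then 1 else 0) else 0 := by
    intro x' y'
    by_cases hlt : y'.val < x'.val
    · simp only [hlt, if_true]
      have : ∑ k : ZMod q, ∑ h : ZMod q, ((q : ℂ)⁻¹) ^ 2 * (e (k * (y - y')) * e (h * (x' - x))) =
          ((q : ℂ)⁻¹) ^ 2 * ((∑ k : ZMod q, e (k * (y - y'))) * (∑ h : ZMod q, e (h * (x' - x)))) := by
        rw [sum_mul_sum, mul_sum]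
        refine sum_congr rfl fun k _ => ?_
        rw [mul_sum]
      rw [this, sum_e_mul, sum_e_mul]
      by_cases hy : y' = y
      · by_cases hx : x' = x
        · subst hy; subst hx
          simp only [sub_self, if_true, and_self]
          field_simp
        · have : x' - x ≠ 0 := sub_ne_zero.2 hx
          simp [this, hx]
      · have : y - y' ≠ 0 := sub_ne_zero.2 (Ne.symm hy)
        simp [this, hy]
    · simp [hlt]
  simp_rw [h3]
  rw [Finset.sum_eq_single x, Finset.sum_eq_single y]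
  · simp
  · intro y' _ hy'
    simp [hy']
  · simp
  · intro x' _ hx'
    apply sum_eq_zero
    intro y' _
    simp [hx']
  · simp

/-- Fourier expansion of the order indicator -/
lemma T_expand {m : ℕ} (Y X : Fin m → ZMod q) :
    T Y X = ∑ k, ∑ h, G m k h * (e (ip k Y) * e (-(ip h X))) := by
  have hq := q_ne_zero (q := q)
  induction m with
  | zero =>
    have : vl Y = vl X := by simp [vl]
    simp [T, this, G]
  | succ m ih =>
    obtain ⟨y, Y', rfl⟩ : ∃ y Y', Y = Fin.cons y Y' := ⟨Y 0, Fin.tail Y, (Fin.cons_self_tail Y).symm⟩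
    obtain ⟨x, X', rfl⟩ : ∃ x X', X = Fin.cons x X' := ⟨X 0, Fin.tail X, (Fin.cons_self_tail X).symm⟩
    have hT : T (Fin.cons y Y' : Fin (m + 1) → ZMod q) (Fin.cons x X') =
        (if y.val < x.val then 1 else 0) + (if y = x then 1 else 0) * T Y' X' := by
      unfold T
      by_cases h1 : y.val < x.val
      · have h2 : y ≠ x := by rintro rfl; exact lt_irrefl _ h1
        have h3 : vl (Fin.cons y Y' : Fin (m + 1) → ZMod q) < vl (Fin.cons x X' : Fin (m + 1) → ZMod q) :=
          (vl_cons_lt x y X' Y').2 (Or.inl h1)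
        simp [h1, h2, h3]
      · by_cases h2 : y = x
        · by_cases h4 : vl Y' < vl X'
          · have h3 := (vl_cons_lt x y X' Y').2 (Or.inr ⟨h2, h4⟩)
            simp [h2, h4, h2 ▸ h3]
          · have h3 : ¬ (vl (Fin.cons y Y' : Fin (m + 1) → ZMod q) <
                vl (Fin.cons x X' : Fin (m + 1) → ZMod q)) := by
              rw [vl_cons_lt]; push Not; exact ⟨not_lt.1 h1, fun _ => not_lt.1 h4⟩
            rw [if_neg h3, if_neg h1, if_neg h4]; simp
        · have h3 : ¬ (vl (Fin.cons y Y' : Fin (m + 1) → ZMod q) <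
                vl (Fin.cons x X' : Fin (m + 1) → ZMod q)) := by
              rw [vl_cons_lt]; push Not; exact ⟨not_lt.1 h1, fun h => absurd h h2⟩
          rw [if_neg h3, if_neg h1, if_neg h2]; simp
    rw [hT, sum_cons]
    simp_rw [sum_cons (m := m)]
    simp only [G, Fin.cons_zero, Fin.tail_cons, ip_cons]
    -- split the sum
    have h1 : ∀ (k0 : ZMod q) (k : Fin m → ZMod q) (h0 : ZMod q) (h : Fin m → ZMod q),
        (c1 k0 h0 * (if k = 0 ∧ h = 0 then 1 else 0) + (q : ℂ)⁻¹ * (if k0 = h0 then 1 else 0) *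
          G m k h) * (e (k0 * y + ip k Y') * e (-(h0 * x + ip h X'))) =
        (if k = 0 ∧ h = 0 then c1 k0 h0 * (e (k0 * y) * e (-(h0 * x))) else 0) +
        (if k0 = h0 then (q : ℂ)⁻¹ * e (k0 * (y - x)) * (G m k h * (e (ip k Y') * e (-(ip h X'))))
          else 0) := by
      intro k0 k h0 h
      have e1 : e (k0 * y + ip k Y') = e (k0 * y) * e (ip k Y') := e_add _ _
      have e2 : e (-(h0 * x + ip h X')) = e (-(h0 * x)) * e (-(ip h X')) := by
        rw [← e_add]; congr 1; ring
      rw [e1, e2]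
      by_cases hkh : k = 0 ∧ h = 0
      · obtain ⟨rfl, rfl⟩ := hkh
        by_cases hk : k0 = h0
        · subst hk
          have e3 : e (k0 * (y - x)) = e (k0 * y) * e (-(k0 * x)) := by
            rw [← e_add]; congr 1; ring
          simp only [and_self, if_true, zero_ip, neg_zero, e_zero, e3]
          ring
        · simp [hk, zero_ip, e_zero]
      · by_cases hk : k0 = h0
        · subst hk
          have e3 : e (k0 * (y - x)) = e (k0 * y) * e (-(k0 * x)) := by
            rw [← e_add]; congr 1; ring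
          simp only [hkh, if_true, if_false, e3]
          ring
        · simp [hk, hkh]
    simp_rw [h1]
    simp only [sum_add_distrib]
    congr 1
    · -- first part
      rw [← one_dim]
      refine sum_congr rfl fun k0 _ => ?_
      rw [Finset.sum_eq_single (0 : Fin m → ZMod q)]
      · refine sum_congr rfl fun h0 _ => ?_
        rw [Finset.sum_eq_single (0 : Fin m → ZMod q)]
        · simp
        · intro h _ hh
          simp [hh]
        · simp
      · intro k _ hk
        apply sum_eq_zero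
        intro h0 _
        apply sum_eq_zero
        intro h _
        simp [hk]
      · simp
    · rw [ih Y' X']
      have h2 : ∀ (k0 : ZMod q) (k : Fin m → ZMod q), ∑ h0 : ZMod q, ∑ h : Fin m → ZMod q,
          (if k0 = h0 then (q : ℂ)⁻¹ * e (k0 * (y - x)) * (G m k h * (e (ip k Y') * e (-(ip h X'))))
          else 0) = (q : ℂ)⁻¹ * e (k0 * (y - x)) * ∑ h, (G m k h * (e (ip k Y') * e (-(ip h X')))) := by
        intro k0 k
        rw [Finset.sum_eq_single k0]
        · simp only [if_true]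
          rw [mul_sum]
        · intro h0 _ hh
          apply sum_eq_zero
          intro h _
          rw [if_neg (Ne.symm hh)]
        · simp
      simp_rw [h2]
      have h3 : ∑ k0 : ZMod q, ∑ k : Fin m → ZMod q, (q : ℂ)⁻¹ * e (k0 * (y - x)) *
          ∑ h, (G m k h * (e (ip k Y') * e (-(ip h X')))) =
          ((q : ℂ)⁻¹ * ∑ k0 : ZMod q, e (k0 * (y - x))) *
          ∑ k : Fin m → ZMod q, ∑ h, (G m k h * (e (ip k Y') * e (-(ip h X')))) := by
        have e5 : (q : ℂ)⁻¹ * ∑ k0 : ZMod q, e (k0 * (y - x)) =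
            ∑ k0 : ZMod q, (q : ℂ)⁻¹ * e (k0 * (y - x)) := mul_sum _ _ _
        rw [e5, sum_mul_sum]
      rw [h3, sum_e_mul]
      congr 1
      by_cases hxy : y = x
      · simp [hxy, hq]
      · have : y - x ≠ 0 := sub_ne_zero.2 hxy
        simp [hxy, this]

end Pool.Agent.DNet
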