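import Mathlib
import Pool.Agent.DNet.Kernel

/-!
Support and values of the double Fourier coefficients of the order indicator.
-/

namespace Pool.Agent.DNet

open Finset

set_option linter.unusedSectionVars false

variable {q : ℕ} [Fact q.Prime]

/-- the two arguments of a nonzero coefficient differ in at most one position -/
lemma G_diff {m : ℕ} (k h : Fin m → ZMod q) (hG : G m k h ≠ 0) :
    ∀ i j, k i ≠ h i → k j ≠ h j → i = j := by
  induction m with
  | zero => intro i; exact i.elim0
  | succ m ih =>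
    intro i j hi hj
    by_cases h0 : Fin.tail k = 0 ∧ Fin.tail h = 0
    · have key : ∀ i : Fin (m + 1), k i ≠ h i → i = 0 := by
        intro i hi
        by_contra hne
        obtain ⟨i', rfl⟩ := Fin.exists_succ_eq.2 hne
        apply hi
        have e1 := congrFun h0.1 i'
        have e2 := congrFun h0.2 i'
        simp only [Fin.tail, Pi.zero_apply] at e1 e2
        rw [e1, e2]
      rw [key i hi, key j hj]
    · simp only [G, h0, if_false, mul_zero, zero_add] at hG
      have h1 : k 0 = h 0 := by
        by_contra hne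
        simp [hne] at hG
      have h2 : G m (Fin.tail k) (Fin.tail h) ≠ 0 := by
        intro hz
        simp [hz] at hG
      have hi0 : i ≠ 0 := by rintro rfl; exact hi h1
      have hj0 : j ≠ 0 := by rintro rfl; exact hj h1
      obtain ⟨i', rfl⟩ := Fin.exists_succ_eq.2 hi0
      obtain ⟨j', rfl⟩ := Fin.exists_succ_eq.2 hj0
      rw [ih (Fin.tail k) (Fin.tail h) h2 i' j' hi hj]

lemma sum_zmod_val (F : ℕ → ℂ) : ∑ x : ZMod q, F x.val = ∑ n ∈ range q, F n := by
  have hq := (Fact.out : q.Prime).pos
  obtain ⟨n, rfl⟩ : ∃ n, q = n + 1 := ⟨q - 1, by omega⟩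
  exact Fin.sum_univ_eq_sum_range F (n + 1)

lemma e_ne_one {x : ZMod q} (hx : x ≠ 0) : e x ≠ 1 := fun h => hx ((e_eq_one_iff x).1 h)

lemma e_nsmul (x : ZMod q) (n : ℕ) : e (x * (n : ZMod q)) = e x ^ n := by
  induction n with
  | zero => simp [e_zero]
  | succ n ih => rw [Nat.cast_succ, mul_add, mul_one, e_add, ih, pow_succ]

lemma e_pow_q (x : ZMod q) : e x ^ q = 1 := by
  rw [← e_nsmul]
  simp [e_zero]

lemma c1_zero {κ : ZMod q} (hκ : κ ≠ 0) : c1 κ 0 = (q : ℂ)⁻¹ * (1 - e (-κ))⁻¹ := by
  have hq := q_ne_zero (q := q)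
  set E := e (-κ) with hE
  have hE1 : E ≠ 1 := e_ne_one (neg_ne_zero.2 hκ)
  have h1 : ∀ x : ZMod q, ∑ y : ZMod q, (if y.val < x.val then e (-(κ * y)) * e (0 * x) else 0) =
      (E ^ x.val - 1) / (E - 1) := by
    intro x
    have h2 : ∀ y : ZMod q, (if y.val < x.val then e (-(κ * y)) * e (0 * x) else 0) =
        (fun n : ℕ => if n < x.val then E ^ n else 0) y.val := by
      intro y
      simp only [zero_mul, e_zero, mul_one]
      split_ifs
      · rw [hE, ← e_nsmul, ZMod.natCast_zmod_val]
        congr 1; ring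
      · rfl
    simp_rw [h2]
    rw [sum_zmod_val (fun n : ℕ => if n < x.val then E ^ n else 0)]
    rw [← sum_filter]
    have h3 : (range q).filter (fun n => n < x.val) = range x.val := by
      ext n
      simp only [mem_filter, mem_range]
      have := ZMod.val_lt x
      omega
    rw [h3, geom_sum_eq hE1]
  unfold c1
  simp_rw [h1]
  rw [sum_zmod_val (fun n => (E ^ n - 1) / (E - 1)), ← sum_div, sum_sub_distrib, geom_sum_eq hE1,
    hE, e_pow_q]
  have h4 : E - 1 ≠ 0 := sub_ne_zero.2 hE1
  have h5 : 1 - E ≠ 0 := sub_ne_zero.2 (Ne.symm hE1)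
  rw [← hE]
  simp only [sub_self, zero_div, sum_const, card_range, nsmul_eq_mul, mul_one, zero_sub]
  field_simp
  ring

/-- value of the coefficient when the top digit is removed -/
lemma G_update {m : ℕ} (k : Fin m → ZMod q) (a : Fin m) (ha : k a ≠ 0)
    (htop : ∀ i, a < i → k i = 0) :
    G m k (Function.update k a 0) = ((q : ℂ)⁻¹) ^ ((a : ℕ) + 1) * (1 - e (-(k a)))⁻¹ := by
  induction m with
  | zero => exact a.elim0
  | succ m ih =>
    by_cases ha0 : a = 0
    · subst ha0
      have h1 : Fin.tail k = 0 := by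
        funext i
        exact htop i.succ (Fin.succ_pos i)
      have h2 : Fin.tail (Function.update k 0 0) = 0 := by
        funext i
        simp only [Fin.tail, Pi.zero_apply]
        rw [Function.update_of_ne (Fin.succ_ne_zero i)]
        exact htop i.succ (Fin.succ_pos i)
      simp only [G, h1, h2, and_self, if_true, Function.update_self, ha, if_false, mul_one,
        mul_zero, zero_mul, add_zero]
      rw [c1_zero ha]
      simp
    · obtain ⟨a', rfl⟩ := Fin.exists_succ_eq.2 ha0
      have h1 : ¬ (Fin.tail k = 0 ∧ Fin.tail (Function.update k a'.succ 0) = 0) := by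
        intro h
        exact ha (congrFun h.1 a')
      have h2 : k 0 = Function.update k a'.succ 0 0 := by
        rw [Function.update_of_ne (Fin.succ_ne_zero a').symm]
      have h3 : Fin.tail (Function.update k a'.succ 0) = Function.update (Fin.tail k) a' 0 := by
        rw [Fin.tail_update_succ]
      rw [h3] at h1
      simp only [G, h3]
      rw [if_neg h1, ← h2, if_pos rfl]
      simp only [mul_zero, zero_add, mul_one]
      rw [ih (Fin.tail k) a' ha (fun i hi => htop i.succ (Fin.succ_lt_succ_iff.2 hi))]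
      simp only [Fin.tail, Fin.val_succ]
      ring

/-! ### Top position -/

/-- one plus the largest index of a nonzero digit (zero for the zero vector) -/
def mu {m : ℕ} (k : Fin m → ZMod q) : ℕ := univ.sup (fun i : Fin m => if k i = 0 then 0 else (i : ℕ) + 1)

/-- remove the top digit -/
def zt {m : ℕ} (k : Fin m → ZMod q) : Fin m → ZMod q := fun i => if (i : ℕ) + 1 = mu k then 0 else k i

/-- the top digit -/
def td {m : ℕ} (k : Fin m → ZMod q) : ZMod q := ∑ i : Fin m, if (i : ℕ) + 1 = mu k then k i else 0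

lemma mu_of_top {m : ℕ} (k : Fin m → ZMod q) (a : Fin m) (ha : k a ≠ 0)
    (htop : ∀ i, a < i → k i = 0) : mu k = a + 1 := by
  unfold mu
  apply le_antisymm
  · apply Finset.sup_le
    intro i _
    split_ifs with h
    · omega
    · have : ¬ a < i := fun hlt => h (htop i hlt)
      have : (i : ℕ) ≤ a := by
        rw [not_lt] at this
        exact this
      omega
  · have := Finset.le_sup (f := fun i : Fin m => if k i = 0 then 0 else (i : ℕ) + 1) (mem_univ a)
    simpa [ha] using this

lemma exists_top {m : ℕ} (k : Fin m → ZMod q) (hk : k ≠ 0) :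
    ∃ a : Fin m, k a ≠ 0 ∧ (∀ i, a < i → k i = 0) ∧ mu k = a + 1 := by
  classical
  have hne : (univ.filter (fun i => k i ≠ 0)).Nonempty := by
    by_contra hcon
    rw [not_nonempty_iff_eq_empty, filter_eq_empty_iff] at hcon
    apply hk
    funext i
    have := hcon (mem_univ i)
    simpa using this
  set a := (univ.filter (fun i => k i ≠ 0)).max' hne with ha
  have h1 : k a ≠ 0 := by
    have := Finset.max'_mem _ hne
    simpa using (mem_filter.1 this).2
  have h2 : ∀ i, a < i → k i = 0 := by
    intro i hi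
    by_contra hcon
    have : i ≤ a := Finset.le_max' _ _ (by simp [hcon])
    exact absurd hi (not_lt.2 this)
  exact ⟨a, h1, h2, mu_of_top k a h1 h2⟩

lemma mu_zero {m : ℕ} : mu (0 : Fin m → ZMod q) = 0 := by
  simp [mu]

lemma mu_eq_zero_iff {m : ℕ} (k : Fin m → ZMod q) : mu k = 0 ↔ k = 0 := by
  constructor
  · intro h
    by_contra hk
    obtain ⟨a, _, _, h3⟩ := exists_top k hk
    omega
  · rintro rfl
    exact mu_zero

lemma mu_le {m : ℕ} (k : Fin m → ZMod q) : mu k ≤ m := by
  unfold mu
  apply Finset.sup_le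
  intro i _
  have := i.2
  split_ifs <;> omega

lemma td_eq {m : ℕ} (k : Fin m → ZMod q) (a : Fin m) (h : mu k = a + 1) : td k = k a := by
  unfold td
  rw [Finset.sum_eq_single a]
  · simp [h]
  · intro b _ hb
    rw [if_neg]
    intro h2
    apply hb
    apply Fin.ext
    omega
  · simp

lemma zt_eq {m : ℕ} (k : Fin m → ZMod q) (a : Fin m) (h : mu k = a + 1) :
    zt k = Function.update k a 0 := by
  funext i
  unfold zt
  by_cases hi : i = a
  · subst hi
    simp [h]
  · rw [Function.update_of_ne hi, if_neg]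
    intro h2
    apply hi
    apply Fin.ext
    omega

lemma td_ne_zero {m : ℕ} (k : Fin m → ZMod q) (hk : k ≠ 0) : td k ≠ 0 := by
  obtain ⟨a, h1, _, h3⟩ := exists_top k hk
  rw [td_eq k a h3]
  exact h1

lemma G_zt {m : ℕ} (k : Fin m → ZMod q) (hk : k ≠ 0) :
    G m k (zt k) = ((q : ℂ)⁻¹) ^ (mu k) * (1 - e (-(td k)))⁻¹ := by
  obtain ⟨a, h1, h2, h3⟩ := exists_top k hk
  rw [zt_eq k a h3, td_eq k a h3, G_update k a h1 h2, h3]

lemma mu_smul {m : ℕ} (l : ZMod q) (hl : l ≠ 0) (k : Fin m → ZMod q) :
    mu (l • k) = mu k := by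
  unfold mu
  congr 1
  funext i
  simp [hl]

lemma zt_smul {m : ℕ} (l : ZMod q) (hl : l ≠ 0) (k : Fin m → ZMod q) : zt (l • k) = l • zt k := by
  funext i
  simp only [zt, mu_smul l hl, Pi.smul_apply, smul_eq_mul]
  split_ifs <;> simp

lemma td_smul {m : ℕ} (l : ZMod q) (hl : l ≠ 0) (k : Fin m → ZMod q) : td (l • k) = l * td k := by
  simp only [td, mu_smul l hl, Pi.smul_apply, smul_eq_mul, mul_sum]
  refine sum_congr rfl fun i _ => ?_
  split_ifs <;> simp

lemma zt_ne {m : ℕ} (k : Fin m → ZMod q) (i : Fin m) (h : k i ≠ zt k i) : (i : ℕ) + 1 = mu k := by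
  by_contra hcon
  apply h
  simp [zt, hcon]

end Pool.Agent.DNet
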