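import Mathlib
import Pool.Agent.DNet.Kernel2

/-!
Fourier expansion of the discrepancy function of a digital net.
-/

namespace Pool.Agent.DNet

open Finset

set_option linter.unusedSectionVars false

variable {q : ℕ} [Fact q.Prime] {d m : ℕ}

/-- number of vectors `n` whose image lies below `X` in every coordinate -/
noncomputable def cnt (C : Fin d → Matrix (Fin m) (Fin m) (ZMod q)) (X : Fin d → Fin m → ZMod q) : ℕ :=
  (univ.filter (fun n : Fin m → ZMod q => ∀ j, vl ((C j).mulVec n) < vl (X j))).card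

/-- local discrepancy -/
noncomputable def Dl (C : Fin d → Matrix (Fin m) (Fin m) (ZMod q)) (X : Fin d → Fin m → ZMod q) : ℝ :=
  (cnt C X : ℝ) / (q : ℝ) ^ m - ∏ j, ((vl (X j) : ℝ) / (q : ℝ) ^ m)

/-- the transposed action -/
def tr (C : Fin d → Matrix (Fin m) (Fin m) (ZMod q)) (k : Fin d → Fin m → ZMod q) : Fin m → ZMod q :=
  fun l => ∑ j, ∑ i, k j i * C j i l

/-- total pairing -/
def ipp (k X : Fin d → Fin m → ZMod q) : ZMod q := ∑ j, ip (k j) (X j)

/-- product coefficient -/
noncomputable def GG (k h : Fin d → Fin m → ZMod q) : ℂ := ∏ j, G m (k j) (h j)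

/-- one-sided expansion coefficient -/
noncomputable def gg (X κ : Fin m → ZMod q) : ℂ := ∑ h, G m κ h * e (-(ip h X))

lemma T_eq_gg (Y X : Fin m → ZMod q) : T Y X = ∑ κ, gg X κ * e (ip κ Y) := by
  rw [T_expand]
  refine sum_congr rfl fun κ _ => ?_
  unfold gg
  rw [sum_mul]
  refine sum_congr rfl fun h _ => ?_
  ring

lemma ipp_mulVec (C : Fin d → Matrix (Fin m) (Fin m) (ZMod q)) (k : Fin d → Fin m → ZMod q)
    (n : Fin m → ZMod q) : ∑ j, ip (k j) ((C j).mulVec n) = ip n (tr C k) := by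
  unfold ip tr
  simp only [Matrix.mulVec, dotProduct, mul_sum]
  rw [Finset.sum_comm' (s := univ) (t := fun _ => univ) (t' := univ) (s' := fun _ => univ)
    (by simp)]
  have : ∀ x : Fin m, ∑ j : Fin d, ∑ i : Fin m, k j x * (C j x i * n i) =
    ∑ i : Fin m, ∑ j : Fin d, k j x * (C j x i * n i) := fun x => sum_comm
  simp_rw [this]
  rw [Finset.sum_comm]
  refine sum_congr rfl fun l _ => ?_
  rw [Finset.sum_comm]
  refine sum_congr rfl fun j _ => sum_congr rfl fun i _ => ?_
  ring

lemma vl_card_lt (X : Fin m → ZMod q) :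
    (univ.filter (fun Y : Fin m → ZMod q => vl Y < vl X)).card = vl X := by
  have hcard : (univ : Finset (Fin m → ZMod q)).card = q ^ m := by
    rw [card_univ, Fintype.card_fun, ZMod.card, Fintype.card_fin]
  have h1 : (univ : Finset (Fin m → ZMod q)).image vl = range (q ^ m) := by
    apply eq_of_subset_of_card_le
    · intro n hn
      obtain ⟨Y, _, rfl⟩ := mem_image.1 hn
      exact mem_range.2 (vl_lt Y)
    · rw [card_image_of_injective _ vl_injective, hcard, card_range]
  have h2 : (univ.filter (fun Y : Fin m → ZMod q => vl Y < vl X)).image vl = range (vl X) := by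
    ext n
    rw [mem_image, mem_range]
    constructor
    · rintro ⟨Y, hY, rfl⟩
      exact (mem_filter.1 hY).2
    · intro hn
      have : n ∈ (univ : Finset (Fin m → ZMod q)).image vl := by
        rw [h1, mem_range]
        exact hn.trans (vl_lt X)
      obtain ⟨Y, _, rfl⟩ := mem_image.1 this
      exact ⟨Y, mem_filter.2 ⟨mem_univ _, hn⟩, rfl⟩
  rw [← card_image_of_injective _ vl_injective, h2, card_range]

lemma gg_zero (X : Fin m → ZMod q) : gg X 0 = (vl X : ℂ) / (q : ℂ) ^ m := by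
  have hq := q_ne_zero (q := q)
  have h1 : ∑ Y : Fin m → ZMod q, T Y X = (vl X : ℂ) := by
    unfold T
    rw [← sum_filter, sum_const, vl_card_lt]
    simp
  have h2 : ∑ Y : Fin m → ZMod q, T Y X = (q : ℂ) ^ m * gg X 0 := by
    simp_rw [T_eq_gg]
    rw [sum_comm]
    have h3 : ∀ κ : Fin m → ZMod q, ∑ Y : Fin m → ZMod q, gg X κ * e (ip κ Y) =
        if κ = 0 then (q : ℂ) ^ m * gg X 0 else 0 := by
      intro κ
      rw [← mul_sum]
      have : ∑ Y : Fin m → ZMod q, e (ip κ Y) = ∑ Y : Fin m → ZMod q, e (ip Y κ) :=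
        sum_congr rfl fun Y _ => by rw [ip_comm]
      rw [this, sum_e_ip]
      split_ifs with h
      · subst h
        simp [mul_comm]
      · simp
    simp_rw [h3]
    rw [sum_ite_eq' univ (0 : Fin m → ZMod q) (fun _ => (q : ℂ) ^ m * gg X 0)]
    simp
  rw [h1] at h2
  rw [h2]
  field_simp

lemma prod_gg (X k : Fin d → Fin m → ZMod q) :
    ∏ j, gg (X j) (k j) = ∑ h : Fin d → Fin m → ZMod q, GG k h * e (-(ipp h X)) := by
  unfold gg
  have h2 := Finset.prod_univ_sum (fun _ : Fin d => (univ : Finset (Fin m → ZMod q)))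
    (fun j h => G m (k j) h * e (-(ip h (X j))))
  rw [Fintype.piFinset_univ] at h2
  rw [h2]
  refine sum_congr rfl fun h _ => ?_
  rw [prod_mul_distrib]
  unfold GG ipp
  rw [← e_sum, sum_neg_distrib]

lemma cnt_eq (C : Fin d → Matrix (Fin m) (Fin m) (ZMod q)) (X : Fin d → Fin m → ZMod q) :
    (cnt C X : ℂ) = (q : ℂ) ^ m * ∑ k : Fin d → Fin m → ZMod q,
      if tr C k = 0 then ∏ j, gg (X j) (k j) else 0 := by
  have h1 : (cnt C X : ℂ) = ∑ n : Fin m → ZMod q, ∏ j, T ((C j).mulVec n) (X j) := by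
    unfold cnt
    rw [card_filter]
    push_cast
    refine sum_congr rfl fun n _ => ?_
    unfold T
    by_cases h : ∀ j, vl ((C j).mulVec n) < vl (X j)
    · rw [if_pos h]
      symm
      exact prod_eq_one fun j _ => by rw [if_pos (h j)]
    · rw [if_neg h]
      push Not at h
      obtain ⟨j, hj⟩ := h
      symm
      exact prod_eq_zero (mem_univ j) (by rw [if_neg (not_lt.2 hj)])
  rw [h1]
  have h2 : ∀ n : Fin m → ZMod q, ∏ j, T ((C j).mulVec n) (X j) =
      ∑ k : Fin d → Fin m → ZMod q, (∏ j, gg (X j) (k j)) * e (ip n (tr C k)) := by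
    intro n
    simp_rw [T_eq_gg]
    have h3 := Finset.prod_univ_sum (fun _ : Fin d => (univ : Finset (Fin m → ZMod q)))
      (fun j κ => gg (X j) κ * e (ip κ ((C j).mulVec n)))
    rw [Fintype.piFinset_univ] at h3
    rw [h3]
    refine sum_congr rfl fun k _ => ?_
    rw [prod_mul_distrib, ← e_sum, ipp_mulVec]
  simp_rw [h2]
  rw [sum_comm, mul_sum]
  refine sum_congr rfl fun k _ => ?_
  rw [← mul_sum, sum_e_ip]
  split_ifs
  · rw [Fintype.card_fin]; ring
  · simp

/-- Fourier expansion of the local discrepancy -/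
lemma Dl_expand (C : Fin d → Matrix (Fin m) (Fin m) (ZMod q)) (X : Fin d → Fin m → ZMod q) :
    (Dl C X : ℂ) = ∑ k : Fin d → Fin m → ZMod q, ∑ h : Fin d → Fin m → ZMod q,
      (if tr C k = 0 ∧ k ≠ 0 then GG k h else 0) * e (-(ipp h X)) := by
  have hq := q_ne_zero (q := q)
  unfold Dl
  push_cast
  rw [cnt_eq, mul_div_cancel_left₀ _ (pow_ne_zero m hq)]
  have h0 : ∏ j, ((vl (X j) : ℂ) / (q : ℂ) ^ m) = ∏ j, gg (X j) ((0 : Fin d → Fin m → ZMod q) j) :=
    prod_congr rfl fun j _ => (gg_zero (X j)).symm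
  rw [h0]
  have htr0 : tr C (0 : Fin d → Fin m → ZMod q) = 0 := by
    funext l; simp [tr]
  have h1 : ∑ k : Fin d → Fin m → ZMod q, (if tr C k = 0 then ∏ j, gg (X j) (k j) else 0) =
      ∏ j, gg (X j) ((0 : Fin d → Fin m → ZMod q) j) +
      ∑ k : Fin d → Fin m → ZMod q, (if tr C k = 0 ∧ k ≠ 0 then ∏ j, gg (X j) (k j) else 0) := by
    have h2 : ∀ k : Fin d → Fin m → ZMod q, (if tr C k = 0 then ∏ j, gg (X j) (k j) else 0) =
        (if k = 0 then ∏ j, gg (X j) ((0 : Fin d → Fin m → ZMod q) j) else 0) +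
        (if tr C k = 0 ∧ k ≠ 0 then ∏ j, gg (X j) (k j) else 0) := by
      intro k
      by_cases hk : k = 0
      · subst hk
        simp [htr0]
      · by_cases ht : tr C k = 0
        · simp [hk, ht]
        · simp [hk, ht]
    simp_rw [h2]
    rw [sum_add_distrib]
    congr 1
    rw [sum_ite_eq' univ (0 : Fin d → Fin m → ZMod q)]
    simp
  rw [h1, add_sub_cancel_left]
  refine sum_congr rfl fun k _ => ?_
  split_ifs
  · exact prod_gg X k
  · simp

/-- orthogonality for the total pairing -/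
lemma sum_e_ipp (h : Fin d → Fin m → ZMod q) :
    ∑ X : Fin d → Fin m → ZMod q, e (ipp h X) = if h = 0 then (q : ℂ) ^ (d * m) else 0 := by
  have h1 : ∀ X : Fin d → Fin m → ZMod q, e (ipp h X) = ∏ j, e (ip (h j) (X j)) :=
    fun X => e_sum _ _
  simp_rw [h1]
  have h2 := (Finset.prod_univ_sum (fun _ : Fin d => (univ : Finset (Fin m → ZMod q)))
    (fun j x => e (ip (h j) x))).symm
  rw [Fintype.piFinset_univ] at h2
  rw [h2]
  have h3 : ∀ j, ∑ x : Fin m → ZMod q, e (ip (h j) x) = if h j = 0 then (q : ℂ) ^ m else 0 := by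
    intro j
    have : ∑ x : Fin m → ZMod q, e (ip (h j) x) = ∑ x : Fin m → ZMod q, e (ip x (h j)) :=
      sum_congr rfl fun Y _ => by rw [ip_comm]
    rw [this, sum_e_ip, Fintype.card_fin]
  simp_rw [h3]
  split_ifs with hh
  · subst hh
    simp only [Pi.zero_apply, if_true, prod_const, card_univ, Fintype.card_fin]
    rw [← pow_mul, mul_comm]
  · obtain ⟨i, hi⟩ : ∃ i, h i ≠ 0 := by
      by_contra hcon
      push Not at hcon
      exact hh (funext hcon)
    exact prod_eq_zero (mem_univ i) (by rw [if_neg hi])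

lemma ipp_sub (h k X : Fin d → Fin m → ZMod q) : ipp (h - k) X = ipp h X - ipp k X := by
  unfold ipp ip
  rw [← sum_sub_distrib]
  refine sum_congr rfl fun j _ => ?_
  rw [← sum_sub_distrib]
  refine sum_congr rfl fun i _ => ?_
  simp only [Pi.sub_apply]
  ring

lemma ipp_neg (h X : Fin d → Fin m → ZMod q) : ipp (-h) X = - ipp h X := by
  unfold ipp ip
  rw [← sum_neg_distrib]
  refine sum_congr rfl fun j _ => ?_
  rw [← sum_neg_distrib]
  refine sum_congr rfl fun i _ => ?_
  simp only [Pi.neg_apply]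
  ring

/-- Fourier coefficient of the local discrepancy -/
lemma Dl_coeff (C : Fin d → Matrix (Fin m) (Fin m) (ZMod q)) (h : Fin d → Fin m → ZMod q) :
    ∑ X : Fin d → Fin m → ZMod q, (Dl C X : ℂ) * e (ipp h X) =
      (q : ℂ) ^ (d * m) * ∑ k : Fin d → Fin m → ZMod q, if tr C k = 0 ∧ k ≠ 0 then GG k h else 0 := by
  simp_rw [Dl_expand]
  have h1 : ∀ X : Fin d → Fin m → ZMod q, (∑ k : Fin d → Fin m → ZMod q,
      ∑ h' : Fin d → Fin m → ZMod q, (if tr C k = 0 ∧ k ≠ 0 then GG k h' else 0) *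
        e (-(ipp h' X))) * e (ipp h X) =
      ∑ k : Fin d → Fin m → ZMod q,
      ∑ h' : Fin d → Fin m → ZMod q, (if tr C k = 0 ∧ k ≠ 0 then GG k h' else 0) *
        e (ipp (h - h') X) := by
    intro X
    rw [sum_mul]
    refine sum_congr rfl fun k _ => ?_
    rw [sum_mul]
    refine sum_congr rfl fun h' _ => ?_
    rw [mul_assoc, ← e_add, ipp_sub]
    congr 2
    ring
  simp_rw [h1]
  rw [sum_comm, mul_sum]
  refine sum_congr rfl fun k _ => ?_
  rw [sum_comm]
  have h2 : ∀ h' : Fin d → Fin m → ZMod q, ∑ X : Fin d → Fin m → ZMod q,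
      (if tr C k = 0 ∧ k ≠ 0 then GG k h' else 0) * e (ipp (h - h') X) =
      if h' = h then (q : ℂ) ^ (d * m) * (if tr C k = 0 ∧ k ≠ 0 then GG k h else 0) else 0 := by
    intro h'
    rw [← mul_sum, sum_e_ipp]
    by_cases hh : h' = h
    · subst hh
      simp only [sub_self, if_true]
      ring
    · have : h - h' ≠ 0 := sub_ne_zero.2 (Ne.symm hh)
      rw [if_neg this, if_neg hh, mul_zero]
  simp_rw [h2]
  rw [sum_ite_eq' univ h]
  simp

end Pool.Agent.DNet
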