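import Mathlib
import Pool.Agent.DNet.Disc

/-!
Alignment of the phases of several dual vectors.
-/

namespace Pool.Agent.DNet

open Finset

set_option linter.unusedSectionVars false

variable {q : ℕ} [Fact q.Prime] {d m : ℕ}

/-- number of nonzero digits -/
def nz (x : Fin m → ZMod q) : ℕ := (univ.filter (fun i => x i ≠ 0)).card

lemma nz_add_le (x y : Fin m → ZMod q) : nz (x + y) ≤ nz x + nz y := by
  unfold nz
  calc (univ.filter (fun i => (x + y) i ≠ 0)).card
      ≤ (univ.filter (fun i => x i ≠ 0) ∪ univ.filter (fun i => y i ≠ 0)).card := by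
        apply card_le_card
        intro i hi
        simp only [mem_filter, mem_univ, true_and, mem_union, Pi.add_apply] at hi ⊢
        by_contra hcon
        push Not at hcon
        apply hi
        rw [hcon.1, hcon.2, add_zero]
    _ ≤ _ := card_union_le _ _

lemma nz_G (k h : Fin m → ZMod q) (hG : G m k h ≠ 0) : nz (k - h) ≤ 1 := by
  unfold nz
  rw [card_le_one]
  intro i hi j hj
  simp only [mem_filter, mem_univ, true_and, Pi.sub_apply, sub_ne_zero] at hi hj
  exact G_diff k h hG i j hi hj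

lemma nz_zt (k : Fin m → ZMod q) : nz (k - zt k) ≤ 1 := by
  unfold nz
  rw [card_le_one]
  intro i hi j hj
  simp only [mem_filter, mem_univ, true_and, Pi.sub_apply, sub_ne_zero] at hi hj
  have h1 := zt_ne k i hi
  have h2 := zt_ne k j hj
  apply Fin.ext
  omega

lemma tr_add (C : Fin d → Matrix (Fin m) (Fin m) (ZMod q)) (k h : Fin d → Fin m → ZMod q) :
    tr C (k + h) = tr C k + tr C h := by
  funext l
  simp only [tr, Pi.add_apply, add_mul, sum_add_distrib]

lemma tr_smul (C : Fin d → Matrix (Fin m) (Fin m) (ZMod q)) (a : ZMod q)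
    (k : Fin d → Fin m → ZMod q) : tr C (a • k) = a • tr C k := by
  funext l
  simp only [tr, Pi.smul_apply, smul_eq_mul, mul_sum, mul_assoc]

lemma tr_sub (C : Fin d → Matrix (Fin m) (Fin m) (ZMod q)) (k h : Fin d → Fin m → ZMod q) :
    tr C (k - h) = tr C k - tr C h := by
  funext l
  simp only [tr, Pi.sub_apply, sub_mul, sum_sub_distrib]

lemma tr_sum {ι : Type*} (s : Finset ι) (C : Fin d → Matrix (Fin m) (Fin m) (ZMod q))
    (f : ι → Fin d → Fin m → ZMod q) : tr C (∑ i ∈ s, f i) = ∑ i ∈ s, tr C (f i) := by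
  classical
  induction s using Finset.induction_on with
  | empty =>
    simp only [sum_empty]
    funext l; simp [tr]
  | insert a s ha ih => rw [sum_insert ha, sum_insert ha, tr_add, ih]

lemma norm_inv_one_sub_e (x : ZMod q) (hx : x ≠ 0) : (1 / 2 : ℝ) ≤ ‖(1 - e x)⁻¹‖ := by
  rw [norm_inv]
  have h1 : ‖1 - e x‖ ≤ 2 := by
    calc ‖1 - e x‖ ≤ ‖(1 : ℂ)‖ + ‖e x‖ := norm_sub_le _ _
      _ = 2 := by rw [norm_e, norm_one]; norm_num
  have h2 : 0 < ‖1 - e x‖ := by
    rw [norm_pos_iff, sub_ne_zero]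
    exact (e_ne_one hx).symm
  rw [one_div]
  exact (inv_le_inv₀ (by norm_num) h2).2 h1

lemma conj_inv_one_sub_e (x : ZMod q) :
    (starRingEnd ℂ) ((1 - e x)⁻¹) = (1 - e (-x))⁻¹ := by
  rw [map_inv₀, map_sub, map_one, conj_e]

/-- the local factor function -/
noncomputable def RR (t : Fin d → ZMod q) (v : ZMod q) : ℂ :=
  ∑ l ∈ univ.filter (fun l : ZMod q => l ≠ 0), e (-(l * v)) * ∏ j, (1 - e (-(l * t j)))⁻¹

lemma RR_conj (t : Fin d → ZMod q) (v : ZMod q) : (starRingEnd ℂ) (RR t v) = RR t v := by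
  unfold RR
  rw [map_sum]
  refine sum_bij' (fun l _ => -l) (fun l _ => -l) ?_ ?_ ?_ ?_ ?_
  · intro l hl; simpa using hl
  · intro l hl; simpa using hl
  · intro l _; simp
  · intro l _; simp
  · intro l _
    rw [map_mul, map_prod, conj_e]
    congr 1
    · congr 1; ring
    · refine prod_congr rfl fun j _ => ?_
      rw [conj_inv_one_sub_e]
      congr 3; ring

lemma RR_sum (t : Fin d → ZMod q) : ∑ v : ZMod q, RR t v = 0 := by
  unfold RR
  rw [sum_comm]
  apply sum_eq_zero
  intro l hl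
  rw [← sum_mul]
  have : ∑ v : ZMod q, e (-(l * v)) = 0 := by
    have h1 : ∑ v : ZMod q, e (-(l * v)) = ∑ v : ZMod q, e (v * (-l)) :=
      sum_congr rfl fun v _ => by congr 1; ring
    rw [h1, sum_e_mul, if_neg]
    simpa using hl
  rw [this, zero_mul]

lemma RR_coeff (t : Fin d → ZMod q) :
    ∑ v : ZMod q, RR t v * e v = q * ∏ j, (1 - e (-(t j)))⁻¹ := by
  unfold RR
  simp_rw [sum_mul]
  rw [sum_comm]
  rw [Finset.sum_eq_single (1 : ZMod q)]
  · have h1 : ∀ v : ZMod q, e (-(1 * v)) * (∏ j, (1 - e (-(1 * t j)))⁻¹) * e v =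
        ∏ j, (1 - e (-(t j)))⁻¹ := by
      intro v
      have : e (-(1 * v)) * e v = 1 := by rw [← e_add]; simp [e_zero]
      calc _ = (e (-(1 * v)) * e v) * ∏ j, (1 - e (-(1 * t j)))⁻¹ := by ring
        _ = _ := by rw [this, one_mul]; simp
    simp_rw [h1]
    rw [sum_const, card_univ, ZMod.card, nsmul_eq_mul]
  · intro l _ hl1
    have h1 : ∀ v : ZMod q, e (-(l * v)) * (∏ j, (1 - e (-(l * t j)))⁻¹) * e v =
        e (v * (1 - l)) * ∏ j, (1 - e (-(l * t j)))⁻¹ := by
      intro v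
      have : e (v * (1 - l)) = e (-(l * v)) * e v := by rw [← e_add]; congr 1; ring
      rw [this]; ring
    simp_rw [h1]
    rw [← sum_mul, sum_e_mul, if_neg (sub_ne_zero.2 (Ne.symm hl1)), zero_mul]
  · intro h
    simp at h

/-- one can choose the phase so that the local factor is large -/
lemma exists_phase (t : Fin d → ZMod q) (ht : ∀ j, t j ≠ 0) :
    ∃ v : ZMod q, (1 / 2 : ℝ) ^ (d + 1) ≤ (RR t v).re := by
  by_contra hcon
  push Not at hcon
  have hq : (0 : ℝ) < q := by exact_mod_cast (Fact.out : q.Prime).pos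
  have hreal : ∀ v, RR t v = ((RR t v).re : ℂ) := fun v => (Complex.conj_eq_iff_re.1 (RR_conj t v)).symm
  have hsum : ∑ v : ZMod q, (RR t v).re = 0 := by
    have := congrArg Complex.re (RR_sum t)
    rwa [Complex.re_sum, Complex.zero_re] at this
  have h1 : ∑ v : ZMod q, |(RR t v).re| < q * (1 / 2 : ℝ) ^ d := by
    -- |x| = 2 x⁺ - x
    have h2 : ∀ v : ZMod q, |(RR t v).re| = 2 * max (RR t v).re 0 - (RR t v).re := by
      intro v
      rcases le_total 0 (RR t v).re with h | h
      · rw [abs_of_nonneg h, max_eq_left h]; ring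
      · rw [abs_of_nonpos h, max_eq_right h]; ring
    simp_rw [h2]
    rw [sum_sub_distrib, hsum, sub_zero, ← mul_sum]
    have h3 : ∑ v : ZMod q, max (RR t v).re 0 < ∑ v : ZMod q, (1 / 2 : ℝ) ^ (d + 1) := by
      apply sum_lt_sum_of_nonempty univ_nonempty
      intro v _
      exact max_lt (hcon v) (by positivity)
    rw [sum_const, card_univ, ZMod.card, nsmul_eq_mul] at h3
    calc 2 * ∑ v : ZMod q, max (RR t v).re 0 < 2 * (q * (1 / 2 : ℝ) ^ (d + 1)) := by linarith
      _ = _ := by rw [pow_succ]; ring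
  have h4 : (q : ℝ) * (1 / 2 : ℝ) ^ d ≤ ∑ v : ZMod q, |(RR t v).re| := by
    have h5 : ‖∑ v : ZMod q, RR t v * e v‖ ≤ ∑ v : ZMod q, |(RR t v).re| := by
      refine (norm_sum_le _ _).trans (le_of_eq ?_)
      refine sum_congr rfl fun v _ => ?_
      rw [norm_mul, norm_e, mul_one]
      conv_lhs => rw [hreal v]
      rw [Complex.norm_real, Real.norm_eq_abs]
    rw [RR_coeff, norm_mul, norm_prod, Complex.norm_natCast] at h5
    refine le_trans ?_ h5
    apply mul_le_mul_of_nonneg_left _ hq.le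
    calc (1 / 2 : ℝ) ^ d = ∏ j : Fin d, (1 / 2 : ℝ) := by simp
      _ ≤ _ := prod_le_prod (fun _ _ => by norm_num)
        (fun j _ => norm_inv_one_sub_e _ (neg_ne_zero.2 (ht j)))
  linarith

section align

variable {ι : Type*} [Fintype ι] [DecidableEq ι]

/-- combination of the dual vectors -/
def kc (κ : ι → Fin d → Fin m → ZMod q) (c : ι → ZMod q) : Fin d → Fin m → ZMod q :=
  ∑ i, c i • κ i

/-- combination of the dual vectors with top digits removed -/
def zc (κ : ι → Fin d → Fin m → ZMod q) (c : ι → ZMod q) : Fin d → Fin m → ZMod q :=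
  fun j => ∑ i, c i • zt (κ i j)

lemma kc_apply (κ : ι → Fin d → Fin m → ZMod q) (c : ι → ZMod q) (j : Fin d) (l : Fin m) :
    kc κ c j l = ∑ i, c i * κ i j l := by
  unfold kc
  rw [Finset.sum_apply, Finset.sum_apply]
  rfl

lemma zc_apply (κ : ι → Fin d → Fin m → ZMod q) (c : ι → ZMod q) (j : Fin d) (l : Fin m) :
    zc κ c j l = ∑ i, c i * zt (κ i j) l := by
  unfold zc
  rw [Finset.sum_apply]
  rfl

lemma nz_kc_sub_zc (κ : ι → Fin d → Fin m → ZMod q) (c : ι → ZMod q) (j : Fin d) :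
    nz (kc κ c j - zc κ c j) ≤ Fintype.card ι := by
  classical
  unfold nz
  have h1 : univ.filter (fun l => (kc κ c j - zc κ c j) l ≠ 0) ⊆
      (univ : Finset ι).biUnion (fun i => univ.filter (fun l : Fin m => (l : ℕ) + 1 = mu (κ i j))) := by
    intro l hl
    rw [mem_biUnion]
    by_contra hcon
    push Not at hcon
    simp only [mem_filter, mem_univ, true_and, Pi.sub_apply] at hl hcon
    apply hl
    rw [kc_apply, zc_apply, ← sum_sub_distrib]
    apply sum_eq_zero
    intro i _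
    have := hcon i trivial
    simp [zt, this]
  refine (card_le_card h1).trans ?_
  refine card_biUnion_le.trans ?_
  calc ∑ i : ι, (univ.filter (fun l : Fin m => (l : ℕ) + 1 = mu (κ i j))).card
      ≤ ∑ _i : ι, 1 := by
        apply sum_le_sum
        intro i _
        rw [card_le_one]
        intro a ha b hb
        simp only [mem_filter, mem_univ, true_and] at ha hb
        apply Fin.ext
        omega
    _ = _ := by simp

/-- hypotheses for the alignment lemma -/
structure AH (C : Fin d → Matrix (Fin m) (Fin m) (ZMod q)) (κ : ι → Fin d → Fin m → ZMod q)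
    (j0 : Fin d) : Prop where
  dual : ∀ i, tr C (κ i) = 0
  ne : ∀ i j, κ i j ≠ 0
  inj : ∀ i i', mu (κ i j0) = mu (κ i' j0) → i = i'
  sparse : ∀ k, tr C k = 0 → (∀ j, nz (k j) ≤ Fintype.card ι + 1) → k = 0

variable {C : Fin d → Matrix (Fin m) (Fin m) (ZMod q)} {κ : ι → Fin d → Fin m → ZMod q} {j0 : Fin d}

lemma tr_kc (H : AH C κ j0) (c : ι → ZMod q) : tr C (kc κ c) = 0 := by
  unfold kc
  rw [tr_sum]
  apply sum_eq_zero
  intro i _
  rw [tr_smul, H.dual, smul_zero]

/-- top digits of combinations -/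
lemma kc_top (H : AH C κ j0) (c : ι → ZMod q) (i : ι) (l : Fin m) (hl : (l : ℕ) + 1 = mu (κ i j0)) :
    (kc κ c j0 - zc κ c j0) l = c i * td (κ i j0) := by
  rw [Pi.sub_apply, kc_apply, zc_apply, ← sum_sub_distrib, Finset.sum_eq_single i]
  · have h1 : zt (κ i j0) l = 0 := by simp [zt, hl]
    rw [h1, td_eq (κ i j0) l hl.symm]
    ring
  · intro i' _ hi'
    have h2 : (l : ℕ) + 1 ≠ mu (κ i' j0) := by
      intro h
      exact hi' (H.inj i' i (by rw [← h, hl]))
    simp [zt, h2]
  · simp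

lemma exists_pos (H : AH C κ j0) (i : ι) : ∃ l : Fin m, (l : ℕ) + 1 = mu (κ i j0) := by
  obtain ⟨a, _, _, h⟩ := exists_top (κ i j0) (H.ne i j0)
  exact ⟨a, h.symm⟩

lemma zc_eq_zero (H : AH C κ j0) (c : ι → ZMod q) (h : zc κ c = 0) : c = 0 := by
  have h1 : kc κ c = 0 := by
    apply H.sparse _ (tr_kc H c)
    intro j
    have h2 := nz_kc_sub_zc κ c j
    have h3 : zc κ c j = 0 := congrFun h j
    rw [h3, sub_zero] at h2
    omega
  funext i
  obtain ⟨l, hl⟩ := exists_pos H i
  have h4 := kc_top H c i l hl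
  rw [congrFun h1 j0, congrFun h j0] at h4
  simp only [Pi.zero_apply, sub_self] at h4
  have h5 := td_ne_zero (κ i j0) (H.ne i j0)
  rcases mul_eq_zero.1 h4.symm with h6 | h6
  · exact h6
  · exact absurd h6 h5

/-- only the vector `kc c` can contribute to the frequency `zc c` -/
lemma eq_kc (H : AH C κ j0) (c : ι → ZMod q) (k : Fin d → Fin m → ZMod q) (hk : tr C k = 0)
    (hG : GG k (zc κ c) ≠ 0) : k = kc κ c := by
  have h1 : k - kc κ c = 0 := by
    apply H.sparse
    · rw [tr_sub, hk, tr_kc H, sub_zero]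
    · intro j
      have h2 : G m (k j) (zc κ c j) ≠ 0 := by
        intro h0
        exact hG (prod_eq_zero (mem_univ j) h0)
      have h3 := nz_G _ _ h2
      have h4 := nz_kc_sub_zc κ c j
      have h5 : (k - kc κ c) j = (k j - zc κ c j) + -(kc κ c j - zc κ c j) := by
        rw [Pi.sub_apply]; abel
      rw [h5]
      refine (nz_add_le _ _).trans ?_
      have h6 : nz (-(kc κ c j - zc κ c j)) = nz (kc κ c j - zc κ c j) := by
        unfold nz
        congr 1
        ext l
        simp only [mem_filter, mem_univ, true_and, Pi.neg_apply, neg_ne_zero]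
      rw [h6]
      omega
  exact sub_eq_zero.1 h1

/-- combinations with two nonzero coefficients do not contribute -/
lemma GG_two (H : AH C κ j0) (c : ι → ZMod q) (i i' : ι) (hii : i ≠ i') (hi : c i ≠ 0)
    (hi' : c i' ≠ 0) : GG (kc κ c) (zc κ c) = 0 := by
  by_contra hG
  have h2 : G m (kc κ c j0) (zc κ c j0) ≠ 0 := by
    intro h0
    exact hG (prod_eq_zero (mem_univ j0) h0)
  obtain ⟨l, hl⟩ := exists_pos H i
  obtain ⟨l', hl'⟩ := exists_pos H i'
  have h3 := kc_top H c i l hl
  have h4 := kc_top H c i' l' hl'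
  have h5 : kc κ c j0 l ≠ zc κ c j0 l := by
    rw [← sub_ne_zero]
    show (kc κ c j0 - zc κ c j0) l ≠ 0
    rw [h3]
    exact mul_ne_zero hi (td_ne_zero _ (H.ne i j0))
  have h6 : kc κ c j0 l' ≠ zc κ c j0 l' := by
    rw [← sub_ne_zero]
    show (kc κ c j0 - zc κ c j0) l' ≠ 0
    rw [h4]
    exact mul_ne_zero hi' (td_ne_zero _ (H.ne i' j0))
  have h7 := G_diff _ _ h2 l l' h5 h6
  subst h7
  exact hii (H.inj i i' (by rw [← hl, hl']))

lemma kc_single (i : ι) (l : ZMod q) : kc κ (Pi.single i l) = l • κ i := by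
  unfold kc
  rw [Finset.sum_eq_single i]
  · rw [Pi.single_eq_same]
  · intro i' _ h
    rw [Pi.single_eq_of_ne h, zero_smul]
  · simp

lemma zc_single (i : ι) (l : ZMod q) : zc κ (Pi.single i l) = fun j => l • zt (κ i j) := by
  funext j
  unfold zc
  rw [Finset.sum_eq_single i]
  · rw [Pi.single_eq_same]
  · intro i' _ h
    rw [Pi.single_eq_of_ne h, zero_smul]
  · simp

lemma GG_single (H : AH C κ j0) (i : ι) (l : ZMod q) (hl : l ≠ 0) :
    GG (kc κ (Pi.single i l)) (zc κ (Pi.single i l)) =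
      ((q : ℂ)⁻¹) ^ (∑ j, mu (κ i j)) * ∏ j, (1 - e (-(l * td (κ i j))))⁻¹ := by
  rw [kc_single, zc_single]
  unfold GG
  have h1 : ∀ j, G m ((l • κ i) j) (l • zt (κ i j)) =
      ((q : ℂ)⁻¹) ^ (mu (κ i j)) * (1 - e (-(l * td (κ i j))))⁻¹ := by
    intro j
    rw [← zt_smul l hl]
    have hne : l • κ i j ≠ 0 := smul_ne_zero hl (H.ne i j)
    have := G_zt (l • κ i j) hne
    rw [mu_smul l hl, td_smul l hl] at this
    exact this
  rw [prod_congr rfl fun j _ => h1 j, prod_mul_distrib, prod_pow_eq_pow_sum]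

/-- the coefficient at the frequency `zc c` -/
lemma coeff_zc (H : AH C κ j0) (c : ι → ZMod q) :
    (∑ k : Fin d → Fin m → ZMod q, if tr C k = 0 ∧ k ≠ 0 then GG k (zc κ c) else 0) =
      if kc κ c ≠ 0 then GG (kc κ c) (zc κ c) else 0 := by
  rw [Finset.sum_eq_single (kc κ c)]
  · simp [tr_kc H c]
  · intro k _ hk
    by_cases h1 : tr C k = 0 ∧ k ≠ 0
    · rw [if_pos h1]
      by_contra hG
      exact hk (eq_kc H c k h1.1 hG)
    · rw [if_neg h1]
  · simp

/-- sum over all combinations -/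
lemma sum_comb (H : AH C κ j0) (v : ι → ZMod q) :
    ∑ c : ι → ZMod q, e (-(ip c v)) * (if kc κ c ≠ 0 then GG (kc κ c) (zc κ c) else 0) =
      ∑ i, ((q : ℂ)⁻¹) ^ (∑ j, mu (κ i j)) * RR (fun j => td (κ i j)) (v i) := by
  classical
  -- restrict to single vectors
  set S : Finset (ι → ZMod q) :=
    ((univ : Finset ι) ×ˢ (univ.filter (fun l : ZMod q => l ≠ 0))).image
      (fun p => Pi.single p.1 p.2) with hS
  have hsub : ∑ c : ι → ZMod q, e (-(ip c v)) * (if kc κ c ≠ 0 then GG (kc κ c) (zc κ c) else 0) =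
      ∑ c ∈ S, e (-(ip c v)) * (if kc κ c ≠ 0 then GG (kc κ c) (zc κ c) else 0) := by
    symm
    apply sum_subset (subset_univ S)
    intro c _ hc
    by_cases hc0 : c = 0
    · subst hc0
      have : kc κ 0 = 0 := by simp [kc]
      simp [this]
    · obtain ⟨i, hi⟩ : ∃ i, c i ≠ 0 := by
        by_contra hcon
        push Not at hcon
        exact hc0 (funext hcon)
      obtain ⟨i', hii, hi'⟩ : ∃ i', i ≠ i' ∧ c i' ≠ 0 := by
        by_contra hcon
        push Not at hcon
        apply hc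
        rw [hS, mem_image]
        refine ⟨(i, c i), by simp [hi], ?_⟩
        funext i'
        by_cases h : i = i'
        · subst h; simp
        · simp only
          rw [Pi.single_eq_of_ne (Ne.symm h), hcon i' h]
      rw [GG_two H c i i' hii hi hi']
      simp
  rw [hsub, hS, sum_image, sum_product]
  · refine sum_congr rfl fun i _ => ?_
    unfold RR
    rw [mul_sum]
    refine sum_congr rfl fun l hl => ?_
    have hl0 : l ≠ 0 := by simpa using hl
    have h1 : kc κ (Pi.single i l) ≠ 0 := by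
      rw [kc_single]
      intro h
      have h2 := congrFun h j0
      simp only [Pi.smul_apply, Pi.zero_apply] at h2
      exact (smul_ne_zero hl0 (H.ne i j0)) h2
    simp only
    rw [if_pos h1, GG_single H i l hl0]
    have h2 : ip (Pi.single i l) v = l * v i := by
      unfold ip
      rw [Finset.sum_eq_single i]
      · simp
      · intro i' _ h
        rw [Pi.single_eq_of_ne h, zero_mul]
      · simp
    rw [h2]
    ring
  · intro p hp p' hp' heq
    simp only [coe_product, Set.mem_prod, mem_coe, mem_univ, mem_filter, true_and] at hp hp'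
    have h1 : p.1 = p'.1 := by
      by_contra hne
      have := congrFun heq p.1
      simp only [Pi.single_eq_same] at this
      rw [Pi.single_eq_of_ne hne] at this
      exact hp this
    have h2 : p.2 = p'.2 := by
      have := congrFun heq p.1
      simp only [Pi.single_eq_same] at this
      rw [h1, Pi.single_eq_same] at this
      exact this
    exact Prod.ext h1 h2

/-- the weight function -/
noncomputable def rho (κ : ι → Fin d → Fin m → ZMod q) (v : ι → ZMod q)
    (X : Fin d → Fin m → ZMod q) : ℝ :=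
  if (fun i => ipp (fun j => zt (κ i j)) X - v i) = 0 then (q : ℝ) ^ Fintype.card ι else 0

lemma ipp_zc (c : ι → ZMod q) (X : Fin d → Fin m → ZMod q) :
    ipp (zc κ c) X = ∑ i, c i * ipp (fun j => zt (κ i j)) X := by
  unfold ipp ip
  simp_rw [mul_sum, zc_apply, sum_mul]
  rw [sum_comm]
  have h1 : ∀ x : Fin d, ∑ i : Fin m, ∑ i_1 : ι, c i_1 * zt (κ i_1 x) i * X x i =
      ∑ i_1 : ι, ∑ i : Fin m, c i_1 * zt (κ i_1 x) i * X x i := fun x => sum_comm
  rw [Finset.sum_comm]
  simp_rw [h1]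
  rw [Finset.sum_comm]
  refine sum_congr rfl fun i _ => sum_congr rfl fun j _ => sum_congr rfl fun l _ => ?_
  ring

lemma rho_eq (v : ι → ZMod q) (X : Fin d → Fin m → ZMod q) :
    (rho κ v X : ℂ) = ∑ c : ι → ZMod q, e (-(ip c v)) * e (ipp (zc κ c) X) := by
  have h1 : ∀ c : ι → ZMod q, e (-(ip c v)) * e (ipp (zc κ c) X) =
      e (ip c (fun i => ipp (fun j => zt (κ i j)) X - v i)) := by
    intro c
    rw [← e_add, ipp_zc]
    congr 1
    unfold ip
    rw [← sum_neg_distrib, ← sum_add_distrib]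
    exact sum_congr rfl fun i _ => by ring
  simp_rw [h1]
  rw [sum_e_ip]
  unfold rho
  split_ifs <;> simp

/-- the alignment lemma -/
theorem align (H : AH C κ j0) :
    ∃ X, (1 / 2 : ℝ) ^ (d + 1) * ∑ i, ((q : ℝ)⁻¹) ^ (∑ j, mu (κ i j)) ≤ Dl C X := by
  have hq : (0 : ℝ) < q := by exact_mod_cast (Fact.out : q.Prime).pos
  choose v hv using fun i => exists_phase (fun j => td (κ i j)) (fun j => td_ne_zero _ (H.ne i j))
  have h1 : ∑ X : Fin d → Fin m → ZMod q, (rho κ v X : ℂ) = (q : ℂ) ^ (d * m) := by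
    simp_rw [rho_eq]
    rw [sum_comm]
    simp_rw [← mul_sum, sum_e_ipp]
    rw [Finset.sum_eq_single (0 : ι → ZMod q)]
    · have : zc κ (0 : ι → ZMod q) = 0 := by funext j; simp [zc]
      simp [this, ip, e_zero]
    · intro c _ hc
      rw [if_neg (fun h => hc (zc_eq_zero H c h)), mul_zero]
    · simp
  have h2 : ∑ X : Fin d → Fin m → ZMod q, (Dl C X : ℂ) * (rho κ v X : ℂ) =
      (q : ℂ) ^ (d * m) * ∑ i, ((q : ℂ)⁻¹) ^ (∑ j, mu (κ i j)) * RR (fun j => td (κ i j)) (v i) := by
    simp_rw [rho_eq, mul_sum]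
    rw [sum_comm]
    have h3 : ∀ c : ι → ZMod q, ∑ X : Fin d → Fin m → ZMod q,
        (Dl C X : ℂ) * (e (-(ip c v)) * e (ipp (zc κ c) X)) =
        (q : ℂ) ^ (d * m) * (e (-(ip c v)) *
          (if kc κ c ≠ 0 then GG (kc κ c) (zc κ c) else 0)) := by
      intro c
      rw [← coeff_zc H c]
      have h4 : ∀ X : Fin d → Fin m → ZMod q, (Dl C X : ℂ) * (e (-(ip c v)) * e (ipp (zc κ c) X)) =
          e (-(ip c v)) * ((Dl C X : ℂ) * e (ipp (zc κ c) X)) := fun X => by ring
      simp_rw [h4]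
      rw [← mul_sum, Dl_coeff]
      ring
    simp_rw [h3]
    rw [← mul_sum, sum_comb H v, mul_sum]
  have h1r : ∑ X : Fin d → Fin m → ZMod q, rho κ v X = (q : ℝ) ^ (d * m) := by
    have := congrArg Complex.re h1
    rw [Complex.re_sum] at this
    simp only [Complex.ofReal_re] at this
    rw [this, ← Nat.cast_pow, Complex.natCast_re]
    push_cast
    rfl
  have h2r : (q : ℝ) ^ (d * m) * ((1 / 2 : ℝ) ^ (d + 1) * ∑ i, ((q : ℝ)⁻¹) ^ (∑ j, mu (κ i j))) ≤
      ∑ X : Fin d → Fin m → ZMod q, Dl C X * rho κ v X := by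
    have h5 := congrArg Complex.re h2
    rw [Complex.re_sum] at h5
    have h6 : ∀ X : Fin d → Fin m → ZMod q, ((Dl C X : ℂ) * (rho κ v X : ℂ)).re = Dl C X * rho κ v X := by
      intro X
      rw [← Complex.ofReal_mul, Complex.ofReal_re]
    simp_rw [h6] at h5
    rw [h5]
    have h7 : ((q : ℂ) ^ (d * m) * ∑ i, ((q : ℂ)⁻¹) ^ (∑ j, mu (κ i j)) *
        RR (fun j => td (κ i j)) (v i)).re =
        (q : ℝ) ^ (d * m) * ∑ i, ((q : ℝ)⁻¹) ^ (∑ j, mu (κ i j)) *
        (RR (fun j => td (κ i j)) (v i)).re := by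
      have e1 : ((q : ℂ) ^ (d * m)) = (((q : ℝ) ^ (d * m) : ℝ) : ℂ) := by push_cast; rfl
      rw [e1, Complex.re_ofReal_mul, Complex.re_sum]
      congr 1
      refine sum_congr rfl fun i _ => ?_
      have e2 : ((q : ℂ)⁻¹) ^ (∑ j, mu (κ i j)) = ((((q : ℝ)⁻¹) ^ (∑ j, mu (κ i j)) : ℝ) : ℂ) := by
        push_cast; rfl
      rw [e2, Complex.re_ofReal_mul]
    rw [h7]
    apply mul_le_mul_of_nonneg_left _ (by positivity)
    rw [mul_sum]
    apply sum_le_sum
    intro i _
    rw [mul_comm]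
    apply mul_le_mul_of_nonneg_left (hv i) (by positivity)
  by_contra hcon
  push Not at hcon
  have h8 : ∑ X : Fin d → Fin m → ZMod q, Dl C X * rho κ v X <
      ∑ X : Fin d → Fin m → ZMod q,
        ((1 / 2 : ℝ) ^ (d + 1) * ∑ i, ((q : ℝ)⁻¹) ^ (∑ j, mu (κ i j))) * rho κ v X := by
    have hnn : ∀ X, 0 ≤ rho κ v X := by
      intro X
      unfold rho
      split_ifs <;> positivity
    apply sum_lt_sum
    · intro X _
      exact mul_le_mul_of_nonneg_right (hcon X).le (hnn X)
    · obtain ⟨X, hX⟩ : ∃ X, rho κ v X ≠ 0 := by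
        by_contra h9
        push Not at h9
        rw [sum_eq_zero fun X _ => h9 X] at h1r
        have : (0 : ℝ) < (q : ℝ) ^ (d * m) := by positivity
        linarith
      refine ⟨X, mem_univ X, mul_lt_mul_of_pos_right (hcon X) (lt_of_le_of_ne (hnn X) (Ne.symm hX))⟩
  rw [← mul_sum, h1r] at h8
  linarith

end align

end Pool.Agent.DNet
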