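import Mathlib
import Pool.Agent.DNet.Align

/-!
An `L²` lower bound for the discrepancy function of a digital net, and a trivial lower bound.
-/

namespace Pool.Agent.DNet

open Finset

set_option linter.unusedSectionVars false

variable {q : ℕ} [Fact q.Prime] {d m : ℕ}

/-- top digits removed in every coordinate -/
def zv (k : Fin d → Fin m → ZMod q) : Fin d → Fin m → ZMod q := fun j => zt (k j)

lemma nz_neg (x : Fin m → ZMod q) : nz (-x) = nz x := by
  unfold nz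
  congr 1
  ext l
  simp

lemma norm_GG_zv (k : Fin d → Fin m → ZMod q) (hk : ∀ j, k j ≠ 0) :
    (1 / 2 : ℝ) ^ d * ((q : ℝ)⁻¹) ^ (∑ j, mu (k j)) ≤ ‖GG k (zv k)‖ := by
  have hq : (0 : ℝ) < q := by exact_mod_cast (Fact.out : q.Prime).pos
  unfold GG zv
  rw [norm_prod]
  have h1 : (1 / 2 : ℝ) ^ d * ((q : ℝ)⁻¹) ^ (∑ j, mu (k j)) =
      ∏ j, ((1 / 2 : ℝ) * ((q : ℝ)⁻¹) ^ (mu (k j))) := by
    rw [prod_mul_distrib, prod_pow_eq_pow_sum]
    simp
  rw [h1]
  apply prod_le_prod (fun _ _ => by positivity)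
  intro j _
  rw [G_zt (k j) (hk j), norm_mul, norm_pow, norm_inv, Complex.norm_natCast, mul_comm]
  apply mul_le_mul_of_nonneg_left _ (by positivity)
  exact norm_inv_one_sub_e _ (neg_ne_zero.2 (td_ne_zero _ (hk j)))

/-- the coefficient at `zv k` for a dual vector `k` -/
lemma coeff_zv (C : Fin d → Matrix (Fin m) (Fin m) (ZMod q))
    (hsp : ∀ k, tr C k = 0 → (∀ j, nz (k j) ≤ 2) → k = 0) (k : Fin d → Fin m → ZMod q)
    (hk : tr C k = 0) (hk0 : k ≠ 0) :
    (∑ k' : Fin d → Fin m → ZMod q, if tr C k' = 0 ∧ k' ≠ 0 then GG k' (zv k) else 0) =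
      GG k (zv k) := by
  rw [Finset.sum_eq_single k]
  · simp [hk, hk0]
  · intro k' _ hne
    by_cases h1 : tr C k' = 0 ∧ k' ≠ 0
    · rw [if_pos h1]
      by_contra hG
      apply hne
      apply sub_eq_zero.1
      apply hsp
      · rw [tr_sub, h1.1, hk, sub_zero]
      · intro j
        have h2 : G m (k' j) (zt (k j)) ≠ 0 := by
          intro h0
          exact hG (prod_eq_zero (mem_univ j) h0)
        have h3 := nz_G _ _ h2
        have h4 := nz_zt (k j)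
        have h5 : (k' - k) j = (k' j - zt (k j)) + -(k j - zt (k j)) := by
          rw [Pi.sub_apply]; abel
        rw [h5]
        refine (nz_add_le _ _).trans ?_
        rw [nz_neg]
        omega
    · rw [if_neg h1]
  · simp

lemma zv_inj (C : Fin d → Matrix (Fin m) (Fin m) (ZMod q))
    (hsp : ∀ k, tr C k = 0 → (∀ j, nz (k j) ≤ 2) → k = 0) (k k' : Fin d → Fin m → ZMod q)
    (hk : tr C k = 0) (hk' : tr C k' = 0) (h : zv k = zv k') : k = k' := by
  apply sub_eq_zero.1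
  apply hsp
  · rw [tr_sub, hk', hk, sub_zero]
  · intro j
    have h3 := nz_zt (k' j)
    have h4 := nz_zt (k j)
    have h5 : (k - k') j = (k j - zt (k j)) + -(k' j - zt (k' j)) := by
      have : zt (k j) = zt (k' j) := congrFun h j
      rw [Pi.sub_apply, this]; abel
    rw [h5]
    refine (nz_add_le _ _).trans ?_
    rw [nz_neg]
    omega

/-- the `L²` bound -/
theorem ltwo (C : Fin d → Matrix (Fin m) (Fin m) (ZMod q))
    (hsp : ∀ k, tr C k = 0 → (∀ j, nz (k j) ≤ 2) → k = 0) (hd : 0 < d)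
    (S : Finset (Fin d → Fin m → ZMod q)) (w : ℕ)
    (hS : ∀ k ∈ S, tr C k = 0 ∧ (∀ j, k j ≠ 0) ∧ ∑ j, mu (k j) = w) :
    ∃ X, (1 / 2 : ℝ) ^ d * ((q : ℝ)⁻¹) ^ w * Real.sqrt (S.card) ≤ |Dl C X| := by
  classical
  have hq : (0 : ℝ) < q := by exact_mod_cast (Fact.out : q.Prime).pos
  have hS0 : ∀ k ∈ S, k ≠ 0 := by
    intro k hk h0
    have := (hS k hk).2.1 ⟨0, hd⟩
    rw [h0] at this
    exact this rfl
  -- phases
  have hph : ∀ k : Fin d → Fin m → ZMod q, ∃ ε : ℂ, ‖ε‖ = 1 ∧ ε * GG k (zv k) = ‖GG k (zv k)‖ := by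
    intro k
    by_cases h : GG k (zv k) = 0
    · exact ⟨1, by simp, by simp [h]⟩
    · refine ⟨(‖GG k (zv k)‖ : ℂ) / GG k (zv k), ?_, ?_⟩
      · rw [norm_div, Complex.norm_real, norm_norm, div_self (norm_ne_zero_iff.2 h)]
      · rw [div_mul_cancel₀ _ h]
  choose ε hε1 hε2 using hph
  set Ψ : (Fin d → Fin m → ZMod q) → ℂ := fun X => ∑ k ∈ S, ε k * e (ipp (zv k) X) with hΨ
  -- inner product
  have h1 : ∑ X, (Dl C X : ℂ) * Ψ X = (q : ℂ) ^ (d * m) * ∑ k ∈ S, (‖GG k (zv k)‖ : ℂ) := by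
    simp only [hΨ, mul_sum]
    rw [sum_comm]
    refine sum_congr rfl fun k hk => ?_
    have h2 : ∀ X, (Dl C X : ℂ) * (ε k * e (ipp (zv k) X)) = ε k * ((Dl C X : ℂ) * e (ipp (zv k) X)) :=
      fun X => by ring
    simp_rw [h2]
    rw [← mul_sum, Dl_coeff, coeff_zv C hsp k (hS k hk).1 (hS0 k hk)]
    rw [← hε2 k]; ring
  -- norm
  have h3 : ∑ X, ‖Ψ X‖ ^ 2 = (q : ℝ) ^ (d * m) * S.card := by
    have h4 : ∀ X, ((‖Ψ X‖ ^ 2 : ℝ) : ℂ) = ∑ k ∈ S, ∑ k' ∈ S,
        (ε k * (starRingEnd ℂ) (ε k')) * e (ipp (zv k - zv k') X) := by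
      intro X
      rw [← Complex.normSq_eq_norm_sq, ← Complex.mul_conj, hΨ]
      simp only
      rw [map_sum, sum_mul_sum]
      refine sum_congr rfl fun k _ => sum_congr rfl fun k' _ => ?_
      rw [map_mul, conj_e]
      have : e (ipp (zv k - zv k') X) = e (ipp (zv k) X) * e (-(ipp (zv k') X)) := by
        rw [← e_add, ipp_sub, sub_eq_add_neg]
      rw [this]; ring
    have h5 : ((∑ X, ‖Ψ X‖ ^ 2 : ℝ) : ℂ) = (q : ℂ) ^ (d * m) * S.card := by
      rw [Complex.ofReal_sum]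
      simp_rw [h4]
      rw [sum_comm]
      have h6 : ∀ k ∈ S, ∑ X, ∑ k' ∈ S, (ε k * (starRingEnd ℂ) (ε k')) * e (ipp (zv k - zv k') X) =
          (q : ℂ) ^ (d * m) := by
        intro k hk
        rw [sum_comm, Finset.sum_eq_single k]
        · simp only [sub_self]
          have h7 : ε k * (starRingEnd ℂ) (ε k) = 1 := by
            rw [Complex.mul_conj, Complex.normSq_eq_norm_sq, hε1]; norm_num
          rw [← mul_sum, sum_e_ipp, h7]
          simp
        · intro k' hk' hne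
          rw [← mul_sum, sum_e_ipp, if_neg, mul_zero]
          intro h8
          exact hne (zv_inj C hsp k' k (hS k' hk').1 (hS k hk).1 (sub_eq_zero.1 h8).symm)
        · intro h; exact absurd hk h
      rw [sum_congr rfl h6, sum_const, nsmul_eq_mul]
      ring
    have h6 : (((∑ X, ‖Ψ X‖ ^ 2 : ℝ)) : ℂ) = (((q : ℝ) ^ (d * m) * S.card : ℝ) : ℂ) := by
      rw [h5]; push_cast; rfl
    exact_mod_cast h6
  by_contra hcon
  push Not at hcon
  set B : ℝ := (1 / 2 : ℝ) ^ d * ((q : ℝ)⁻¹) ^ w * Real.sqrt (S.card) with hB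
  have hBpos : 0 < B := lt_of_le_of_lt (abs_nonneg _) (hcon 0)
  have hcardpos : 0 < (S.card : ℝ) := by
    by_contra h
    have : (S.card : ℝ) = 0 := le_antisymm (not_lt.1 h) (by positivity)
    rw [hB, this] at hBpos
    simp at hBpos
  have hcardX : ((univ : Finset (Fin d → Fin m → ZMod q)).card : ℝ) = (q : ℝ) ^ (d * m) := by
    rw [card_univ, Fintype.card_fun, Fintype.card_fun, ZMod.card, Fintype.card_fin, Fintype.card_fin,
      ← pow_mul, mul_comm]
    push_cast; rfl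
  -- lower bound
  have h7 : (q : ℝ) ^ (d * m) * (S.card * ((1 / 2 : ℝ) ^ d * ((q : ℝ)⁻¹) ^ w)) ≤
      ∑ X, |Dl C X| * ‖Ψ X‖ := by
    have h8 : ‖∑ X, (Dl C X : ℂ) * Ψ X‖ ≤ ∑ X, |Dl C X| * ‖Ψ X‖ := by
      refine (norm_sum_le _ _).trans (le_of_eq ?_)
      refine sum_congr rfl fun X _ => ?_
      rw [norm_mul, Complex.norm_real, Real.norm_eq_abs]
    refine le_trans ?_ h8
    rw [h1, norm_mul, norm_pow, Complex.norm_natCast]
    apply mul_le_mul_of_nonneg_left _ (by positivity)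
    have h9 : (∑ k ∈ S, (‖GG k (zv k)‖ : ℂ)) = ((∑ k ∈ S, ‖GG k (zv k)‖ : ℝ) : ℂ) := by
      push_cast; rfl
    rw [h9, Complex.norm_real, Real.norm_eq_abs]
    refine le_trans ?_ (le_abs_self _)
    rw [← nsmul_eq_mul]
    apply card_nsmul_le_sum
    intro k hk
    have := norm_GG_zv k (hS k hk).2.1
    rw [(hS k hk).2.2] at this
    exact this
  -- upper bound
  have h10 : ∑ X, |Dl C X| * ‖Ψ X‖ < B * ((q : ℝ) ^ (d * m) * Real.sqrt (S.card)) := by
    have h11 : ∑ X, |Dl C X| * ‖Ψ X‖ < ∑ X, B * ‖Ψ X‖ := by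
      apply sum_lt_sum
      · intro X _
        exact mul_le_mul_of_nonneg_right (hcon X).le (norm_nonneg _)
      · obtain ⟨X, hX⟩ : ∃ X, Ψ X ≠ 0 := by
          by_contra h12
          push Not at h12
          have : ∑ X, ‖Ψ X‖ ^ 2 = 0 := sum_eq_zero fun X _ => by rw [h12 X]; simp
          rw [h3] at this
          have : (0 : ℝ) < (q : ℝ) ^ (d * m) * S.card := by positivity
          linarith
        exact ⟨X, mem_univ X, mul_lt_mul_of_pos_right (hcon X) (norm_pos_iff.2 hX)⟩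
    refine lt_of_lt_of_le h11 ?_
    rw [← mul_sum]
    apply mul_le_mul_of_nonneg_left _ hBpos.le
    -- Cauchy–Schwarz
    have h12 : (∑ X : Fin d → Fin m → ZMod q, ‖Ψ X‖) ^ 2 ≤
        ((univ : Finset (Fin d → Fin m → ZMod q)).card : ℝ) * ∑ X, ‖Ψ X‖ ^ 2 :=
      sq_sum_le_card_mul_sum_sq
    rw [hcardX, h3] at h12
    have h13 : (q : ℝ) ^ (d * m) * ((q : ℝ) ^ (d * m) * S.card) =
        ((q : ℝ) ^ (d * m) * Real.sqrt (S.card)) ^ 2 := by
      rw [mul_pow, Real.sq_sqrt hcardpos.le]; ring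
    rw [h13] at h12
    exact (sq_le_sq₀ (sum_nonneg fun _ _ => norm_nonneg _) (by positivity)).1 h12
  have h14 : B * ((q : ℝ) ^ (d * m) * Real.sqrt (S.card)) =
      (q : ℝ) ^ (d * m) * (S.card * ((1 / 2 : ℝ) ^ d * ((q : ℝ)⁻¹) ^ w)) := by
    rw [hB]
    have := Real.mul_self_sqrt hcardpos.le
    calc _ = (q : ℝ) ^ (d * m) * ((Real.sqrt S.card * Real.sqrt S.card) *
          ((1 / 2 : ℝ) ^ d * ((q : ℝ)⁻¹) ^ w)) := by ring
      _ = _ := by rw [this]
  linarith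

/-- trivial lower bound -/
theorem trivial_bound (C : Fin d → Matrix (Fin m) (Fin m) (ZMod q)) (hd : 2 ≤ d) (hm : 1 ≤ m) :
    ∃ X, (1 / 2 : ℝ) * ((q : ℝ) ^ m)⁻¹ ≤ Dl C X := by
  have hq2 : (2 : ℝ) ≤ q := by exact_mod_cast (Fact.out : q.Prime).two_le
  set a : Fin m := ⟨m - 1, by omega⟩ with ha
  set x : Fin m → ZMod q := Pi.single a 1 with hx
  have hvl : vl x = 1 := by
    unfold vl
    rw [Finset.sum_eq_single a]
    · rw [hx, Pi.single_eq_same, ZMod.val_one]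
      have : m - 1 - (a : ℕ) = 0 := by rw [ha]; simp
      rw [this]; simp
    · intro b _ hb
      rw [hx, Pi.single_eq_of_ne hb, ZMod.val_zero, zero_mul]
    · simp
  refine ⟨fun _ => x, ?_⟩
  unfold Dl
  have h1 : (1 : ℝ) ≤ cnt C (fun _ => x) := by
    have : 0 < cnt C (fun _ => x) := by
      unfold cnt
      rw [card_pos]
      refine ⟨0, ?_⟩
      simp only [mem_filter, mem_univ, true_and]
      intro j
      rw [hvl]
      simp [vl]
    exact_mod_cast this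
  have hqm : (2 : ℝ) ≤ (q : ℝ) ^ m := by
    calc (2 : ℝ) ≤ q := hq2
      _ = (q : ℝ) ^ 1 := (pow_one _).symm
      _ ≤ (q : ℝ) ^ m := pow_le_pow_right₀ (by linarith) hm
  have h2 : ∏ j : Fin d, ((vl ((fun _ => x : Fin d → Fin m → ZMod q) j) : ℝ) / (q : ℝ) ^ m) =
      ((q : ℝ) ^ m)⁻¹ ^ d := by
    simp only [hvl, Nat.cast_one, one_div, prod_const, card_univ, Fintype.card_fin]
  rw [h2]
  set y : ℝ := ((q : ℝ) ^ m)⁻¹ with hy
  have hy0 : 0 < y := by positivity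
  have hy1 : y ≤ 1 / 2 := by
    rw [hy, one_div]
    exact inv_anti₀ (by norm_num) hqm
  have h3 : y ^ d ≤ y * (1 / 2) := by
    calc y ^ d ≤ y ^ 2 := pow_le_pow_of_le_one hy0.le (by linarith) hd
      _ = y * y := by ring
      _ ≤ y * (1 / 2) := by gcongr
  have h4 : y ≤ (cnt C (fun _ => x) : ℝ) / (q : ℝ) ^ m := by
    rw [div_eq_mul_inv]
    calc y = 1 * y := by ring
      _ ≤ _ := by gcongr
  linarith

end Pool.Agent.DNet
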