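import Mathlib
import Pool.Agent.DNet.Ltwo

/-!
Counting tuples of matrices with prescribed dual vectors; first and second moments.
-/

namespace Pool.Agent.DNet

open Finset

set_option linter.unusedSectionVars false

variable {q : ℕ} [Fact q.Prime] {d m : ℕ}

/-- the space of tuples of matrices -/
abbrev Om (q d m : ℕ) := Fin d → Matrix (Fin m) (Fin m) (ZMod q)

/-- number of tuples -/
noncomputable def NN (q d m : ℕ) : ℝ := (q : ℝ) ^ (d * m * m)

lemma NN_pos : 0 < NN q d m := by
  have hq : (0 : ℝ) < q := by exact_mod_cast (Fact.out : q.Prime).pos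
  unfold NN
  positivity

lemma card_Om : ((univ : Finset (Om q d m)).card : ℝ) = NN q d m := by
  have h : (univ : Finset (Om q d m)).card = q ^ (d * m * m) := by
    rw [card_univ]
    have : Fintype.card (Matrix (Fin m) (Fin m) (ZMod q)) = q ^ (m * m) := by
      have h0 : Fintype.card (Matrix (Fin m) (Fin m) (ZMod q)) =
          Fintype.card (Fin m → Fin m → ZMod q) := Fintype.card_congr Matrix.of.symm
      rw [h0, Fintype.card_fun, Fintype.card_fun, ZMod.card, Fintype.card_fin, ← pow_mul]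
    rw [Fintype.card_fun, this, Fintype.card_fin, ← pow_mul]
    congr 1; ring
  rw [h]
  unfold NN
  push_cast
  rfl

/-- orthogonality on the space of tuples of matrices -/
lemma sum_Om (w : Fin d → Fin m → Fin m → ZMod q) :
    ∑ C : Om q d m, e (∑ j, ∑ i, ∑ l, C j i l * w j i l) = if w = 0 then (NN q d m : ℂ) else 0 := by
  classical
  let φ : Om q d m ≃ (Fin d × Fin m × Fin m → ZMod q) :=
    { toFun := fun C p => C p.1 p.2.1 p.2.2
      invFun := fun f j i l => f (j, i, l)
      left_inv := fun C => rfl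
      right_inv := fun f => rfl }
  have h1 : ∑ C : Om q d m, e (∑ j, ∑ i, ∑ l, C j i l * w j i l) =
      ∑ f : Fin d × Fin m × Fin m → ZMod q, e (ip f (fun p => w p.1 p.2.1 p.2.2)) := by
    apply Fintype.sum_equiv φ
    intro C
    congr 1
    unfold ip
    rw [Fintype.sum_prod_type]
    refine sum_congr rfl fun j _ => ?_
    rw [Fintype.sum_prod_type]
    rfl
  rw [h1, sum_e_ip]
  have h2 : ((fun p : Fin d × Fin m × Fin m => w p.1 p.2.1 p.2.2) = 0) ↔ w = 0 := by
    constructor
    · intro h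
      funext j i l
      exact congrFun h (j, i, l)
    · rintro rfl
      rfl
  by_cases hw : w = 0
  · rw [if_pos hw, if_pos (h2.2 hw)]
    simp only [Fintype.card_prod, Fintype.card_fin]
    unfold NN
    push_cast
    congr 1; ring
  · rw [if_neg hw, if_neg (fun h => hw (h2.1 h))]

lemma ip_tr (C : Om q d m) (k : Fin d → Fin m → ZMod q) (n : Fin m → ZMod q) :
    ip n (tr C k) = ∑ j, ∑ i, ∑ l, C j i l * (k j i * n l) := by
  unfold ip tr
  simp_rw [mul_sum]
  rw [sum_comm]
  refine sum_congr rfl fun j _ => ?_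
  rw [sum_comm]
  refine sum_congr rfl fun i _ => sum_congr rfl fun l _ => ?_
  ring

lemma ind_eq (x : Fin m → ZMod q) :
    (if x = 0 then (1 : ℂ) else 0) = ((q : ℂ)⁻¹) ^ m * ∑ n : Fin m → ZMod q, e (ip n x) := by
  have hq := q_ne_zero (q := q)
  rw [sum_e_ip, Fintype.card_fin]
  split_ifs
  · rw [inv_pow]; field_simp
  · simp

/-- a single vector is dual with probability `q^{-m}` -/
lemma card_one (k : Fin d → Fin m → ZMod q) (hk : k ≠ 0) :
    ((univ.filter (fun C : Om q d m => tr C k = 0)).card : ℝ) = NN q d m * ((q : ℝ)⁻¹) ^ m := by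
  have h1 : ((univ.filter (fun C : Om q d m => tr C k = 0)).card : ℂ) =
      (NN q d m : ℂ) * ((q : ℂ)⁻¹) ^ m := by
    rw [card_filter]
    push_cast
    have h2 : ∀ C : Om q d m, (if tr C k = 0 then (1 : ℂ) else 0) =
        ∑ n : Fin m → ZMod q, ((q : ℂ)⁻¹) ^ m * e (ip n (tr C k)) := by
      intro C
      rw [ind_eq, mul_sum]
    simp_rw [h2]
    rw [sum_comm, Finset.sum_eq_single (0 : Fin m → ZMod q)]
    · simp only [zero_ip, e_zero, mul_one]
      rw [sum_const, nsmul_eq_mul]
      have := card_Om (q := q) (d := d) (m := m)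
      have h3 : (((univ : Finset (Om q d m)).card : ℝ) : ℂ) = (NN q d m : ℂ) := by rw [this]
      rw [Complex.ofReal_natCast] at h3
      rw [h3]
    · intro n _ hn
      rw [← mul_sum]
      have h4 : ∑ C : Om q d m, e (ip n (tr C k)) = 0 := by
        simp_rw [ip_tr]
        rw [sum_Om, if_neg]
        intro h0
        apply hn
        obtain ⟨j, hj⟩ : ∃ j, k j ≠ 0 := by
          by_contra hcon; push Not at hcon; exact hk (funext hcon)
        obtain ⟨i, hi⟩ : ∃ i, k j i ≠ 0 := by
          by_contra hcon; push Not at hcon; exact hj (funext hcon)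
        funext l
        have := congrFun (congrFun (congrFun h0 j) i) l
        simp only [Pi.zero_apply, mul_eq_zero] at this
        rcases this with h5 | h5
        · exact absurd h5 hi
        · exact h5
      rw [h4, mul_zero]
    · simp
  have h5 : (((univ.filter (fun C : Om q d m => tr C k = 0)).card : ℝ) : ℂ) =
      ((NN q d m * ((q : ℝ)⁻¹) ^ m : ℝ) : ℂ) := by
    push_cast
    exact h1
  exact_mod_cast h5

/-- two independent vectors are both dual with probability `q^{-2m}` -/
lemma card_two (k h : Fin d → Fin m → ZMod q)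
    (hind : ∀ a b : ZMod q, a • k + b • h = 0 → a = 0 ∧ b = 0) :
    ((univ.filter (fun C : Om q d m => tr C k = 0 ∧ tr C h = 0)).card : ℝ) =
      NN q d m * (((q : ℝ)⁻¹) ^ m) ^ 2 := by
  have h1 : ((univ.filter (fun C : Om q d m => tr C k = 0 ∧ tr C h = 0)).card : ℂ) =
      (NN q d m : ℂ) * (((q : ℂ)⁻¹) ^ m) ^ 2 := by
    rw [card_filter]
    push_cast
    have h2 : ∀ C : Om q d m, (if tr C k = 0 ∧ tr C h = 0 then (1 : ℂ) else 0) =
        ∑ n : Fin m → ZMod q, ∑ n' : Fin m → ZMod q,
          (((q : ℂ)⁻¹) ^ m) ^ 2 * e (ip n (tr C k) + ip n' (tr C h)) := by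
      intro C
      have h3 : (if tr C k = 0 ∧ tr C h = 0 then (1 : ℂ) else 0) =
          (if tr C k = 0 then (1 : ℂ) else 0) * (if tr C h = 0 then (1 : ℂ) else 0) := by
        by_cases h4 : tr C k = 0 <;> by_cases h5 : tr C h = 0 <;> simp [h4, h5]
      rw [h3, ind_eq, ind_eq, mul_mul_mul_comm, sum_mul_sum, mul_sum]
      refine sum_congr rfl fun n _ => ?_
      rw [mul_sum]
      refine sum_congr rfl fun n' _ => ?_
      rw [e_add]; ring
    simp_rw [h2]
    rw [sum_comm]
    have h6 : ∀ n : Fin m → ZMod q, ∑ C : Om q d m, ∑ n' : Fin m → ZMod q,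
        (((q : ℂ)⁻¹) ^ m) ^ 2 * e (ip n (tr C k) + ip n' (tr C h)) =
        if n = 0 then (NN q d m : ℂ) * (((q : ℂ)⁻¹) ^ m) ^ 2 else 0 := by
      intro n
      rw [sum_comm]
      have h7 : ∀ n' : Fin m → ZMod q, ∑ C : Om q d m,
          (((q : ℂ)⁻¹) ^ m) ^ 2 * e (ip n (tr C k) + ip n' (tr C h)) =
          if n = 0 ∧ n' = 0 then (NN q d m : ℂ) * (((q : ℂ)⁻¹) ^ m) ^ 2 else 0 := by
        intro n'
        rw [← mul_sum]
        have h8 : ∀ C : Om q d m, ip n (tr C k) + ip n' (tr C h) =
            ∑ j, ∑ i, ∑ l, C j i l * (k j i * n l + h j i * n' l) := by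
          intro C
          rw [ip_tr, ip_tr, ← sum_add_distrib]
          refine sum_congr rfl fun j _ => ?_
          rw [← sum_add_distrib]
          refine sum_congr rfl fun i _ => ?_
          rw [← sum_add_distrib]
          refine sum_congr rfl fun l _ => ?_
          ring
        simp_rw [h8]
        rw [sum_Om]
        by_cases h9 : n = 0 ∧ n' = 0
        · rw [if_pos h9, if_pos]
          · ring
          · funext j i l
            rw [h9.1, h9.2]
            simp
        · rw [if_neg h9, if_neg, mul_zero]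
          intro h10
          apply h9
          have h11 : ∀ l, n l = 0 ∧ n' l = 0 := by
            intro l
            apply hind
            funext j i
            have := congrFun (congrFun (congrFun h10 j) i) l
            simp only [Pi.zero_apply] at this
            simp only [Pi.add_apply, Pi.smul_apply, smul_eq_mul, Pi.zero_apply]
            rw [← this]; ring
          exact ⟨funext fun l => (h11 l).1, funext fun l => (h11 l).2⟩
      simp_rw [h7]
      by_cases hn : n = 0
      · simp only [hn, true_and, if_true]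
        rw [sum_ite_eq' univ (0 : Fin m → ZMod q)]
        simp
      · simp [hn]
    simp_rw [h6]
    rw [sum_ite_eq' univ (0 : Fin m → ZMod q)]
    simp
  have h5 : (((univ.filter (fun C : Om q d m => tr C k = 0 ∧ tr C h = 0)).card : ℝ) : ℂ) =
      ((NN q d m * (((q : ℝ)⁻¹) ^ m) ^ 2 : ℝ) : ℂ) := by
    push_cast
    exact h1
  exact_mod_cast h5

/-! ### Moments -/

/-- the random sum -/
noncomputable def SS (K : Finset (Fin d → Fin m → ZMod q)) (w : (Fin d → Fin m → ZMod q) → ℝ)
    (C : Om q d m) : ℝ := ∑ k ∈ K, if tr C k = 0 then w k else 0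

/-- pairwise linear independence -/
def PI (K : Finset (Fin d → Fin m → ZMod q)) : Prop :=
  ∀ k ∈ K, ∀ h ∈ K, k ≠ h → ∀ a b : ZMod q, a • k + b • h = 0 → a = 0 ∧ b = 0

lemma moment_one (K : Finset (Fin d → Fin m → ZMod q)) (w : (Fin d → Fin m → ZMod q) → ℝ)
    (hK : ∀ k ∈ K, k ≠ 0) :
    ∑ C : Om q d m, SS K w C = NN q d m * (((q : ℝ)⁻¹) ^ m * ∑ k ∈ K, w k) := by
  unfold SS
  rw [sum_comm, mul_sum, mul_sum]
  refine sum_congr rfl fun k hk => ?_
  rw [← sum_filter, sum_const, nsmul_eq_mul, card_one k (hK k hk)]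
  ring

lemma moment_two (K : Finset (Fin d → Fin m → ZMod q)) (w : (Fin d → Fin m → ZMod q) → ℝ)
    (hK : ∀ k ∈ K, k ≠ 0) (hPI : PI K) (hw : ∀ k, 0 ≤ w k) :
    ∑ C : Om q d m, (SS K w C) ^ 2 ≤
      NN q d m * ((((q : ℝ)⁻¹) ^ m * ∑ k ∈ K, w k) ^ 2 + ((q : ℝ)⁻¹) ^ m * ∑ k ∈ K, w k ^ 2) := by
  classical
  have hq : (0 : ℝ) < q := by exact_mod_cast (Fact.out : q.Prime).pos
  have hN := NN_pos (q := q) (d := d) (m := m)
  have h1 : ∀ C : Om q d m, (SS K w C) ^ 2 =
      ∑ k ∈ K, ∑ h ∈ K, if tr C k = 0 ∧ tr C h = 0 then w k * w h else 0 := by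
    intro C
    unfold SS
    rw [sq, sum_mul_sum]
    refine sum_congr rfl fun k _ => sum_congr rfl fun h _ => ?_
    by_cases h4 : tr C k = 0 <;> by_cases h5 : tr C h = 0 <;> simp [h4, h5]
  simp_rw [h1]
  rw [sum_comm]
  have h2 : ∀ k ∈ K, ∑ C : Om q d m, ∑ h ∈ K, (if tr C k = 0 ∧ tr C h = 0 then w k * w h else 0) ≤
      NN q d m * ((((q : ℝ)⁻¹) ^ m) ^ 2 * (w k * ∑ h ∈ K, w h) + ((q : ℝ)⁻¹) ^ m * w k ^ 2) := by
    intro k hk
    rw [sum_comm]
    have h3 : ∀ h ∈ K, ∑ C : Om q d m, (if tr C k = 0 ∧ tr C h = 0 then w k * w h else 0) ≤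
        NN q d m * ((((q : ℝ)⁻¹) ^ m) ^ 2 * (w k * w h) + if h = k then ((q : ℝ)⁻¹) ^ m * w k ^ 2 else 0) := by
      intro h hh
      rw [← sum_filter, sum_const, nsmul_eq_mul]
      by_cases hkh : h = k
      · subst hkh
        rw [if_pos rfl]
        have : (univ.filter (fun C : Om q d m => tr C h = 0 ∧ tr C h = 0)) =
            univ.filter (fun C : Om q d m => tr C h = 0) := by
          ext C; simp
        rw [this, card_one h (hK h hh)]
        have h4 : 0 ≤ (((q : ℝ)⁻¹) ^ m) ^ 2 * (w h * w h) := by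
          have := hw h
          positivity
        have h5 : NN q d m * ((q : ℝ)⁻¹) ^ m * (w h * w h) =
            NN q d m * (((q : ℝ)⁻¹) ^ m * w h ^ 2) := by ring
        rw [h5]
        apply mul_le_mul_of_nonneg_left _ hN.le
        linarith
      · rw [if_neg hkh, card_two k h (hPI k hk h hh (Ne.symm hkh))]
        apply le_of_eq
        ring
    refine (sum_le_sum h3).trans (le_of_eq ?_)
    rw [← mul_sum, sum_add_distrib, ← mul_sum, ← mul_sum, sum_ite_eq' K k, if_pos hk]
  refine (sum_le_sum h2).trans (le_of_eq ?_)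
  rw [← mul_sum, sum_add_distrib, ← mul_sum, ← mul_sum, ← sum_mul]
  ring

/-- Chebyshev -/
lemma cheb (K : Finset (Fin d → Fin m → ZMod q)) (w : (Fin d → Fin m → ZMod q) → ℝ)
    (hK : ∀ k ∈ K, k ≠ 0) (hPI : PI K) (hw : ∀ k, 0 ≤ w k) (μ : ℝ)
    (hμ : μ = ((q : ℝ)⁻¹) ^ m * ∑ k ∈ K, w k) (hμ0 : 0 < μ) :
    ((univ.filter (fun C : Om q d m => SS K w C < μ / 2)).card : ℝ) ≤
      NN q d m * (4 * (((q : ℝ)⁻¹) ^ m * ∑ k ∈ K, w k ^ 2) / μ ^ 2) := by
  have h1 := moment_one (q := q) (d := d) (m := m) K w hK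
  have h2 := moment_two (q := q) (d := d) (m := m) K w hK hPI hw
  rw [← hμ] at h1 h2
  have h3 : ∑ C : Om q d m, (SS K w C - μ) ^ 2 ≤
      NN q d m * (((q : ℝ)⁻¹) ^ m * ∑ k ∈ K, w k ^ 2) := by
    have h4 : ∑ C : Om q d m, (SS K w C - μ) ^ 2 =
        ∑ C : Om q d m, (SS K w C) ^ 2 - 2 * μ * ∑ C : Om q d m, SS K w C + NN q d m * μ ^ 2 := by
      rw [← card_Om, ← nsmul_eq_mul, ← sum_const, mul_sum, ← sum_sub_distrib, ← sum_add_distrib]
      exact sum_congr rfl fun C _ => by ring
    rw [h4, h1]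
    nlinarith
  have h5 : ((univ.filter (fun C : Om q d m => SS K w C < μ / 2)).card : ℝ) * (μ / 2) ^ 2 ≤
      ∑ C : Om q d m, (SS K w C - μ) ^ 2 := by
    rw [← nsmul_eq_mul]
    calc _ ≤ ∑ C ∈ univ.filter (fun C : Om q d m => SS K w C < μ / 2), (SS K w C - μ) ^ 2 := by
          apply card_nsmul_le_sum
          intro C hC
          have := (mem_filter.1 hC).2
          nlinarith
      _ ≤ _ := sum_le_sum_of_subset_of_nonneg (filter_subset _ _) (fun _ _ _ => sq_nonneg _)
  have h6 : NN q d m * (4 * (((q : ℝ)⁻¹) ^ m * ∑ k ∈ K, w k ^ 2) / μ ^ 2) =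
      (NN q d m * (((q : ℝ)⁻¹) ^ m * ∑ k ∈ K, w k ^ 2)) / (μ / 2) ^ 2 := by
    field_simp
    ring
  rw [h6, le_div_iff₀ (by positivity)]
  linarith

/-- Markov -/
lemma markov (K : Finset (Fin d → Fin m → ZMod q)) (hK : ∀ k ∈ K, k ≠ 0) (n : ℕ) (hn : 0 < n) :
    ((univ.filter (fun C : Om q d m => n < (K.filter (fun k => tr C k = 0)).card)).card : ℝ) ≤
      NN q d m * (((q : ℝ)⁻¹) ^ m * K.card / n) := by
  have h1 := moment_one (q := q) (d := d) (m := m) K (fun _ => 1) hK
  have h2 : ∀ C : Om q d m, SS K (fun _ => 1) C = ((K.filter (fun k => tr C k = 0)).card : ℝ) := by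
    intro C
    unfold SS
    rw [card_filter]
    push_cast
    rfl
  simp only [sum_const, nsmul_eq_mul, mul_one] at h1
  have hn' : (0 : ℝ) < n := by exact_mod_cast hn
  have h3 : ((univ.filter (fun C : Om q d m => n < (K.filter (fun k => tr C k = 0)).card)).card : ℝ)
      * n ≤ ∑ C : Om q d m, SS K (fun _ => 1) C := by
    rw [← nsmul_eq_mul]
    calc _ ≤ ∑ C ∈ univ.filter (fun C : Om q d m => n < (K.filter (fun k => tr C k = 0)).card),
          SS K (fun _ => 1) C := by
          apply card_nsmul_le_sum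
          intro C hC
          have := (mem_filter.1 hC).2
          rw [h2]
          exact_mod_cast this.le
      _ ≤ _ := sum_le_sum_of_subset_of_nonneg (filter_subset _ _) (fun C _ _ => by
          rw [h2]; positivity)
  rw [h1] at h3
  rw [mul_div_assoc', le_div_iff₀ hn']
  linarith

/-- union bound -/
lemma union_one (K : Finset (Fin d → Fin m → ZMod q)) (hK : ∀ k ∈ K, k ≠ 0) :
    ((univ.filter (fun C : Om q d m => ∃ k ∈ K, tr C k = 0)).card : ℝ) ≤
      NN q d m * (((q : ℝ)⁻¹) ^ m * K.card) := by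
  classical
  have h1 : univ.filter (fun C : Om q d m => ∃ k ∈ K, tr C k = 0) ⊆
      K.biUnion (fun k => univ.filter (fun C : Om q d m => tr C k = 0)) := by
    intro C hC
    obtain ⟨k, hk, h⟩ := (mem_filter.1 hC).2
    exact mem_biUnion.2 ⟨k, hk, by simp [h]⟩
  have h2 : ((univ.filter (fun C : Om q d m => ∃ k ∈ K, tr C k = 0)).card : ℝ) ≤
      ∑ k ∈ K, ((univ.filter (fun C : Om q d m => tr C k = 0)).card : ℝ) := by
    exact_mod_cast (card_le_card h1).trans card_biUnion_le
  refine h2.trans (le_of_eq ?_)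
  rw [sum_congr rfl fun k hk => card_one k (hK k hk), sum_const, nsmul_eq_mul]
  ring

/-- union bound for pairs -/
lemma union_two (P : Finset ((Fin d → Fin m → ZMod q) × (Fin d → Fin m → ZMod q)))
    (hP : ∀ p ∈ P, ∀ a b : ZMod q, a • p.1 + b • p.2 = 0 → a = 0 ∧ b = 0) :
    ((univ.filter (fun C : Om q d m => ∃ p ∈ P, tr C p.1 = 0 ∧ tr C p.2 = 0)).card : ℝ) ≤
      NN q d m * ((((q : ℝ)⁻¹) ^ m) ^ 2 * P.card) := by
  classical
  have h1 : univ.filter (fun C : Om q d m => ∃ p ∈ P, tr C p.1 = 0 ∧ tr C p.2 = 0) ⊆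
      P.biUnion (fun p => univ.filter (fun C : Om q d m => tr C p.1 = 0 ∧ tr C p.2 = 0)) := by
    intro C hC
    obtain ⟨k, hk, h⟩ := (mem_filter.1 hC).2
    exact mem_biUnion.2 ⟨k, hk, by simp [h]⟩
  have h2 : ((univ.filter (fun C : Om q d m => ∃ p ∈ P, tr C p.1 = 0 ∧ tr C p.2 = 0)).card : ℝ) ≤
      ∑ p ∈ P, ((univ.filter (fun C : Om q d m => tr C p.1 = 0 ∧ tr C p.2 = 0)).card : ℝ) := by
    exact_mod_cast (card_le_card h1).trans card_biUnion_le
  refine h2.trans (le_of_eq ?_)
  rw [sum_congr rfl fun p hp => card_two p.1 p.2 (hP p hp), sum_const, nsmul_eq_mul]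
  ring

/-! ### Sparse vectors -/

lemma card_nz (r : ℕ) :
    (univ.filter (fun x : Fin m → ZMod q => nz x ≤ r)).card ≤ (m * q + 1) ^ r := by
  classical
  induction r with
  | zero =>
    have : univ.filter (fun x : Fin m → ZMod q => nz x ≤ 0) ⊆ {0} := by
      intro x hx
      rw [mem_singleton]
      have h1 := (mem_filter.1 hx).2
      have h2 : nz x = 0 := by omega
      unfold nz at h2
      rw [card_eq_zero, filter_eq_empty_iff] at h2
      funext i
      simpa using h2 (mem_univ i)
    refine (card_le_card this).trans ?_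
    simp
  | succ r ih =>
    have h1 : univ.filter (fun x : Fin m → ZMod q => nz x ≤ r + 1) ⊆
        insert 0 ((univ.filter (fun x : Fin m → ZMod q => nz x ≤ r) ×ˢ
          (univ : Finset (Fin m × ZMod q))).image (fun p => Function.update p.1 p.2.1 p.2.2)) := by
      intro x hx
      rw [mem_insert]
      by_cases hx0 : x = 0
      · exact Or.inl hx0
      · right
        obtain ⟨i, hi⟩ : ∃ i, x i ≠ 0 := by
          by_contra hcon; push Not at hcon; exact hx0 (funext hcon)
        rw [mem_image]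
        refine ⟨(Function.update x i 0, (i, x i)), ?_, ?_⟩
        · simp only [mem_product, mem_filter, mem_univ, true_and, and_true]
          have h2 := (mem_filter.1 hx).2
          have h3 : nz (Function.update x i 0) < nz x := by
            unfold nz
            apply card_lt_card
            rw [Finset.ssubset_iff_of_subset]
            · exact ⟨i, by simp [hi], by simp⟩
            · intro l hl
              simp only [mem_filter, mem_univ, true_and] at hl ⊢
              by_cases hli : l = i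
              · subst hli; simp at hl
              · rwa [Function.update_of_ne hli] at hl
          omega
        · simp
    have h2 := (card_le_card h1).trans (card_insert_le _ _)
    have h3 : (((univ.filter (fun x : Fin m → ZMod q => nz x ≤ r) ×ˢ
          (univ : Finset (Fin m × ZMod q))).image (fun p => Function.update p.1 p.2.1 p.2.2))).card ≤
        (m * q + 1) ^ r * (m * q) := by
      refine card_image_le.trans ?_
      rw [card_product, card_univ (α := Fin m × ZMod q), Fintype.card_prod, Fintype.card_fin, ZMod.card]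
      exact Nat.mul_le_mul_right _ ih
    have h4 : 1 ≤ (m * q + 1) ^ r := Nat.one_le_pow _ _ (by omega)
    calc _ ≤ (m * q + 1) ^ r * (m * q) + 1 := by omega
      _ ≤ (m * q + 1) ^ r * (m * q) + (m * q + 1) ^ r := by omega
      _ = (m * q + 1) ^ (r + 1) := by ring

/-- nonzero vectors with at most `r` nonzero digits in every coordinate -/
noncomputable def Sp (q : ℕ) [Fact q.Prime] (d m r : ℕ) : Finset (Fin d → Fin m → ZMod q) := by
  classical
  exact (Fintype.piFinset (fun _ : Fin d => univ.filter (fun x : Fin m → ZMod q => nz x ≤ r))).erase 0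

lemma mem_Sp (r : ℕ) (k : Fin d → Fin m → ZMod q) :
    k ∈ Sp q d m r ↔ k ≠ 0 ∧ ∀ j, nz (k j) ≤ r := by
  classical
  unfold Sp
  rw [mem_erase, Fintype.mem_piFinset]
  simp

lemma card_Sp (r : ℕ) : (Sp q d m r).card ≤ (m * q + 1) ^ (r * d) := by
  classical
  unfold Sp
  refine (card_erase_le).trans ?_
  rw [Fintype.card_piFinset]
  calc ∏ _j : Fin d, (univ.filter (fun x : Fin m → ZMod q => nz x ≤ r)).card
      ≤ ∏ _j : Fin d, (m * q + 1) ^ r := prod_le_prod (fun _ _ => Nat.zero_le _)
        (fun _ _ => card_nz r)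
    _ = _ := by simp [pow_mul]

/-- non-sparse tuples are frequent -/
lemma card_not_sparse (r : ℕ) :
    ((univ.filter (fun C : Om q d m => ∃ k ∈ Sp q d m r, tr C k = 0)).card : ℝ) ≤
      NN q d m * (((q : ℝ)⁻¹) ^ m * ((m : ℝ) * q + 1) ^ (r * d)) := by
  have hq : (0 : ℝ) < q := by exact_mod_cast (Fact.out : q.Prime).pos
  refine (union_one (Sp q d m r) (fun k hk => ((mem_Sp r k).1 hk).1)).trans ?_
  have hN := NN_pos (q := q) (d := d) (m := m)
  apply mul_le_mul_of_nonneg_left _ hN.le
  apply mul_le_mul_of_nonneg_left _ (by positivity)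
  exact_mod_cast card_Sp r

end Pool.Agent.DNet
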