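import Mathlib
import Pool.Agent.DNet.Prob

/-!
Counting digit vectors by the positions of their top digits.
-/

namespace Pool.Agent.DNet

open Finset

set_option linter.unusedSectionVars false

variable {q : ℕ} [Fact q.Prime] {m : ℕ}

lemma mu_eq_iff (x : Fin m → ZMod q) (b : Fin m) :
    mu x = (b : ℕ) + 1 ↔ x b ≠ 0 ∧ ∀ i, b < i → x i = 0 := by
  constructor
  · intro h
    have hx : x ≠ 0 := by
      intro h0
      rw [h0, mu_zero] at h
      omega
    obtain ⟨a, h1, h2, h3⟩ := exists_top x hx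
    have : a = b := by
      apply Fin.ext
      omega
    subst this
    exact ⟨h1, h2⟩
  · rintro ⟨h1, h2⟩
    exact mu_of_top x b h1 h2

lemma card_pi_top (b : Fin m) (T : Finset (ZMod q)) :
    (Fintype.piFinset (fun i : Fin m => if i < b then (univ : Finset (ZMod q)) else
      if i = b then T else {0})).card = T.card * q ^ (b : ℕ) := by
  rw [Fintype.card_piFinset]
  have h1 : ∀ i : Fin m, (if i < b then (univ : Finset (ZMod q)) else
      if i = b then T else {0}).card = (if i = b then T.card else 1) * (if i < b then q else 1) := by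
    intro i
    by_cases h2 : i < b
    · have : i ≠ b := ne_of_lt h2
      simp [h2, this, card_univ, ZMod.card]
    · by_cases h3 : i = b
      · simp [h3]
      · simp [h2, h3]
  rw [prod_congr rfl fun i _ => h1 i, prod_mul_distrib]
  congr 1
  · rw [prod_ite_eq' univ b]
    simp
  · rw [← prod_filter, prod_const]
    congr 1
    have : univ.filter (fun i : Fin m => i < b) = Iio b := by ext i; simp
    rw [this, Fin.card_Iio]

/-- vectors with top position `a` -/
lemma card_mu (a : ℕ) (ha : 1 ≤ a) (ham : a ≤ m) :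
    (univ.filter (fun x : Fin m → ZMod q => mu x = a)).card = (q - 1) * q ^ (a - 1) := by
  classical
  obtain ⟨b, hb⟩ : ∃ b : Fin m, a = b + 1 := ⟨⟨a - 1, by omega⟩, by simp; omega⟩
  subst hb
  have h1 : univ.filter (fun x : Fin m → ZMod q => mu x = (b : ℕ) + 1) =
      Fintype.piFinset (fun i : Fin m => if i < b then (univ : Finset (ZMod q)) else
        if i = b then univ.erase 0 else {0}) := by
    ext x
    rw [mem_filter, Fintype.mem_piFinset, mu_eq_iff]
    constructor
    · rintro ⟨_, h2, h3⟩ i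
      rcases lt_trichotomy i b with h | h | h
      · simp [h]
      · subst h; simp [h2]
      · have h4 : ¬ i < b := not_lt.2 h.le
        have h5 : i ≠ b := ne_of_gt h
        simp [h4, h5, h3 i h]
    · intro h
      refine ⟨mem_univ _, ?_, ?_⟩
      · have := h b
        simpa using this
      · intro i hi
        have h4 : ¬ i < b := not_lt.2 hi.le
        have h5 : i ≠ b := ne_of_gt hi
        have := h i
        simpa [h4, h5] using this
  rw [h1, card_pi_top, card_erase_of_mem (mem_univ _), card_univ, ZMod.card]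
  simp

/-- normalised vectors with top position `a` -/
lemma card_mu_td (a : ℕ) (ha : 1 ≤ a) (ham : a ≤ m) :
    (univ.filter (fun x : Fin m → ZMod q => mu x = a ∧ td x = 1)).card = q ^ (a - 1) := by
  classical
  obtain ⟨b, hb⟩ : ∃ b : Fin m, a = b + 1 := ⟨⟨a - 1, by omega⟩, by simp; omega⟩
  subst hb
  have h1 : univ.filter (fun x : Fin m → ZMod q => mu x = (b : ℕ) + 1 ∧ td x = 1) =
      Fintype.piFinset (fun i : Fin m => if i < b then (univ : Finset (ZMod q)) else
        if i = b then {1} else {0}) := by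
    ext x
    rw [mem_filter, Fintype.mem_piFinset]
    constructor
    · rintro ⟨_, h2, h3⟩ i
      rw [td_eq x b h2] at h3
      rw [mu_eq_iff] at h2
      rcases lt_trichotomy i b with h | h | h
      · simp [h]
      · subst h; simp [h3]
      · have h4 : ¬ i < b := not_lt.2 h.le
        have h5 : i ≠ b := ne_of_gt h
        simp [h4, h5, h2.2 i h]
    · intro h
      have h6 : x b = 1 := by simpa using h b
      have h7 : mu x = (b : ℕ) + 1 := by
        rw [mu_eq_iff]
        refine ⟨by rw [h6]; exact one_ne_zero, ?_⟩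
        intro i hi
        have h4 : ¬ i < b := not_lt.2 hi.le
        have h5 : i ≠ b := ne_of_gt hi
        have := h i
        simpa [h4, h5] using this
      exact ⟨mem_univ _, h7, by rw [td_eq x b h7, h6]⟩
  rw [h1, card_pi_top]
  simp

variable {E : ℕ}

/-- the shape of a vector -/
def shp (k : Fin (E + 2) → Fin m → ZMod q) : Fin (E + 2) → ℕ := fun j => mu (k j)

/-- normalised vectors with shape in `Sh` -/
noncomputable def KS (q : ℕ) [Fact q.Prime] (m : ℕ) {E : ℕ} (Sh : Finset (Fin (E + 2) → ℕ)) :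
    Finset (Fin (E + 2) → Fin m → ZMod q) :=
  univ.filter (fun k => shp k ∈ Sh ∧ td (k 1) = 1)

/-- density constant -/
noncomputable def gam (q E : ℕ) : ℝ := ((q : ℝ) - 1) ^ (E + 1) / (q : ℝ) ^ (E + 2)

lemma gam_pos : 0 < gam q E := by
  have hq : (2 : ℝ) ≤ q := by exact_mod_cast (Fact.out : q.Prime).two_le
  unfold gam
  have : (0 : ℝ) < (q : ℝ) - 1 := by linarith
  positivity

lemma gam_le_one : gam q E ≤ 1 := by
  have hq : (2 : ℝ) ≤ q := by exact_mod_cast (Fact.out : q.Prime).two_le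
  unfold gam
  rw [div_le_one (by positivity)]
  calc ((q : ℝ) - 1) ^ (E + 1) ≤ (q : ℝ) ^ (E + 1) :=
        pow_le_pow_left₀ (by linarith) (by linarith) _
    _ ≤ (q : ℝ) ^ (E + 2) := pow_le_pow_right₀ (by linarith) (by omega)

lemma card_shape (a : Fin (E + 2) → ℕ) (h1 : ∀ j, 1 ≤ a j) (h2 : ∀ j, a j ≤ m) :
    ((univ.filter (fun k : Fin (E + 2) → Fin m → ZMod q => shp k = a ∧ td (k 1) = 1)).card : ℝ) =
      gam q E * (q : ℝ) ^ (∑ j, a j) := by
  classical
  have hq : (2 : ℝ) ≤ q := by exact_mod_cast (Fact.out : q.Prime).two_le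
  have hq0 : (q : ℝ) ≠ 0 := by linarith
  have e1 : univ.filter (fun k : Fin (E + 2) → Fin m → ZMod q => shp k = a ∧ td (k 1) = 1) =
      Fintype.piFinset (fun j : Fin (E + 2) => if j = 1 then
        univ.filter (fun x : Fin m → ZMod q => mu x = a j ∧ td x = 1) else
        univ.filter (fun x : Fin m → ZMod q => mu x = a j)) := by
    ext k
    rw [mem_filter, Fintype.mem_piFinset]
    constructor
    · rintro ⟨_, h3, h4⟩ j
      have h5 : mu (k j) = a j := congrFun h3 j
      by_cases hj : j = 1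
      · subst hj; simp [h5, h4]
      · simp [hj, h5]
    · intro h
      refine ⟨mem_univ _, ?_, ?_⟩
      · funext j
        by_cases hj : j = 1
        · subst hj
          have := h 1
          simp only [if_true, mem_filter, mem_univ, true_and] at this
          exact this.1
        · have := h j
          show mu (k j) = a j
          simpa [hj] using this
      · have := h 1
        simp only [if_true, mem_filter, mem_univ, true_and] at this
        exact this.2
  rw [e1, Fintype.card_piFinset]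
  have e2 : ∀ j : Fin (E + 2), ((if j = 1 then
        univ.filter (fun x : Fin m → ZMod q => mu x = a j ∧ td x = 1) else
        univ.filter (fun x : Fin m → ZMod q => mu x = a j)).card : ℝ) =
        (if j = 1 then 1 else ((q : ℝ) - 1)) * ((q : ℝ)⁻¹ * (q : ℝ) ^ (a j)) := by
    intro j
    have e3 : (q : ℝ) ^ (a j - 1) = (q : ℝ)⁻¹ * (q : ℝ) ^ (a j) := by
      obtain ⟨n, hn⟩ : ∃ n, a j = n + 1 := ⟨a j - 1, by have := h1 j; omega⟩
      rw [hn, Nat.add_sub_cancel, pow_succ]
      field_simp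
    have hq1 : 1 ≤ q := (Fact.out : q.Prime).pos
    by_cases hj : j = 1
    · rw [if_pos hj, if_pos hj, card_mu_td (a j) (h1 j) (h2 j), ← e3]
      push_cast; ring
    · rw [if_neg hj, if_neg hj, card_mu (a j) (h1 j) (h2 j), ← e3]
      push_cast [Nat.cast_sub hq1]; ring
  push_cast
  rw [prod_congr rfl fun j _ => e2 j, prod_mul_distrib, prod_mul_distrib, prod_pow_eq_pow_sum]
  have e4 : ∏ j : Fin (E + 2), (if j = 1 then (1 : ℝ) else ((q : ℝ) - 1)) = ((q : ℝ) - 1) ^ (E + 1) := by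
    rw [prod_ite]
    simp only [prod_const_one, one_mul, prod_const]
    congr 1
    have : univ.filter (fun j : Fin (E + 2) => ¬ j = 1) = univ.erase 1 := by
      ext j; simp
    rw [this, card_erase_of_mem (mem_univ _), card_univ, Fintype.card_fin]
    omega
  rw [e4]
  simp only [prod_const, card_univ, Fintype.card_fin]
  unfold gam
  rw [inv_pow]
  field_simp

/-- sums over normalised vectors -/
lemma sum_KS (Sh : Finset (Fin (E + 2) → ℕ)) (h1 : ∀ a ∈ Sh, ∀ j, 1 ≤ a j)
    (h2 : ∀ a ∈ Sh, ∀ j, a j ≤ m) (F : (Fin (E + 2) → ℕ) → ℝ) :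
    ∑ k ∈ KS q m Sh, F (shp k) = ∑ a ∈ Sh, F a * (gam q E * (q : ℝ) ^ (∑ j, a j)) := by
  classical
  unfold KS
  rw [← Finset.sum_fiberwise_of_maps_to (s := univ.filter
    (fun k : Fin (E + 2) → Fin m → ZMod q => shp k ∈ Sh ∧ td (k 1) = 1)) (t := Sh) (g := shp)
    (fun k hk => (mem_filter.1 hk).2.1)]
  refine sum_congr rfl fun a ha => ?_
  rw [← card_shape a (h1 a ha) (h2 a ha)]
  have h3 : (univ.filter (fun k : Fin (E + 2) → Fin m → ZMod q => shp k ∈ Sh ∧ td (k 1) = 1)).filter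
      (fun k => shp k = a) = univ.filter (fun k => shp k = a ∧ td (k 1) = 1) := by
    ext k
    simp only [mem_filter, mem_univ, true_and]
    constructor
    · rintro ⟨⟨_, h4⟩, h5⟩; exact ⟨h5, h4⟩
    · rintro ⟨h4, h5⟩; exact ⟨⟨h4 ▸ ha, h5⟩, h4⟩
  rw [h3, mul_comm, ← nsmul_eq_mul, ← sum_const]
  refine sum_congr rfl fun k hk => ?_
  rw [(mem_filter.1 hk).2.1]

lemma KS_ne (Sh : Finset (Fin (E + 2) → ℕ)) (h1 : ∀ a ∈ Sh, ∀ j, 1 ≤ a j)
    (k : Fin (E + 2) → Fin m → ZMod q) (hk : k ∈ KS q m Sh) (j : Fin (E + 2)) : k j ≠ 0 := by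
  intro h0
  have h3 := h1 _ (mem_filter.1 hk).2.1 j
  unfold shp at h3
  simp only [h0, mu_zero] at h3
  omega

lemma KS_ne_zero (Sh : Finset (Fin (E + 2) → ℕ)) (h1 : ∀ a ∈ Sh, ∀ j, 1 ≤ a j)
    (k : Fin (E + 2) → Fin m → ZMod q) (hk : k ∈ KS q m Sh) : k ≠ 0 := by
  intro h0
  exact KS_ne Sh h1 k hk 0 (congrFun h0 0)

/-- normalised vectors are pairwise independent -/
lemma KS_PI (Sh : Finset (Fin (E + 2) → ℕ)) (h1 : ∀ a ∈ Sh, ∀ j, 1 ≤ a j) : PI (KS q m Sh) := by
  intro k hk h hh hne a b hab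
  have hk1 : td (k 1) = 1 := (mem_filter.1 hk).2.2
  have hh1 : td (h 1) = 1 := (mem_filter.1 hh).2.2
  have key : a = 0 := by
    by_contra ha
    by_cases hb : b = 0
    · subst hb
      rw [zero_smul, add_zero] at hab
      exact KS_ne_zero Sh h1 k hk ((smul_eq_zero.1 hab).resolve_left ha)
    · have h2 : k = (-(b / a)) • h := by
        have h3 : a • k = (-b) • h := by
          rw [neg_smul]; exact eq_neg_of_add_eq_zero_left hab
        have h4 : k = a⁻¹ • (a • k) := by rw [smul_smul, inv_mul_cancel₀ ha, one_smul]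
        rw [h4, h3, smul_smul]
        congr 1
        field_simp
      have hl : -(b / a) ≠ 0 := neg_ne_zero.2 (div_ne_zero hb ha)
      have h5 : td (k 1) = -(b / a) * td (h 1) := by
        conv_lhs => rw [h2]
        exact td_smul _ hl (h 1)
      rw [hk1, hh1, mul_one] at h5
      rw [← h5, one_smul] at h2
      exact hne h2
  refine ⟨key, ?_⟩
  subst key
  rw [zero_smul, zero_add] at hab
  exact (smul_eq_zero.1 hab).resolve_right (KS_ne_zero Sh h1 h hh)

/-! ### The family of shapes -/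

/-- the free parameters -/
def Bx (E M : ℕ) : Finset (Fin (E + 1) → ℕ) := Fintype.piFinset (fun _ => Icc (M + 1) (2 * M))

lemma card_Bx (M : ℕ) : (Bx E M).card = M ^ (E + 1) := by
  unfold Bx
  rw [Fintype.card_piFinset]
  simp only [Nat.card_Icc, prod_const, card_univ, Fintype.card_fin]
  congr 1
  omega

/-- shapes with totals in `U` -/
def Sh (E M : ℕ) (U : Finset ℕ) : Finset (Fin (E + 2) → ℕ) :=
  (U ×ˢ Bx E M).image (fun p => Fin.cons (p.1 - ∑ i, p.2 i) p.2)

/-- admissible totals -/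
def Adm (E M m : ℕ) (U : Finset ℕ) : Prop :=
  ∀ u ∈ U, 2 * M * (E + 1) + 1 ≤ u ∧ u ≤ m + (M + 1) * (E + 1)

variable {M : ℕ} {U : Finset ℕ}

lemma sum_Bx_le (b : Fin (E + 1) → ℕ) (hb : b ∈ Bx E M) : ∑ i, b i ≤ 2 * M * (E + 1) := by
  have h1 : ∀ i, b i ≤ 2 * M := fun i => (mem_Icc.1 ((Fintype.mem_piFinset.1 hb) i)).2
  calc ∑ i, b i ≤ ∑ _i : Fin (E + 1), 2 * M := sum_le_sum fun i _ => h1 i
    _ = _ := by simp; ring

lemma le_sum_Bx (b : Fin (E + 1) → ℕ) (hb : b ∈ Bx E M) : (M + 1) * (E + 1) ≤ ∑ i, b i := by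
  have h1 : ∀ i, M + 1 ≤ b i := fun i => (mem_Icc.1 ((Fintype.mem_piFinset.1 hb) i)).1
  calc (M + 1) * (E + 1) = ∑ _i : Fin (E + 1), (M + 1) := by simp; ring
    _ ≤ _ := sum_le_sum fun i _ => h1 i

lemma sum_cons_total (u : ℕ) (b : Fin (E + 1) → ℕ) (h : ∑ i, b i ≤ u) :
    ∑ j, (Fin.cons (u - ∑ i, b i) b : Fin (E + 2) → ℕ) j = u := by
  rw [Fin.sum_univ_succ]
  simp only [Fin.cons_zero, Fin.cons_succ]
  omega

/-- sums over shapes -/
lemma sum_Sh (hU : Adm E M m U) (F : (Fin (E + 2) → ℕ) → ℝ) :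
    ∑ a ∈ Sh E M U, F a = ∑ u ∈ U, ∑ b ∈ Bx E M, F (Fin.cons (u - ∑ i, b i) b) := by
  unfold Sh
  rw [sum_image, sum_product]
  intro p hp p' hp' h
  simp only [coe_product, Set.mem_prod, mem_coe] at hp hp'
  have h1 : p.2 = p'.2 := by
    funext i
    have := congrFun h i.succ
    simpa using this
  have h2 := congrFun h 0
  simp only [Fin.cons_zero] at h2
  have h3 := hU _ hp.1
  have h4 := hU _ hp'.1
  have h5 := sum_Bx_le _ hp.2
  have h6 := sum_Bx_le _ hp'.2
  rw [← h1] at h2 h6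
  exact Prod.ext (by omega) h1

lemma Sh_one_le (hU : Adm E M m U) : ∀ a ∈ Sh E M U, ∀ j, 1 ≤ a j := by
  intro a ha j
  obtain ⟨p, hp, rfl⟩ := mem_image.1 ha
  rw [mem_product] at hp
  have h3 := hU _ hp.1
  have h5 := sum_Bx_le _ hp.2
  refine Fin.cases ?_ (fun i => ?_) j
  · simp only [Fin.cons_zero]
    omega
  · simp only [Fin.cons_succ]
    have := (mem_Icc.1 ((Fintype.mem_piFinset.1 hp.2) i)).1
    omega

lemma Sh_le (hU : Adm E M m U) (hM : 2 * M ≤ m) : ∀ a ∈ Sh E M U, ∀ j, a j ≤ m := by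
  intro a ha j
  obtain ⟨p, hp, rfl⟩ := mem_image.1 ha
  rw [mem_product] at hp
  have h3 := hU _ hp.1
  have h5 := le_sum_Bx _ hp.2
  refine Fin.cases ?_ (fun i => ?_) j
  · simp only [Fin.cons_zero]
    omega
  · simp only [Fin.cons_succ]
    have := (mem_Icc.1 ((Fintype.mem_piFinset.1 hp.2) i)).2
    omega

lemma Sh_total (hU : Adm E M m U) : ∀ a ∈ Sh E M U, ∑ j, a j ∈ U := by
  intro a ha
  obtain ⟨p, hp, rfl⟩ := mem_image.1 ha
  rw [mem_product] at hp
  have h3 := hU _ hp.1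
  have h5 := sum_Bx_le _ hp.2
  rw [sum_cons_total _ _ (by omega)]
  exact hp.1

/-- sums over normalised vectors depending on the total only -/
lemma sum_KS_total (hU : Adm E M m U) (hM : 2 * M ≤ m) (φ : ℕ → ℝ) :
    ∑ k ∈ KS q m (Sh E M U), φ (∑ j, mu (k j)) =
      gam q E * (M : ℝ) ^ (E + 1) * ∑ u ∈ U, φ u * (q : ℝ) ^ u := by
  have h1 := sum_KS (q := q) (m := m) (Sh E M U) (Sh_one_le hU) (Sh_le hU hM)
    (fun a => φ (∑ j, a j))
  have h0 : ∑ k ∈ KS q m (Sh E M U), φ (∑ j, mu (k j)) =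
      ∑ k ∈ KS q m (Sh E M U), (fun a : Fin (E + 2) → ℕ => φ (∑ j, a j)) (shp k) := rfl
  rw [h0, h1, sum_Sh hU, mul_sum]
  refine sum_congr rfl fun u hu => ?_
  have h3 : ∀ b ∈ Bx E M, φ (∑ j, (Fin.cons (u - ∑ i, b i) b : Fin (E + 2) → ℕ) j) *
      (gam q E * (q : ℝ) ^ (∑ j, (Fin.cons (u - ∑ i, b i) b : Fin (E + 2) → ℕ) j)) =
      φ u * (gam q E * (q : ℝ) ^ u) := by
    intro b hb
    have h4 := (hU u hu).1
    have h5 := sum_Bx_le _ hb
    rw [sum_cons_total _ _ (by omega)]
  rw [sum_congr rfl h3, sum_const, card_Bx, nsmul_eq_mul]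
  push_cast
  ring

lemma card_KS (hU : Adm E M m U) (hM : 2 * M ≤ m) :
    ((KS q m (Sh E M U)).card : ℝ) = gam q E * (M : ℝ) ^ (E + 1) * ∑ u ∈ U, (q : ℝ) ^ u := by
  have := sum_KS_total (q := q) hU hM (fun _ => 1)
  simpa using this

lemma card_Bx_fix (β : ℕ) : ((Bx E M).filter (fun b => b 0 = β)).card ≤ M ^ E := by
  classical
  have h1 : (Fintype.piFinset (fun _ : Fin E => Icc (M + 1) (2 * M))).card = M ^ E := by
    rw [Fintype.card_piFinset]
    simp only [Nat.card_Icc, prod_const, card_univ, Fintype.card_fin]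
    congr 1
    omega
  rw [← h1]
  apply card_le_card_of_injOn (fun b => Fin.tail b)
  · intro b hb
    have h2 := (mem_filter.1 hb).1
    rw [mem_coe, Fintype.mem_piFinset]
    intro i
    exact (Fintype.mem_piFinset.1 h2) i.succ
  · intro b hb b' hb' h
    have h2 := (mem_filter.1 hb).2
    have h3 := (mem_filter.1 hb').2
    rw [← Fin.cons_self_tail b, ← Fin.cons_self_tail b']
    simp only at h
    rw [h, h2, h3]

/-- normalised vectors with prescribed second top position -/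
lemma card_KS_fix (hU : Adm E M m U) (hM : 2 * M ≤ m) (β : ℕ) :
    (((KS q m (Sh E M U)).filter (fun k => mu (k 1) = β)).card : ℝ) ≤
      gam q E * (M : ℝ) ^ E * ∑ u ∈ U, (q : ℝ) ^ u := by
  classical
  have h1 := sum_KS (q := q) (m := m) (Sh E M U) (Sh_one_le hU) (Sh_le hU hM)
    (fun a => if a 1 = β then 1 else 0)
  have h2 : (((KS q m (Sh E M U)).filter (fun k => mu (k 1) = β)).card : ℝ) =
      ∑ k ∈ KS q m (Sh E M U), (fun a : Fin (E + 2) → ℕ => if a 1 = β then (1 : ℝ) else 0) (shp k) := by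
    rw [card_filter]
    push_cast
    rfl
  rw [h2, h1, sum_Sh hU, mul_sum]
  apply sum_le_sum
  intro u hu
  have h3 : ∀ b ∈ Bx E M, (if (Fin.cons (u - ∑ i, b i) b : Fin (E + 2) → ℕ) 1 = β then (1 : ℝ) else 0) *
      (gam q E * (q : ℝ) ^ (∑ j, (Fin.cons (u - ∑ i, b i) b : Fin (E + 2) → ℕ) j)) =
      if b 0 = β then (gam q E * (q : ℝ) ^ u) else 0 := by
    intro b hb
    have h4 := (hU u hu).1
    have h5 := sum_Bx_le _ hb
    rw [sum_cons_total _ _ (by omega)]
    have h6 : (Fin.cons (u - ∑ i, b i) b : Fin (E + 2) → ℕ) 1 = b 0 := rfl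
    rw [h6]
    split_ifs <;> simp
  rw [sum_congr rfl h3, ← sum_filter, sum_const, nsmul_eq_mul]
  have h7 : (((Bx E M).filter (fun b => b 0 = β)).card : ℝ) ≤ (M : ℝ) ^ E := by
    exact_mod_cast card_Bx_fix β
  have h8 := gam_pos (q := q) (E := E)
  have hq : (0 : ℝ) < q := by exact_mod_cast (Fact.out : q.Prime).pos
  calc _ ≤ (M : ℝ) ^ E * (gam q E * (q : ℝ) ^ u) := by gcongr
    _ = _ := by ring

/-- colliding pairs -/
noncomputable def Col (q : ℕ) [Fact q.Prime] (m E M : ℕ) (U : Finset ℕ) :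
    Finset ((Fin (E + 2) → Fin m → ZMod q) × (Fin (E + 2) → Fin m → ZMod q)) := by
  classical
  exact (KS q m (Sh E M U) ×ˢ KS q m (Sh E M U)).filter
    (fun p => p.1 ≠ p.2 ∧ mu (p.1 1) = mu (p.2 1))

lemma card_Col (hU : Adm E M m U) (hM : 2 * M ≤ m) :
    ((Col q m E M U).card : ℝ) ≤ (M : ℝ) * (gam q E * (M : ℝ) ^ E * ∑ u ∈ U, (q : ℝ) ^ u) ^ 2 := by
  classical
  have h1 : Col q m E M U ⊆ (Icc (M + 1) (2 * M)).biUnion (fun β =>
      ((KS q m (Sh E M U)).filter (fun k => mu (k 1) = β)) ×ˢ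
      ((KS q m (Sh E M U)).filter (fun k => mu (k 1) = β))) := by
    intro p hp
    unfold Col at hp
    rw [mem_filter, mem_product] at hp
    rw [mem_biUnion]
    refine ⟨mu (p.1 1), ?_, ?_⟩
    · have h2 := (mem_filter.1 hp.1.1).2.1
      obtain ⟨z, hz, hz2⟩ := mem_image.1 h2
      rw [mem_product] at hz
      have h3 := congrFun hz2 1
      have h4 : shp p.1 1 = z.2 0 := by rw [← h3]; rfl
      have h5 : mu (p.1 1) = z.2 0 := h4
      rw [h5]
      exact (Fintype.mem_piFinset.1 hz.2) 0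
    · rw [mem_product, mem_filter, mem_filter]
      exact ⟨⟨hp.1.1, rfl⟩, hp.1.2, hp.2.2.symm⟩
  have h2 : ((Col q m E M U).card : ℝ) ≤ ∑ β ∈ Icc (M + 1) (2 * M),
      (((KS q m (Sh E M U)).filter (fun k => mu (k 1) = β)).card : ℝ) ^ 2 := by
    have h3 := (card_le_card h1).trans card_biUnion_le
    have h4 : ((Col q m E M U).card : ℝ) ≤ ((∑ β ∈ Icc (M + 1) (2 * M),
      (((KS q m (Sh E M U)).filter (fun k => mu (k 1) = β)) ×ˢ
      ((KS q m (Sh E M U)).filter (fun k => mu (k 1) = β))).card : ℕ) : ℝ) := by exact_mod_cast h3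
    refine h4.trans (le_of_eq ?_)
    push_cast
    refine sum_congr rfl fun β _ => ?_
    rw [card_product]
    push_cast
    ring
  refine h2.trans ?_
  calc _ ≤ ∑ _β ∈ Icc (M + 1) (2 * M), (gam q E * (M : ℝ) ^ E * ∑ u ∈ U, (q : ℝ) ^ u) ^ 2 := by
        apply sum_le_sum
        intro β _
        exact pow_le_pow_left₀ (by positivity) (card_KS_fix hU hM β) 2
    _ = _ := by
        rw [sum_const, Nat.card_Icc, nsmul_eq_mul]
        congr 1
        have : 2 * M + 1 - (M + 1) = M := by omega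
        rw [this]

end Pool.Agent.DNet
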