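import Mathlib
import Pool.Agent.DNet.Shapes

/-!
The two probabilistic estimates.
-/

namespace Pool.Agent.DNet

open Finset

set_option linter.unusedSectionVars false

variable {q : ℕ} [Fact q.Prime] {m E M : ℕ} {U : Finset ℕ}

/-- exceptional set for Chebyshev -/
noncomputable def B1 {d : ℕ} (K : Finset (Fin d → Fin m → ZMod q))
    (w : (Fin d → Fin m → ZMod q) → ℝ) (t : ℝ) : Finset (Om q d m) :=
  univ.filter (fun C : Om q d m => SS K w C < t)

/-- exceptional set for Markov -/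
noncomputable def B2 {d : ℕ} (K : Finset (Fin d → Fin m → ZMod q)) (n : ℕ) : Finset (Om q d m) :=
  univ.filter (fun C : Om q d m => n < (K.filter (fun k => tr C k = 0)).card)

/-- exceptional set of collisions -/
noncomputable def B3 {d : ℕ} (P : Finset ((Fin d → Fin m → ZMod q) × (Fin d → Fin m → ZMod q))) :
    Finset (Om q d m) :=
  univ.filter (fun C : Om q d m => ∃ p ∈ P, tr C p.1 = 0 ∧ tr C p.2 = 0)

/-- exceptional set of tuples with a dual vector in `K` -/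
noncomputable def B4 {d : ℕ} (K : Finset (Fin d → Fin m → ZMod q)) : Finset (Om q d m) :=
  univ.filter (fun C : Om q d m => ∃ k ∈ K, tr C k = 0)

/-- exceptional set for the first estimate -/
noncomputable def BA (q : ℕ) [Fact q.Prime] (d m : ℕ) (t : ℝ) : Finset (Om q d m) :=
  univ.filter (fun C : Om q d m => ∀ X, Dl C X < t)

/-- exceptional set for the second estimate -/
noncomputable def BB (q : ℕ) [Fact q.Prime] (d m : ℕ) (t : ℝ) : Finset (Om q d m) :=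
  univ.filter (fun C : Om q d m => ∀ X, |Dl C X| < t)

/-- first estimate, in terms of abstract parameters -/
lemma partA (hU : Adm E M m U) (hM : 2 * M ≤ m) (hM0 : 0 < M) (hUne : U.Nonempty) (n0 : ℕ)
    (hn0 : 0 < n0) :
    ((BA q (E + 2) m ((1 / 2 : ℝ) ^ (E + 3) *
      ((((q : ℝ)⁻¹) ^ m * (gam q E * (M : ℝ) ^ (E + 1) * U.card)) / 2))).card : ℝ) ≤
      NN q (E + 2) m * (4 * (((q : ℝ)⁻¹) ^ m * (gam q E * (M : ℝ) ^ (E + 1) *
          ∑ u ∈ U, ((q : ℝ)⁻¹) ^ u)) / (((q : ℝ)⁻¹) ^ m * (gam q E * (M : ℝ) ^ (E + 1) * U.card)) ^ 2 +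
        ((q : ℝ)⁻¹) ^ m * (gam q E * (M : ℝ) ^ (E + 1) * ∑ u ∈ U, (q : ℝ) ^ u) / n0 +
        (((q : ℝ)⁻¹) ^ m) ^ 2 * ((M : ℝ) * (gam q E * (M : ℝ) ^ E * ∑ u ∈ U, (q : ℝ) ^ u) ^ 2) +
        ((q : ℝ)⁻¹) ^ m * ((m : ℝ) * q + 1) ^ ((n0 + 1) * (E + 2))) := by
  classical
  have hq : (0 : ℝ) < q := by exact_mod_cast (Fact.out : q.Prime).pos
  have hγ := gam_pos (q := q) (E := E)
  have hN := NN_pos (q := q) (d := E + 2) (m := m)
  set K := KS q m (Sh E M U) with hKdef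
  set w : (Fin (E + 2) → Fin m → ZMod q) → ℝ := fun k => ((q : ℝ)⁻¹) ^ (∑ j, mu (k j)) with hw
  have hKne : ∀ k ∈ K, k ≠ 0 := KS_ne_zero _ (Sh_one_le hU)
  have hPI : PI K := KS_PI _ (Sh_one_le hU)
  have hw0 : ∀ k, 0 ≤ w k := fun k => by rw [hw]; positivity
  have hcard := card_KS (q := q) hU hM
  have hsum : ∑ k ∈ K, w k = gam q E * (M : ℝ) ^ (E + 1) * U.card := by
    have := sum_KS_total (q := q) hU hM (fun u => ((q : ℝ)⁻¹) ^ u)
    rw [hw, hKdef]
    rw [this]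
    congr 1
    have : ∀ u ∈ U, ((q : ℝ)⁻¹) ^ u * (q : ℝ) ^ u = 1 := by
      intro u _
      rw [← mul_pow, inv_mul_cancel₀ hq.ne', one_pow]
    rw [sum_congr rfl this]
    simp
  have hsum2 : ∑ k ∈ K, w k ^ 2 = gam q E * (M : ℝ) ^ (E + 1) * ∑ u ∈ U, ((q : ℝ)⁻¹) ^ u := by
    have := sum_KS_total (q := q) hU hM (fun u => (((q : ℝ)⁻¹) ^ u) ^ 2)
    rw [hw, hKdef]
    rw [this]
    congr 1
    refine sum_congr rfl fun u _ => ?_
    have : ((q : ℝ)⁻¹) ^ u * (q : ℝ) ^ u = 1 := by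
      rw [← mul_pow, inv_mul_cancel₀ hq.ne', one_pow]
    calc (((q : ℝ)⁻¹) ^ u) ^ 2 * (q : ℝ) ^ u = ((q : ℝ)⁻¹) ^ u * (((q : ℝ)⁻¹) ^ u * (q : ℝ) ^ u) := by ring
      _ = _ := by rw [this, mul_one]
  set μ : ℝ := ((q : ℝ)⁻¹) ^ m * (gam q E * (M : ℝ) ^ (E + 1) * U.card) with hμ
  have hμ0 : 0 < μ := by
    have : (0 : ℝ) < U.card := by exact_mod_cast card_pos.2 hUne
    positivity
  have hB1 := cheb (q := q) (d := E + 2) (m := m) K w hKne hPI hw0 μ (by rw [hsum]) hμ0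
  have hB2 := markov (q := q) (d := E + 2) (m := m) K hKne n0 hn0
  have hB3 := union_two (q := q) (d := E + 2) (m := m) (Col q m E M U) (by
    intro p hp
    unfold Col at hp
    rw [mem_filter, mem_product] at hp
    exact hPI _ hp.1.1 _ hp.1.2 hp.2.1)
  have hB4 := card_not_sparse (q := q) (d := E + 2) (m := m) (n0 + 1)
  rw [hsum2] at hB1
  rw [hcard] at hB2
  change ((B1 K w (μ / 2)).card : ℝ) ≤ _ at hB1
  change ((B2 K n0).card : ℝ) ≤ _ at hB2
  change ((B3 (Col q m E M U)).card : ℝ) ≤ _ at hB3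
  change ((B4 (Sp q (E + 2) m (n0 + 1))).card : ℝ) ≤ _ at hB4
  have hsub : BA q (E + 2) m ((1 / 2 : ℝ) ^ (E + 3) * (μ / 2)) ⊆
      (B1 K w (μ / 2) ∪ B2 K n0) ∪ (B3 (Col q m E M U) ∪ B4 (Sp q (E + 2) m (n0 + 1))) := by
    intro C hC
    have hC' := (mem_filter.1 hC).2
    by_contra hcon
    simp only [B1, B2, B3, B4, mem_union, mem_filter, mem_univ, true_and, not_or] at hcon
    obtain ⟨⟨h1, h2⟩, h3, h4⟩ := hcon
    push Not at h1 h2 h3 h4
    let ι := {k // k ∈ K.filter (fun k => tr C k = 0)}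
    have hcardι : Fintype.card ι = (K.filter (fun k => tr C k = 0)).card := Fintype.card_coe _
    have H : AH C (fun i : ι => i.1) (1 : Fin (E + 2)) := by
      refine ⟨?_, ?_, ?_, ?_⟩
      · intro i
        exact (mem_filter.1 i.2).2
      · intro i j
        exact KS_ne _ (Sh_one_le hU) _ (mem_filter.1 i.2).1 j
      · intro i i' h
        by_contra hne
        have hne' : i.1 ≠ i'.1 := fun h => hne (Subtype.ext h)
        have := h3 (i.1, i'.1) (by
          unfold Col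
          rw [mem_filter, mem_product]
          exact ⟨⟨(mem_filter.1 i.2).1, (mem_filter.1 i'.2).1⟩, hne', h⟩) (mem_filter.1 i.2).2
        exact this (mem_filter.1 i'.2).2
      · intro k hk hnz
        by_contra hk0
        refine h4 k ?_ hk
        rw [mem_Sp]
        refine ⟨hk0, fun j => (hnz j).trans ?_⟩
        rw [hcardι]
        omega
    obtain ⟨X, hX⟩ := align H
    have h5 : ∑ i : ι, ((q : ℝ)⁻¹) ^ (∑ j, mu (i.1 j)) = SS K w C := by
      unfold SS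
      rw [← sum_filter]
      exact Finset.sum_coe_sort (K.filter (fun k => tr C k = 0)) w
    rw [h5] at hX
    have h6 := hC' X
    have h7 : (1 / 2 : ℝ) ^ (E + 3) * (μ / 2) ≤ (1 / 2 : ℝ) ^ (E + 2 + 1) * SS K w C := by
      apply mul_le_mul_of_nonneg_left h1 (by positivity)
    linarith
  have h8 := (card_le_card hsub).trans ((card_union_le _ _).trans
    (Nat.add_le_add (card_union_le _ _) (card_union_le _ _)))
  have h9 : ((BA q (E + 2) m ((1 / 2 : ℝ) ^ (E + 3) * (μ / 2))).card : ℝ) ≤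
      (((B1 K w (μ / 2)).card : ℝ) + ((B2 K n0).card : ℝ)) +
      (((B3 (Col q m E M U)).card : ℝ) + ((B4 (Sp q (E + 2) m (n0 + 1))).card : ℝ)) := by
    exact_mod_cast h8
  have hcol := card_Col (q := q) hU hM
  have hB3' : ((B3 (Col q m E M U)).card : ℝ) ≤
      NN q (E + 2) m * ((((q : ℝ)⁻¹) ^ m) ^ 2 * ((M : ℝ) * (gam q E * (M : ℝ) ^ E * ∑ u ∈ U, (q : ℝ) ^ u) ^ 2)) := by
    refine hB3.trans ?_
    gcongr
  refine h9.trans ?_
  rw [mul_add, mul_add, mul_add]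
  clear hsub h8 h9
  have h10 := add_le_add (add_le_add hB1 hB2) (add_le_add hB3' hB4)
  linarith

/-- second estimate -/
lemma partB (u : ℕ) (hU : Adm E M m {u}) (hM : 2 * M ≤ m) (hM0 : 0 < M) :
    ((BB q (E + 2) m ((1 / 2 : ℝ) ^ (E + 2) * ((q : ℝ)⁻¹) ^ u * Real.sqrt
        ((((q : ℝ)⁻¹) ^ m * (gam q E * (M : ℝ) ^ (E + 1) * (q : ℝ) ^ u)) / 2))).card : ℝ) ≤
      NN q (E + 2) m * (4 / (((q : ℝ)⁻¹) ^ m * (gam q E * (M : ℝ) ^ (E + 1) * (q : ℝ) ^ u)) +
        ((q : ℝ)⁻¹) ^ m * ((m : ℝ) * q + 1) ^ (2 * (E + 2))) := by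
  classical
  have hq : (0 : ℝ) < q := by exact_mod_cast (Fact.out : q.Prime).pos
  have hγ := gam_pos (q := q) (E := E)
  have hN := NN_pos (q := q) (d := E + 2) (m := m)
  set K := KS q m (Sh E M {u}) with hKdef
  have hKne : ∀ k ∈ K, k ≠ 0 := KS_ne_zero _ (Sh_one_le hU)
  have hPI : PI K := KS_PI _ (Sh_one_le hU)
  have hcard := card_KS (q := q) hU hM
  rw [sum_singleton] at hcard
  set μ : ℝ := ((q : ℝ)⁻¹) ^ m * (gam q E * (M : ℝ) ^ (E + 1) * (q : ℝ) ^ u) with hμ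
  have hμ0 : 0 < μ := by positivity
  have hB1 := cheb (q := q) (d := E + 2) (m := m) K (fun _ => 1) hKne hPI (fun _ => by norm_num) μ
    (by rw [hμ, ← hcard, ← hKdef]; simp) hμ0
  have hB4 := card_not_sparse (q := q) (d := E + 2) (m := m) 2
  simp only [one_pow, sum_const, nsmul_eq_mul, mul_one] at hB1
  rw [hcard, ← hμ] at hB1
  have e1 : 4 * μ / μ ^ 2 = 4 / μ := by field_simp
  rw [e1] at hB1
  change ((B1 K (fun _ => 1) (μ / 2)).card : ℝ) ≤ _ at hB1
  change ((B4 (Sp q (E + 2) m 2)).card : ℝ) ≤ _ at hB4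
  have hsub : BB q (E + 2) m ((1 / 2 : ℝ) ^ (E + 2) * ((q : ℝ)⁻¹) ^ u * Real.sqrt (μ / 2)) ⊆
      B1 K (fun _ => 1) (μ / 2) ∪ B4 (Sp q (E + 2) m 2) := by
    intro C hC
    have hC' := (mem_filter.1 hC).2
    by_contra hcon
    simp only [B1, B4, mem_union, mem_filter, mem_univ, true_and, not_or] at hcon
    obtain ⟨h1, h4⟩ := hcon
    push Not at h1 h4
    have hsp : ∀ k, tr C k = 0 → (∀ j, nz (k j) ≤ 2) → k = 0 := by
      intro k hk hnz
      by_contra hk0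
      exact h4 k ((mem_Sp 2 k).2 ⟨hk0, hnz⟩) hk
    obtain ⟨X, hX⟩ := ltwo C hsp (by omega) (K.filter (fun k => tr C k = 0)) u (by
      intro k hk
      have hk' := mem_filter.1 hk
      refine ⟨hk'.2, KS_ne _ (Sh_one_le hU) _ hk'.1, ?_⟩
      have h5 := Sh_total hU _ (mem_filter.1 hk'.1).2.1
      exact mem_singleton.1 h5)
    have h6 : SS K (fun _ => 1) C = ((K.filter (fun k => tr C k = 0)).card : ℝ) := by
      unfold SS
      rw [card_filter]
      push_cast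
      rfl
    rw [h6] at h1
    have h7 : Real.sqrt (μ / 2) ≤ Real.sqrt ((K.filter (fun k => tr C k = 0)).card : ℝ) :=
      Real.sqrt_le_sqrt h1
    have h8 : (1 / 2 : ℝ) ^ (E + 2) * ((q : ℝ)⁻¹) ^ u * Real.sqrt (μ / 2) ≤
        (1 / 2 : ℝ) ^ (E + 2) * ((q : ℝ)⁻¹) ^ u *
        Real.sqrt ((K.filter (fun k => tr C k = 0)).card : ℝ) :=
      mul_le_mul_of_nonneg_left h7 (by positivity)
    have h9 := hC' X
    linarith
  have h8 := (card_le_card hsub).trans (card_union_le _ _)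
  have h9 : ((BB q (E + 2) m ((1 / 2 : ℝ) ^ (E + 2) * ((q : ℝ)⁻¹) ^ u * Real.sqrt (μ / 2))).card : ℝ) ≤
      ((B1 K (fun _ => 1) (μ / 2)).card : ℝ) + ((B4 (Sp q (E + 2) m 2)).card : ℝ) := by
    exact_mod_cast h8
  refine h9.trans ?_
  rw [mul_add]
  linarith

end Pool.Agent.DNet
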