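import Mathlib
import Pool.Agent.DNet.PartAB

/-!
Choice of the parameters and the final probabilistic statement.
-/

namespace Pool.Agent.DNet

open Finset

set_option linter.unusedSectionVars false

variable {q : ℕ} [Fact q.Prime] {m E : ℕ}

lemma BA_mono {d : ℕ} {s t : ℝ} (h : s ≤ t) : BA q d m s ⊆ BA q d m t := by
  intro C hC
  unfold BA at hC ⊢
  rw [mem_filter] at hC ⊢
  exact ⟨hC.1, fun X => lt_of_lt_of_le (hC.2 X) h⟩

lemma BB_mono {d : ℕ} {s t : ℝ} (h : s ≤ t) : BB q d m s ⊆ BB q d m t := by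
  intro C hC
  unfold BB at hC ⊢
  rw [mem_filter] at hC ⊢
  exact ⟨hC.1, fun X => lt_of_lt_of_le (hC.2 X) h⟩

lemma BB_sub_BA {d : ℕ} (t : ℝ) : BB q d m t ⊆ BA q d m t := by
  intro C hC
  unfold BA
  unfold BB at hC
  rw [mem_filter] at hC ⊢
  exact ⟨hC.1, fun X => lt_of_le_of_lt (le_abs_self _) (hC.2 X)⟩

lemma BB_empty {d : ℕ} (hd : 2 ≤ d) (hm : 1 ≤ m) {t : ℝ} (h : t ≤ (1 / 2 : ℝ) * ((q : ℝ)⁻¹) ^ m) :
    BB q d m t = ∅ := by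
  rw [eq_empty_iff_forall_notMem]
  intro C hC
  have hC' := (mem_filter.1 hC).2
  obtain ⟨X, hX⟩ := trivial_bound C hd hm
  have h1 := hC' X
  have h2 := le_abs_self (Dl C X)
  rw [inv_pow] at h
  linarith

lemma geo_up (Q : ℝ) (hQ : 2 ≤ Q) (a t : ℕ) : ∑ u ∈ Icc a (a + t), Q ^ u ≤ 2 * Q ^ (a + t) := by
  induction t with
  | zero =>
    have : 0 < Q ^ a := by positivity
    simp; linarith
  | succ t ih =>
    have h1 : Icc a (a + (t + 1)) = insert (a + (t + 1)) (Icc a (a + t)) := by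
      ext x; simp only [mem_Icc, mem_insert]; omega
    rw [h1, sum_insert (by simp)]
    have h2 : Q ^ (a + (t + 1)) = Q * Q ^ (a + t) := by ring
    have h3 : 0 < Q ^ (a + t) := by positivity
    nlinarith

lemma geo_down (Q : ℝ) (hQ : 2 ≤ Q) (a t : ℕ) :
    ∑ u ∈ Icc a (a + t), (Q⁻¹) ^ u ≤ 2 * (Q⁻¹) ^ a - (Q⁻¹) ^ (a + t) := by
  have h0 : Q⁻¹ ≤ 1 / 2 := by rw [one_div]; exact inv_anti₀ (by norm_num) hQ
  have h00 : 0 < Q⁻¹ := by positivity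
  induction t with
  | zero => simp; linarith [pow_pos h00 a]
  | succ t ih =>
    have h1 : Icc a (a + (t + 1)) = insert (a + (t + 1)) (Icc a (a + t)) := by
      ext x; simp only [mem_Icc, mem_insert]; omega
    rw [h1, sum_insert (by simp)]
    have h2 : (Q⁻¹) ^ (a + (t + 1)) = Q⁻¹ * (Q⁻¹) ^ (a + t) := by ring
    have h3 : 0 < (Q⁻¹) ^ (a + t) := by positivity
    rw [h2]
    nlinarith

lemma sq_le_two_pow (t : ℕ) : ((t : ℝ) + 1) ^ 2 ≤ 4 * 2 ^ t := by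
  have h : ∀ t : ℕ, (t + 1) ^ 2 ≤ 4 * 2 ^ t := by
    intro t
    induction t with
    | zero => norm_num
    | succ t ih =>
      rcases Nat.lt_or_ge t 2 with h | h
      · interval_cases t <;> norm_num
      · have : (t + 1 + 1) ^ 2 ≤ 2 * (t + 1) ^ 2 := by nlinarith
        calc (t + 1 + 1) ^ 2 ≤ 2 * (t + 1) ^ 2 := this
          _ ≤ 2 * (4 * 2 ^ t) := by omega
          _ = 4 * 2 ^ (t + 1) := by ring
  exact_mod_cast h t

lemma lin_le_four_pow (A t : ℕ) (h : A ≤ t) : A * (t + 1) ≤ 4 ^ t := by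
  have h1 : ∀ t : ℕ, t * (t + 1) ≤ 4 ^ t := by
    intro t
    induction t with
    | zero => norm_num
    | succ t ih =>
      rcases Nat.eq_zero_or_pos t with h | h
      · subst h; norm_num
      · calc (t + 1) * (t + 1 + 1) ≤ 4 * (t * (t + 1)) := by nlinarith
          _ ≤ 4 * 4 ^ t := by omega
          _ = 4 ^ (t + 1) := by ring
  exact (Nat.mul_le_mul_right _ h).trans (h1 t)

/-- standing assumptions on the parameters -/
structure Par (q E A m t M s1 : ℕ) : Prop where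
  ml : q ^ (4 * t) ≤ m
  mu' : m < q ^ (4 * t + 4)
  At : A * (t + 1) ≤ 4 ^ t
  A1 : 100 * (E + 2) ≤ A
  Mdef : M = m / (4 * (E + 1))
  s1l : q ^ s1 ≤ m ^ (E + 1)
  s1u : m ^ (E + 1) < q ^ (s1 + 1)

section
variable {A t M s1 : ℕ}

lemma Par.four (P : Par q E A m t M s1) : 4 ^ t ≤ m := by
  have hq2 : 2 ≤ q := (Fact.out : q.Prime).two_le
  calc 4 ^ t = 2 ^ (2 * t) := by rw [pow_mul]; norm_num
    _ ≤ q ^ (2 * t) := Nat.pow_le_pow_left hq2 _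
    _ ≤ q ^ (4 * t) := Nat.pow_le_pow_right (by omega) (by omega)
    _ ≤ m := P.ml

lemma Par.Am (P : Par q E A m t M s1) : A * (t + 1) ≤ m := P.At.trans P.four

lemma Par.big (P : Par q E A m t M s1) : 100 * (E + 2) * (t + 1) ≤ m :=
  (Nat.mul_le_mul_right _ P.A1).trans P.Am

lemma Par.Mle (P : Par q E A m t M s1) : 4 * (E + 1) * M ≤ m := by
  rw [P.Mdef]
  exact Nat.mul_div_le _ _

lemma Par.Mpos (P : Par q E A m t M s1) : 0 < M := by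
  rw [P.Mdef]
  apply Nat.div_pos _ (by omega)
  have := P.big
  nlinarith

lemma Par.leM (P : Par q E A m t M s1) : m ≤ 8 * (E + 1) * M := by
  have h1 : m < 4 * (E + 1) * (M + 1) := by
    rw [P.Mdef]
    exact Nat.lt_mul_div_succ m (by omega)
  have := P.Mpos
  nlinarith

lemma Par.s1le (P : Par q E A m t M s1) : s1 ≤ (4 * t + 4) * (E + 1) := by
  have hq2 : 2 ≤ q := (Fact.out : q.Prime).two_le
  have h1 : q ^ s1 < q ^ ((4 * t + 4) * (E + 1)) := by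
    calc q ^ s1 ≤ m ^ (E + 1) := P.s1l
      _ < (q ^ (4 * t + 4)) ^ (E + 1) := Nat.pow_lt_pow_left P.mu' (by omega)
      _ = _ := by rw [← pow_mul]
  exact ((Nat.pow_lt_pow_iff_right (by omega)).1 h1).le

lemma Par.s1le2 (P : Par q E A m t M s1) : 2 * s1 + 2 ≤ m := by
  have h1 := P.s1le
  have h2 := P.big
  nlinarith

lemma Par.tle (P : Par q E A m t M s1) : t ≤ s1 := by
  have hq2 : 2 ≤ q := (Fact.out : q.Prime).two_le
  have hm : 1 ≤ m := by have := P.big; nlinarith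
  have h1 : q ^ (4 * t) < q ^ (s1 + 1) := by
    calc q ^ (4 * t) ≤ m := P.ml
      _ = m ^ 1 := (pow_one m).symm
      _ ≤ m ^ (E + 1) := Nat.pow_le_pow_right hm (by omega)
      _ < _ := P.s1u
  have := (Nat.pow_lt_pow_iff_right (by omega : 1 < q)).1 h1
  omega

lemma Par.mq (P : Par q E A m t M s1) : m * q + 1 ≤ q ^ (4 * t + 6) := by
  have hq2 : 2 ≤ q := (Fact.out : q.Prime).two_le
  have h1 : m * q < q ^ (4 * t + 4) * q := Nat.mul_lt_mul_of_pos_right P.mu' (by omega)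
  have h2 : q ^ (4 * t + 4) * q = q ^ (4 * t + 5) := by ring
  calc m * q + 1 ≤ q ^ (4 * t + 5) := by omega
    _ ≤ _ := Nat.pow_le_pow_right (by omega) (by omega)

lemma Par.sparseA (P : Par q E A m t M s1) :
    (m * q + 1) ^ ((q ^ (2 * t) + 1) * (E + 2)) * q ^ t ≤ q ^ m := by
  have hq2 : 2 ≤ q := (Fact.out : q.Prime).two_le
  calc (m * q + 1) ^ ((q ^ (2 * t) + 1) * (E + 2)) * q ^ t
      ≤ (q ^ (4 * t + 6)) ^ ((q ^ (2 * t) + 1) * (E + 2)) * q ^ t :=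
        Nat.mul_le_mul_right _ (Nat.pow_le_pow_left P.mq _)
    _ = q ^ ((4 * t + 6) * ((q ^ (2 * t) + 1) * (E + 2)) + t) := by rw [← pow_mul, ← pow_add]
    _ ≤ q ^ m := by
        apply Nat.pow_le_pow_right (by omega)
        have h1 : 4 ^ t ≤ q ^ (2 * t) := by
          calc 4 ^ t = 2 ^ (2 * t) := by rw [pow_mul]; norm_num
            _ ≤ q ^ (2 * t) := Nat.pow_le_pow_left hq2 _
        have h2 : q ^ (4 * t) = q ^ (2 * t) * q ^ (2 * t) := by rw [← pow_add]; congr 1; ring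
        have h3 := P.At
        have h4 := P.A1
        have h5 : 100 * (E + 2) * (t + 1) ≤ q ^ (2 * t) :=
          ((Nat.mul_le_mul_right _ h4).trans h3).trans h1
        have h6 := P.ml
        set x := q ^ (2 * t) with hx
        have hx1 : 1 ≤ x := Nat.one_le_pow _ _ (by omega)
        have h7 : (4 * t + 6) * ((x + 1) * (E + 2)) + t ≤ 100 * (E + 2) * (t + 1) * x := by
          have e1 : (x + 1) ≤ 2 * x := by omega
          calc (4 * t + 6) * ((x + 1) * (E + 2)) + t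
              ≤ (4 * t + 6) * ((2 * x) * (E + 2)) + t * x := by
                apply Nat.add_le_add
                · apply Nat.mul_le_mul_left
                  exact Nat.mul_le_mul_right _ e1
                · exact Nat.le_mul_of_pos_right _ hx1
            _ = ((8 * t + 12) * (E + 2) + t) * x := by ring
            _ ≤ _ := by
                apply Nat.mul_le_mul_right
                nlinarith
        calc _ ≤ 100 * (E + 2) * (t + 1) * x := h7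
          _ ≤ x * x := Nat.mul_le_mul_right _ h5
          _ ≤ m := by rw [← h2]; exact h6

lemma Par.sparseB (P : Par q E A m t M s1) :
    2 * (m * q + 1) ^ (2 * (E + 2)) * q ^ M ≤ q ^ m := by
  have hq2 : 2 ≤ q := (Fact.out : q.Prime).two_le
  calc 2 * (m * q + 1) ^ (2 * (E + 2)) * q ^ M
      ≤ q * (q ^ (4 * t + 6)) ^ (2 * (E + 2)) * q ^ M := by
        apply Nat.mul_le_mul_right
        exact Nat.mul_le_mul hq2 (Nat.pow_le_pow_left P.mq _)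
    _ = q ^ (1 + (4 * t + 6) * (2 * (E + 2)) + M) := by
        rw [← pow_mul, pow_add, pow_add, pow_one]
    _ ≤ q ^ m := by
        apply Nat.pow_le_pow_right (by omega)
        have h1 := P.big
        have h2 := P.Mle
        nlinarith

/-- the first estimate with explicit parameters -/
lemma estA (P : Par q E A m t M s1) :
    ((BA q (E + 2) m ((1 / 2 : ℝ) ^ (E + 4) * gam q E / (8 * ((E : ℝ) + 1)) ^ (E + 1) *
      (((q : ℝ)⁻¹) ^ m * (m : ℝ) ^ (E + 1) * ((t : ℝ) + 1)))).card : ℝ) ≤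
      NN q (E + 2) m * ((8 * (8 * ((E : ℝ) + 1)) ^ (E + 1) / gam q E + 8 * q +
        128 * ((E : ℝ) + 1) * (q : ℝ) ^ 2 + 4) / ((t : ℝ) + 1) ^ 2) := by
  have hq2 : (2 : ℝ) ≤ q := by exact_mod_cast (Fact.out : q.Prime).two_le
  have hq0 : (0 : ℝ) < q := by linarith
  have hγ := gam_pos (q := q) (E := E)
  have hγ1 := gam_le_one (q := q) (E := E)
  have hN := NN_pos (q := q) (d := E + 2) (m := m)
  have hMpos : (0 : ℝ) < M := by exact_mod_cast P.Mpos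
  have hmpos : 0 < m := by have := P.big; nlinarith
  have hmpos' : (0 : ℝ) < m := by exact_mod_cast hmpos
  have hs1 := P.s1le2
  have ht := P.tle
  set U : Finset ℕ := Icc (m - s1) (m - s1 + t) with hUdef
  have hcardU : U.card = t + 1 := by rw [hUdef, Nat.card_Icc]; omega
  have hU : Adm E M m U := by
    intro u hu
    rw [hUdef, mem_Icc] at hu
    have h1 := P.Mle
    have h2 : 2 * (2 * M * (E + 1) + 1) ≤ 2 * (m - s1) := by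
      have : 2 * (2 * M * (E + 1)) = 4 * (E + 1) * M := by ring
      omega
    constructor
    · omega
    · have : 0 ≤ (M + 1) * (E + 1) := Nat.zero_le _
      omega
  have hM2 : 2 * M ≤ m := by have := P.Mle; nlinarith
  have hmain := partA (q := q) hU hM2 P.Mpos (by rw [hUdef]; exact ⟨m - s1, by simp⟩) (q ^ (2 * t))
    (pow_pos (Fact.out : q.Prime).pos _)
  rw [hcardU] at hmain
  -- real forms
  have hleM : (m : ℝ) ≤ 8 * ((E : ℝ) + 1) * M := by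
    have := P.leM
    have h : ((m : ℕ) : ℝ) ≤ ((8 * (E + 1) * M : ℕ) : ℝ) := by exact_mod_cast this
    push_cast at h
    exact h
  have hMm : (M : ℝ) ≤ m := by exact_mod_cast (by omega : M ≤ m)
  have hE : (0 : ℝ) < 8 * ((E : ℝ) + 1) := by positivity
  have hpow : (m : ℝ) ^ (E + 1) ≤ (8 * ((E : ℝ) + 1)) ^ (E + 1) * (M : ℝ) ^ (E + 1) := by
    rw [← mul_pow]
    exact pow_le_pow_left₀ hmpos'.le hleM _
  have hs1l : (q : ℝ) ^ s1 ≤ (m : ℝ) ^ (E + 1) := by exact_mod_cast P.s1l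
  have hs1u : (m : ℝ) ^ (E + 1) ≤ (q : ℝ) ^ (s1 + 1) := by exact_mod_cast P.s1u.le
  have hml : (q : ℝ) ^ (4 * t) ≤ m := by exact_mod_cast P.ml
  have ht1 : (0 : ℝ) < (t : ℝ) + 1 := by positivity
  have hqt : ((t : ℝ) + 1) ^ 2 * ((q : ℝ)⁻¹) ^ t ≤ 4 := by
    have h1 := sq_le_two_pow t
    have h2 : (2 : ℝ) ^ t ≤ (q : ℝ) ^ t := pow_le_pow_left₀ (by norm_num) hq2 t
    rw [inv_pow, ← div_eq_mul_inv, div_le_iff₀ (by positivity)]
    linarith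
  have hqinv : ∀ n : ℕ, ((q : ℝ)⁻¹) ^ n * (q : ℝ) ^ n = 1 := by
    intro n
    rw [← mul_pow, inv_mul_cancel₀ hq0.ne', one_pow]
  -- comparison of thresholds
  have hthr : (1 / 2 : ℝ) ^ (E + 4) * gam q E / (8 * ((E : ℝ) + 1)) ^ (E + 1) *
      (((q : ℝ)⁻¹) ^ m * (m : ℝ) ^ (E + 1) * ((t : ℝ) + 1)) ≤
      (1 / 2 : ℝ) ^ (E + 3) * ((((q : ℝ)⁻¹) ^ m *
        (gam q E * (M : ℝ) ^ (E + 1) * ((t + 1 : ℕ) : ℝ))) / 2) := by
    have h1 : (m : ℝ) ^ (E + 1) / (8 * ((E : ℝ) + 1)) ^ (E + 1) ≤ (M : ℝ) ^ (E + 1) := by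
      rw [div_le_iff₀ (by positivity)]
      linarith
    push_cast
    calc (1 / 2 : ℝ) ^ (E + 4) * gam q E / (8 * ((E : ℝ) + 1)) ^ (E + 1) *
      (((q : ℝ)⁻¹) ^ m * (m : ℝ) ^ (E + 1) * ((t : ℝ) + 1))
        = ((1 / 2 : ℝ) ^ (E + 4) * gam q E * ((q : ℝ)⁻¹) ^ m * ((t : ℝ) + 1)) *
          ((m : ℝ) ^ (E + 1) / (8 * ((E : ℝ) + 1)) ^ (E + 1)) := by ring
      _ ≤ ((1 / 2 : ℝ) ^ (E + 4) * gam q E * ((q : ℝ)⁻¹) ^ m * ((t : ℝ) + 1)) *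
          (M : ℝ) ^ (E + 1) := mul_le_mul_of_nonneg_left h1 (by positivity)
      _ = _ := by ring
  have h1 : ((BA q (E + 2) m ((1 / 2 : ℝ) ^ (E + 4) * gam q E / (8 * ((E : ℝ) + 1)) ^ (E + 1) *
      (((q : ℝ)⁻¹) ^ m * (m : ℝ) ^ (E + 1) * ((t : ℝ) + 1)))).card : ℝ) ≤
      ((BA q (E + 2) m ((1 / 2 : ℝ) ^ (E + 3) * ((((q : ℝ)⁻¹) ^ m *
        (gam q E * (M : ℝ) ^ (E + 1) * ((t + 1 : ℕ) : ℝ))) / 2))).card : ℝ) := by
    exact_mod_cast card_le_card (BA_mono hthr)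
  refine (h1.trans hmain).trans ?_
  apply mul_le_mul_of_nonneg_left _ hN.le
  -- the four terms
  have hgd := geo_down (q : ℝ) hq2 (m - s1) t
  have hgu := geo_up (q : ℝ) hq2 (m - s1) t
  rw [← hUdef] at hgd hgu
  have hgd' : ∑ u ∈ U, ((q : ℝ)⁻¹) ^ u ≤ 2 * ((q : ℝ)⁻¹) ^ (m - s1) := by
    have : 0 < ((q : ℝ)⁻¹) ^ (m - s1 + t) := by positivity
    linarith
  have hsplit : ((q : ℝ)⁻¹) ^ m = ((q : ℝ)⁻¹) ^ (m - s1) * ((q : ℝ)⁻¹) ^ s1 := by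
    rw [← pow_add]; congr 1; omega
  have hS0 : 0 ≤ ∑ u ∈ U, (q : ℝ) ^ u := sum_nonneg fun _ _ => by positivity
  -- term 1
  have hT1 : 4 * (((q : ℝ)⁻¹) ^ m * (gam q E * (M : ℝ) ^ (E + 1) *
          ∑ u ∈ U, ((q : ℝ)⁻¹) ^ u)) / (((q : ℝ)⁻¹) ^ m * (gam q E * (M : ℝ) ^ (E + 1) * ((t + 1 : ℕ) : ℝ))) ^ 2 ≤
      (8 * (8 * ((E : ℝ) + 1)) ^ (E + 1) / gam q E) / ((t : ℝ) + 1) ^ 2 := by
    have e1 : 4 * (((q : ℝ)⁻¹) ^ m * (gam q E * (M : ℝ) ^ (E + 1) *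
          ∑ u ∈ U, ((q : ℝ)⁻¹) ^ u)) / (((q : ℝ)⁻¹) ^ m * (gam q E * (M : ℝ) ^ (E + 1) * ((t + 1 : ℕ) : ℝ))) ^ 2 =
        (4 * ((q : ℝ) ^ m * ∑ u ∈ U, ((q : ℝ)⁻¹) ^ u) / (M : ℝ) ^ (E + 1)) / gam q E / ((t : ℝ) + 1) ^ 2 := by
      push_cast
      have hqm := hqinv m
      have : ((q : ℝ)⁻¹) ^ m = ((q : ℝ) ^ m)⁻¹ := inv_pow _ _
      rw [this]
      field_simp
    rw [e1]
    apply div_le_div_of_nonneg_right _ (by positivity)
    apply div_le_div_of_nonneg_right _ hγ.le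
    rw [div_le_iff₀ (by positivity)]
    have e2 : (q : ℝ) ^ m * ∑ u ∈ U, ((q : ℝ)⁻¹) ^ u ≤ 2 * (q : ℝ) ^ s1 := by
      calc (q : ℝ) ^ m * ∑ u ∈ U, ((q : ℝ)⁻¹) ^ u ≤ (q : ℝ) ^ m * (2 * ((q : ℝ)⁻¹) ^ (m - s1)) := by
            gcongr
        _ = 2 * ((q : ℝ) ^ s1 * ((q : ℝ) ^ (m - s1) * ((q : ℝ)⁻¹) ^ (m - s1))) := by
            have : (q : ℝ) ^ m = (q : ℝ) ^ s1 * (q : ℝ) ^ (m - s1) := by
              rw [← pow_add]; congr 1; omega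
            rw [this]; ring
        _ = _ := by
            have := hqinv (m - s1)
            rw [mul_comm ((q : ℝ) ^ (m - s1)), this]; ring
    linarith
  -- term 2
  have hT2 : ((q : ℝ)⁻¹) ^ m * (gam q E * (M : ℝ) ^ (E + 1) * ∑ u ∈ U, (q : ℝ) ^ u) /
      ((q ^ (2 * t) : ℕ) : ℝ) ≤ 8 * q / ((t : ℝ) + 1) ^ 2 := by
    have e0 : (M : ℝ) ^ (E + 1) ≤ (q : ℝ) ^ (s1 + 1) :=
      (pow_le_pow_left₀ hMpos.le hMm _).trans hs1u
    have e1 : ((q : ℝ)⁻¹) ^ m * (gam q E * (M : ℝ) ^ (E + 1) * ∑ u ∈ U, (q : ℝ) ^ u) ≤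
        ((q : ℝ)⁻¹) ^ m * (1 * (q : ℝ) ^ (s1 + 1) * (2 * (q : ℝ) ^ (m - s1 + t))) := by
      gcongr
    have e2 : ((q : ℝ)⁻¹) ^ m * (1 * (q : ℝ) ^ (s1 + 1) * (2 * (q : ℝ) ^ (m - s1 + t))) =
        2 * q * (q : ℝ) ^ t := by
      have : (q : ℝ) ^ (s1 + 1) * (q : ℝ) ^ (m - s1 + t) = (q : ℝ) ^ m * (q * (q : ℝ) ^ t) := by
        rw [← pow_add, ← pow_succ', ← pow_add]; congr 1; omega
      calc _ = 2 * (((q : ℝ)⁻¹) ^ m * ((q : ℝ) ^ (s1 + 1) * (q : ℝ) ^ (m - s1 + t))) := by ring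
        _ = 2 * ((((q : ℝ)⁻¹) ^ m * (q : ℝ) ^ m) * (q * (q : ℝ) ^ t)) := by rw [this]; ring
        _ = _ := by rw [hqinv m]; ring
    rw [e2] at e1
    push_cast
    calc _ ≤ 2 * q * (q : ℝ) ^ t / (q : ℝ) ^ (2 * t) := div_le_div_of_nonneg_right e1 (by positivity)
      _ = 2 * q * ((q : ℝ)⁻¹) ^ t := by
          have : (q : ℝ) ^ (2 * t) = (q : ℝ) ^ t * (q : ℝ) ^ t := by rw [← pow_add]; congr 1; ring
          rw [this, inv_pow]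
          field_simp
      _ ≤ _ := by
          rw [le_div_iff₀ (by positivity)]
          calc 2 * (q : ℝ) * ((q : ℝ)⁻¹) ^ t * ((t : ℝ) + 1) ^ 2
              = 2 * (q : ℝ) * (((t : ℝ) + 1) ^ 2 * ((q : ℝ)⁻¹) ^ t) := by ring
            _ ≤ 2 * (q : ℝ) * 4 := by gcongr
            _ = _ := by ring
  -- term 3
  have hT3 : (((q : ℝ)⁻¹) ^ m) ^ 2 * ((M : ℝ) * (gam q E * (M : ℝ) ^ E * ∑ u ∈ U, (q : ℝ) ^ u) ^ 2) ≤
      128 * ((E : ℝ) + 1) * (q : ℝ) ^ 2 / ((t : ℝ) + 1) ^ 2 := by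
    have e1 : (((q : ℝ)⁻¹) ^ m) ^ 2 * ((M : ℝ) * (gam q E * (M : ℝ) ^ E * ∑ u ∈ U, (q : ℝ) ^ u) ^ 2) ≤
        (((q : ℝ)⁻¹) ^ m) ^ 2 * ((M : ℝ) * (1 * (M : ℝ) ^ E * (2 * (q : ℝ) ^ (m - s1 + t))) ^ 2) := by
      gcongr
    have e2 : (((q : ℝ)⁻¹) ^ m) ^ 2 * ((M : ℝ) * (1 * (M : ℝ) ^ E * (2 * (q : ℝ) ^ (m - s1 + t))) ^ 2) =
        4 * ((M : ℝ) ^ (E + 1) * ((q : ℝ)⁻¹) ^ s1) ^ 2 * (q : ℝ) ^ (2 * t) / M := by
      have h2 : (q : ℝ) ^ (m - s1 + t) = (q : ℝ) ^ (m - s1) * (q : ℝ) ^ t := pow_add _ _ _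
      have h3 : (q : ℝ) ^ (2 * t) = (q : ℝ) ^ t * (q : ℝ) ^ t := by rw [← pow_add]; congr 1; ring
      have h4 := hqinv (m - s1)
      rw [h2, h3, hsplit]
      have h5 : (((q : ℝ)⁻¹) ^ (m - s1) * ((q : ℝ)⁻¹) ^ s1) ^ 2 *
          ((M : ℝ) * (1 * (M : ℝ) ^ E * (2 * ((q : ℝ) ^ (m - s1) * (q : ℝ) ^ t))) ^ 2) =
          4 * ((((q : ℝ)⁻¹) ^ (m - s1) * (q : ℝ) ^ (m - s1))) ^ 2 * (((q : ℝ)⁻¹) ^ s1) ^ 2 *
          (M * ((M : ℝ) ^ E) ^ 2) * ((q : ℝ) ^ t * (q : ℝ) ^ t) := by ring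
      rw [h5, h4]
      field_simp
      ring
    have e3 : (M : ℝ) ^ (E + 1) * ((q : ℝ)⁻¹) ^ s1 ≤ q := by
      have h2 : (M : ℝ) ^ (E + 1) ≤ (q : ℝ) ^ (s1 + 1) :=
        (pow_le_pow_left₀ hMpos.le hMm _).trans hs1u
      calc (M : ℝ) ^ (E + 1) * ((q : ℝ)⁻¹) ^ s1 ≤ (q : ℝ) ^ (s1 + 1) * ((q : ℝ)⁻¹) ^ s1 := by gcongr
        _ = q * (((q : ℝ)⁻¹) ^ s1 * (q : ℝ) ^ s1) := by ring
        _ = q := by rw [hqinv]; ring
    have e4 : (1 : ℝ) / M ≤ 8 * ((E : ℝ) + 1) * ((q : ℝ)⁻¹) ^ (4 * t) := by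
      rw [div_le_iff₀ hMpos]
      calc (1 : ℝ) = ((q : ℝ)⁻¹) ^ (4 * t) * (q : ℝ) ^ (4 * t) := (hqinv _).symm
        _ ≤ ((q : ℝ)⁻¹) ^ (4 * t) * (8 * ((E : ℝ) + 1) * M) := by
          apply mul_le_mul_of_nonneg_left (hml.trans hleM) (by positivity)
        _ = _ := by ring
    calc _ ≤ _ := e1
      _ = 4 * ((M : ℝ) ^ (E + 1) * ((q : ℝ)⁻¹) ^ s1) ^ 2 * (q : ℝ) ^ (2 * t) * (1 / M) := by
          rw [e2]; ring
      _ ≤ 4 * (q : ℝ) ^ 2 * (q : ℝ) ^ (2 * t) * (8 * ((E : ℝ) + 1) * ((q : ℝ)⁻¹) ^ (4 * t)) := by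
          gcongr
      _ = 32 * ((E : ℝ) + 1) * (q : ℝ) ^ 2 * (((q : ℝ)⁻¹) ^ t * ((((q : ℝ)⁻¹) ^ t) *
          (((q : ℝ)⁻¹) ^ (2 * t) * (q : ℝ) ^ (2 * t)))) := by
          have : ((q : ℝ)⁻¹) ^ (4 * t) = ((q : ℝ)⁻¹) ^ t * ((q : ℝ)⁻¹) ^ t * ((q : ℝ)⁻¹) ^ (2 * t) := by
            rw [← pow_add, ← pow_add]; congr 1; ring
          rw [this]; ring
      _ ≤ 32 * ((E : ℝ) + 1) * (q : ℝ) ^ 2 * (((q : ℝ)⁻¹) ^ t * (1 * 1)) := by
          rw [hqinv]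
          gcongr
          exact pow_le_one₀ (by positivity) (inv_le_one_of_one_le₀ (by linarith))
      _ ≤ _ := by
          rw [le_div_iff₀ (by positivity)]
          calc 32 * ((E : ℝ) + 1) * (q : ℝ) ^ 2 * (((q : ℝ)⁻¹) ^ t * (1 * 1)) * ((t : ℝ) + 1) ^ 2
              = 32 * ((E : ℝ) + 1) * (q : ℝ) ^ 2 * (((t : ℝ) + 1) ^ 2 * ((q : ℝ)⁻¹) ^ t) := by ring
            _ ≤ 32 * ((E : ℝ) + 1) * (q : ℝ) ^ 2 * 4 := by gcongr
            _ = _ := by ring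
  -- term 4
  have hT4 : ((q : ℝ)⁻¹) ^ m * ((m : ℝ) * q + 1) ^ ((q ^ (2 * t) + 1) * (E + 2)) ≤
      4 / ((t : ℝ) + 1) ^ 2 := by
    have e1 : ((m : ℝ) * q + 1) ^ ((q ^ (2 * t) + 1) * (E + 2)) * (q : ℝ) ^ t ≤ (q : ℝ) ^ m := by
      exact_mod_cast P.sparseA
    have e2 : ((q : ℝ)⁻¹) ^ m * ((m : ℝ) * q + 1) ^ ((q ^ (2 * t) + 1) * (E + 2)) ≤
        ((q : ℝ)⁻¹) ^ t := by
      rw [inv_pow, inv_pow, inv_mul_le_iff₀ (by positivity), ← div_eq_mul_inv, le_div_iff₀ (by positivity)]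
      exact e1
    refine e2.trans ?_
    rw [le_div_iff₀ (by positivity)]
    linarith
  have hsum : (8 * (8 * ((E : ℝ) + 1)) ^ (E + 1) / gam q E + 8 * q +
        128 * ((E : ℝ) + 1) * (q : ℝ) ^ 2 + 4) / ((t : ℝ) + 1) ^ 2 =
      (8 * (8 * ((E : ℝ) + 1)) ^ (E + 1) / gam q E) / ((t : ℝ) + 1) ^ 2 + 8 * q / ((t : ℝ) + 1) ^ 2 +
        128 * ((E : ℝ) + 1) * (q : ℝ) ^ 2 / ((t : ℝ) + 1) ^ 2 + 4 / ((t : ℝ) + 1) ^ 2 := by
    rw [add_div, add_div, add_div]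
  rw [hsum]
  exact add_le_add (add_le_add (add_le_add hT1 hT2) hT3) hT4

end

end Pool.Agent.DNet
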