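import Mathlib
import Pool.Agent.DNet.Final

/-!
The second estimate with explicit parameters and the combination of all estimates.
-/

namespace Pool.Agent.DNet

open Finset

set_option linter.unusedSectionVars false

variable {q : ℕ} [Fact q.Prime] {m E : ℕ}

/-- constant of the second estimate -/
noncomputable def cB (q E : ℕ) : ℝ :=
  (1 / 2 : ℝ) ^ (E + 2) * gam q E / (4 * q * (8 * ((E : ℝ) + 1)) ^ (E + 1))

/-- constant of the first estimate -/
noncomputable def cA (q E : ℕ) : ℝ := (1 / 2 : ℝ) ^ (E + 4) * gam q E / (8 * ((E : ℝ) + 1)) ^ (E + 1)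

/-- constant of the first estimate -/
noncomputable def CA (q E : ℕ) : ℝ := 8 * (8 * ((E : ℝ) + 1)) ^ (E + 1) / gam q E + 8 * q +
        128 * ((E : ℝ) + 1) * (q : ℝ) ^ 2 + 4

lemma estB {A t M s1 : ℕ} (P : Par q E A m t M s1) (hMγ : 8 / gam q E ≤ M) {δ : ℝ} (h0 : 0 < δ)
    (h1 : δ < 1) (hδ : ((q : ℝ)⁻¹) ^ M ≤ δ) :
    ((BB q (E + 2) m (cB q E * (((q : ℝ)⁻¹) ^ m * (m : ℝ) ^ (E + 1) * Real.sqrt δ))).card : ℝ) ≤
      NN q (E + 2) m * δ := by
  have hq2 : (2 : ℝ) ≤ q := by exact_mod_cast (Fact.out : q.Prime).two_le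
  have hq2' : 2 ≤ q := (Fact.out : q.Prime).two_le
  have hq0 : (0 : ℝ) < q := by linarith
  have hγ := gam_pos (q := q) (E := E)
  have hγ1 := gam_le_one (q := q) (E := E)
  have hN := NN_pos (q := q) (d := E + 2) (m := m)
  have hMpos : (0 : ℝ) < M := by exact_mod_cast P.Mpos
  have hM1 : (1 : ℝ) ≤ M := by exact_mod_cast P.Mpos
  have hmpos : 0 < m := by have := P.big; nlinarith
  have hmpos' : (0 : ℝ) < m := by exact_mod_cast hmpos
  have hM2 : 2 * M ≤ m := by have := P.Mle; nlinarith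
  have hMm : (M : ℝ) ≤ m := by exact_mod_cast (by omega : M ≤ m)
  have hqinv : ∀ n : ℕ, ((q : ℝ)⁻¹) ^ n * (q : ℝ) ^ n = 1 := by
    intro n
    rw [← mul_pow, inv_mul_cancel₀ hq0.ne', one_pow]
  set R : ℝ := 8 * (q : ℝ) ^ m / (gam q E * (M : ℝ) ^ (E + 1) * δ) with hR
  have hRpos : 0 < R := by positivity
  have hex : ∃ u : ℕ, R ≤ (q : ℝ) ^ u := by
    obtain ⟨u, hu⟩ := pow_unbounded_of_one_lt R (by linarith : (1 : ℝ) < q)
    exact ⟨u, hu.le⟩
  classical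
  set u := Nat.find hex with hu
  have hu1 : R ≤ (q : ℝ) ^ u := Nat.find_spec hex
  -- lower bound for u
  have hRlow : (q : ℝ) ^ m ≤ R * (m : ℝ) ^ (E + 1) := by
    rw [hR, div_mul_eq_mul_div, le_div_iff₀ (by positivity)]
    have e1 : gam q E * (M : ℝ) ^ (E + 1) * δ ≤ 1 * (m : ℝ) ^ (E + 1) * 1 := by
      gcongr
    have : 0 < (q : ℝ) ^ m := by positivity
    have : 0 < (m : ℝ) ^ (E + 1) := by positivity
    nlinarith
  have hulow : m < u + (4 * t + 4) * (E + 1) := by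
    have e1 : (m : ℝ) ^ (E + 1) < ((q : ℝ) ^ (4 * t + 4)) ^ (E + 1) := by
      have : ((m : ℕ) : ℝ) < ((q ^ (4 * t + 4) : ℕ) : ℝ) := by exact_mod_cast P.mu'
      push_cast at this
      exact pow_lt_pow_left₀ this hmpos'.le (by omega)
    have e2 : (q : ℝ) ^ m < (q : ℝ) ^ (u + (4 * t + 4) * (E + 1)) := by
      calc (q : ℝ) ^ m ≤ R * (m : ℝ) ^ (E + 1) := hRlow
        _ ≤ (q : ℝ) ^ u * (m : ℝ) ^ (E + 1) := by gcongr
        _ < (q : ℝ) ^ u * ((q : ℝ) ^ (4 * t + 4)) ^ (E + 1) := by gcongr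
        _ = _ := by rw [← pow_mul, ← pow_add]
    exact (pow_lt_pow_iff_right₀ (by linarith : (1 : ℝ) < q)).1 e2
  have hupos : 0 < u := by
    have h2 := P.big
    by_contra hcon
    have : u = 0 := by omega
    rw [this] at hulow
    nlinarith
  have hu2 : (q : ℝ) ^ u ≤ q * R := by
    obtain ⟨v, hv⟩ : ∃ v, u = v + 1 := ⟨u - 1, by omega⟩
    have h2 : ¬ R ≤ (q : ℝ) ^ v := Nat.find_min hex (by omega : v < u)
    push Not at h2
    rw [hv, pow_succ']
    gcongr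
  -- upper bound for u
  have huup : u ≤ m + (M + 1) * (E + 1) := by
    apply Nat.find_min' hex
    rw [hR, div_le_iff₀ (by positivity)]
    have e1 : 8 ≤ gam q E * (M : ℝ) ^ (E + 1) := by
      have e2 : 8 ≤ gam q E * M := by
        rw [div_le_iff₀ hγ] at hMγ; linarith
      calc 8 ≤ gam q E * M := e2
        _ = gam q E * (M : ℝ) ^ 1 := by rw [pow_one]
        _ ≤ _ := by
          apply mul_le_mul_of_nonneg_left _ hγ.le
          exact pow_le_pow_right₀ hM1 (by omega)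
    have e3 : (q : ℝ) ^ (m + (M + 1) * (E + 1)) = (q : ℝ) ^ m * (q : ℝ) ^ ((M + 1) * (E + 1)) :=
      pow_add _ _ _
    have e4 : (q : ℝ) ^ M ≤ (q : ℝ) ^ ((M + 1) * (E + 1)) :=
      pow_le_pow_right₀ (by linarith) (by nlinarith)
    have e5 : 1 ≤ (q : ℝ) ^ M * δ := by
      calc (1 : ℝ) = (q : ℝ) ^ M * ((q : ℝ)⁻¹) ^ M := by rw [mul_comm, hqinv]
        _ ≤ _ := by gcongr
    have e6 : 1 ≤ (q : ℝ) ^ ((M + 1) * (E + 1)) * δ := e5.trans (by gcongr)
    rw [e3]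
    calc 8 * (q : ℝ) ^ m = (q : ℝ) ^ m * (8 * 1) := by ring
      _ ≤ (q : ℝ) ^ m * ((gam q E * (M : ℝ) ^ (E + 1)) * ((q : ℝ) ^ ((M + 1) * (E + 1)) * δ)) := by
          gcongr
      _ = _ := by ring
  have hU : Adm E M m {u} := by
    intro v hv
    rw [mem_singleton] at hv
    subst hv
    refine ⟨?_, huup⟩
    have h2 := P.big
    have h3 := P.Mle
    have h4 : 2 * (2 * M * (E + 1) + 1) ≤ 2 * u := by
      have e1 : 2 * (2 * M * (E + 1)) = 4 * (E + 1) * M := by ring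
      have e2 : 2 * ((4 * t + 4) * (E + 1)) + 2 ≤ m := by nlinarith
      omega
    omega
  have hmain := partB (q := q) u hU hM2 P.Mpos
  -- comparison of thresholds
  have hleM : (m : ℝ) ≤ 8 * ((E : ℝ) + 1) * M := by
    have := P.leM
    have h : ((m : ℕ) : ℝ) ≤ ((8 * (E + 1) * M : ℕ) : ℝ) := by exact_mod_cast this
    push_cast at h
    exact h
  have hpow : (m : ℝ) ^ (E + 1) / (8 * ((E : ℝ) + 1)) ^ (E + 1) ≤ (M : ℝ) ^ (E + 1) := by
    rw [div_le_iff₀ (by positivity), mul_comm, ← mul_pow]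
    exact pow_le_pow_left₀ hmpos'.le hleM _
  have hthr : cB q E * (((q : ℝ)⁻¹) ^ m * (m : ℝ) ^ (E + 1) * Real.sqrt δ) ≤
      (1 / 2 : ℝ) ^ (E + 2) * ((q : ℝ)⁻¹) ^ u * Real.sqrt
        ((((q : ℝ)⁻¹) ^ m * (gam q E * (M : ℝ) ^ (E + 1) * (q : ℝ) ^ u)) / 2) := by
    have e1 : cB q E * (((q : ℝ)⁻¹) ^ m * (m : ℝ) ^ (E + 1) * Real.sqrt δ) ≤
        (1 / 2 : ℝ) ^ (E + 2) * (gam q E * (M : ℝ) ^ (E + 1) * ((q : ℝ)⁻¹) ^ m / (4 * q) * Real.sqrt δ) := by
      unfold cB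
      calc _ = ((1 / 2 : ℝ) ^ (E + 2) * gam q E * ((q : ℝ)⁻¹) ^ m / (4 * q) * Real.sqrt δ) *
            ((m : ℝ) ^ (E + 1) / (8 * ((E : ℝ) + 1)) ^ (E + 1)) := by
            field_simp
        _ ≤ ((1 / 2 : ℝ) ^ (E + 2) * gam q E * ((q : ℝ)⁻¹) ^ m / (4 * q) * Real.sqrt δ) *
            (M : ℝ) ^ (E + 1) := mul_le_mul_of_nonneg_left hpow (by positivity)
        _ = _ := by ring
    refine e1.trans ?_
    rw [mul_assoc ((1 / 2 : ℝ) ^ (E + 2)) (((q : ℝ)⁻¹) ^ u)]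
    apply mul_le_mul_of_nonneg_left _ (by positivity)
    -- square both sides
    rw [← sq_le_sq₀ (by positivity) (by positivity), mul_pow, mul_pow, Real.sq_sqrt h0.le,
      Real.sq_sqrt (by positivity)]
    set g : ℝ := gam q E * (M : ℝ) ^ (E + 1) with hg
    have hg0 : 0 < g := by positivity
    have e2 : (q : ℝ) ^ u * (g * δ) ≤ 8 * q * (q : ℝ) ^ m := by
      calc (q : ℝ) ^ u * (g * δ) ≤ (q * R) * (g * δ) := by gcongr
        _ = 8 * q * (q : ℝ) ^ m := by rw [hR]; field_simp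
    have e3 : (((q : ℝ)⁻¹) ^ u) ^ 2 * ((((q : ℝ)⁻¹) ^ m * (g * (q : ℝ) ^ u)) / 2) =
        ((q : ℝ)⁻¹) ^ u * ((q : ℝ)⁻¹) ^ m * g / 2 := by
      have := hqinv u
      calc _ = ((q : ℝ)⁻¹) ^ u * (((q : ℝ)⁻¹) ^ u * (q : ℝ) ^ u) * ((q : ℝ)⁻¹) ^ m * g / 2 := by ring
        _ = _ := by rw [this]; ring
    rw [e3]
    have e4 : g * δ * ((q : ℝ)⁻¹) ^ m ≤ 8 * q * ((q : ℝ)⁻¹) ^ u := by
      have h5 : 0 < ((q : ℝ)⁻¹) ^ m * ((q : ℝ)⁻¹) ^ u := by positivity
      have h6 := mul_le_mul_of_nonneg_left e2 h5.le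
      have h7 : ((q : ℝ)⁻¹) ^ m * ((q : ℝ)⁻¹) ^ u * ((q : ℝ) ^ u * (g * δ)) =
          g * δ * ((q : ℝ)⁻¹) ^ m * (((q : ℝ)⁻¹) ^ u * (q : ℝ) ^ u) := by ring
      have h8 : ((q : ℝ)⁻¹) ^ m * ((q : ℝ)⁻¹) ^ u * (8 * q * (q : ℝ) ^ m) =
          8 * q * ((q : ℝ)⁻¹) ^ u * (((q : ℝ)⁻¹) ^ m * (q : ℝ) ^ m) := by ring
      rw [h7, h8, hqinv, hqinv, mul_one, mul_one] at h6
      exact h6
    have hq2i : 1 / (4 * (q : ℝ)) ^ 2 * (8 * q) ≤ 1 / 2 := by
      rw [div_mul_eq_mul_div, div_le_div_iff₀ (by positivity) (by norm_num)]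
      nlinarith
    calc (g * ((q : ℝ)⁻¹) ^ m / (4 * q)) ^ 2 * δ
        = (1 / (4 * (q : ℝ)) ^ 2 * (g * ((q : ℝ)⁻¹) ^ m)) * (g * δ * ((q : ℝ)⁻¹) ^ m) := by
          field_simp
      _ ≤ (1 / (4 * (q : ℝ)) ^ 2 * (g * ((q : ℝ)⁻¹) ^ m)) * (8 * q * ((q : ℝ)⁻¹) ^ u) := by gcongr
      _ = (1 / (4 * (q : ℝ)) ^ 2 * (8 * q)) * (g * ((q : ℝ)⁻¹) ^ m * ((q : ℝ)⁻¹) ^ u) := by ring
      _ ≤ (1 / 2) * (g * ((q : ℝ)⁻¹) ^ m * ((q : ℝ)⁻¹) ^ u) := by gcongr
      _ = _ := by ring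
  have h2 : ((BB q (E + 2) m (cB q E * (((q : ℝ)⁻¹) ^ m * (m : ℝ) ^ (E + 1) * Real.sqrt δ))).card : ℝ) ≤
      ((BB q (E + 2) m ((1 / 2 : ℝ) ^ (E + 2) * ((q : ℝ)⁻¹) ^ u * Real.sqrt
        ((((q : ℝ)⁻¹) ^ m * (gam q E * (M : ℝ) ^ (E + 1) * (q : ℝ) ^ u)) / 2))).card : ℝ) := by
    exact_mod_cast card_le_card (BB_mono hthr)
  refine (h2.trans hmain).trans ?_
  apply mul_le_mul_of_nonneg_left _ hN.le
  have hT1 : 4 / (((q : ℝ)⁻¹) ^ m * (gam q E * (M : ℝ) ^ (E + 1) * (q : ℝ) ^ u)) ≤ δ / 2 := by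
    rw [div_le_iff₀ (by positivity)]
    have e1 : 8 * (q : ℝ) ^ m ≤ (q : ℝ) ^ u * (gam q E * (M : ℝ) ^ (E + 1) * δ) := by
      rw [hR, div_le_iff₀ (by positivity)] at hu1
      exact hu1
    have e2 := mul_le_mul_of_nonneg_left e1 (by positivity : (0 : ℝ) ≤ ((q : ℝ)⁻¹) ^ m)
    have e3 : ((q : ℝ)⁻¹) ^ m * (8 * (q : ℝ) ^ m) = 8 := by
      calc _ = 8 * (((q : ℝ)⁻¹) ^ m * (q : ℝ) ^ m) := by ring
        _ = 8 := by rw [hqinv]; ring
    rw [e3] at e2
    linarith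
  have hT2 : ((q : ℝ)⁻¹) ^ m * ((m : ℝ) * q + 1) ^ (2 * (E + 2)) ≤ δ / 2 := by
    have e1 : 2 * ((m : ℝ) * q + 1) ^ (2 * (E + 2)) * (q : ℝ) ^ M ≤ (q : ℝ) ^ m := by
      exact_mod_cast P.sparseB
    have e2 : ((q : ℝ)⁻¹) ^ m * ((m : ℝ) * q + 1) ^ (2 * (E + 2)) ≤ ((q : ℝ)⁻¹) ^ M / 2 := by
      rw [inv_pow, inv_pow, inv_mul_le_iff₀ (by positivity), ← mul_div_assoc, ← div_eq_mul_inv,
        le_div_iff₀ (by norm_num), le_div_iff₀ (by positivity)]
      linarith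
    linarith
  linarith

/-- boundedness of the normalising factor -/
lemma exists_bound (E : ℕ) : ∃ B : ℝ, 0 < B ∧ ∀ M : ℕ, ((M : ℝ) + 1) ^ (E + 2) * (1 / 2) ^ M ≤ B := by
  have h1 := tendsto_pow_const_mul_const_pow_of_abs_lt_one (E + 2) (r := (1 / 2 : ℝ))
    (by rw [abs_of_pos] <;> norm_num)
  obtain ⟨B, hB⟩ := h1.bddAbove_range
  refine ⟨2 * max B 1, by positivity, fun M => ?_⟩
  have h2 := hB ⟨M + 1, rfl⟩
  simp only at h2
  have h3 : (((M + 1 : ℕ) : ℝ)) ^ (E + 2) * (1 / 2) ^ (M + 1) ≤ max B 1 := h2.trans (le_max_left _ _)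
  push_cast at h3
  rw [pow_succ (1 / 2 : ℝ) M] at h3
  linarith

/-- the combined estimate -/
theorem combined (q E : ℕ) [Fact q.Prime] : ∃ c : ℝ, 0 < c ∧ ∀ m : ℕ, 1 ≤ m → ∀ δ : ℝ, 0 < δ → δ < 1 →
    ((BB q (E + 2) m (c * δ * (((q : ℝ)⁻¹) ^ m * (m : ℝ) ^ (E + 1) *
      (((Nat.log q m / 4 : ℕ) : ℝ) + 1)))).card : ℝ) ≤ NN q (E + 2) m * δ := by
  have hq2 : (2 : ℝ) ≤ q := by exact_mod_cast (Fact.out : q.Prime).two_le
  have hq2' : 2 ≤ q := (Fact.out : q.Prime).two_le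
  have hq0 : (0 : ℝ) < q := by linarith
  have hγ := gam_pos (q := q) (E := E)
  have hγ1 := gam_le_one (q := q) (E := E)
  obtain ⟨B, hB0, hB⟩ := exists_bound E
  have hcA : 0 < cA q E := by unfold cA; positivity
  have hcB : 0 < cB q E := by unfold cB; positivity
  have hCA : 0 < CA q E := by unfold CA; positivity
  obtain ⟨g, hg⟩ : ∃ g : ℕ, 8 / gam q E ≤ g := exists_nat_ge _
  set A : ℕ := 100 * (E + 2) + 8 * (E + 1) * g with hA
  set B0 : ℝ := (((q : ℝ) ^ (4 * A + 4)) ^ (E + 1)) * ((A : ℝ) + 1) with hB0def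
  have hB0pos : 0 < B0 := by positivity
  set B1 : ℝ := (8 * ((E : ℝ) + 1)) ^ (E + 2) * B with hB1def
  have hB1pos : 0 < B1 := by positivity
  set c : ℝ := min (min (cA q E) (cB q E / Real.sqrt (CA q E))) (min (1 / (2 * B0)) (1 / (2 * B1)))
    with hc
  have hcpos : 0 < c := by
    have : 0 < Real.sqrt (CA q E) := Real.sqrt_pos.2 hCA
    rw [hc]
    refine lt_min (lt_min hcA (by positivity)) (lt_min (by positivity) (by positivity))
  have hc1 : c ≤ cA q E := (min_le_left _ _).trans (min_le_left _ _)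
  have hc2 : c ≤ cB q E / Real.sqrt (CA q E) := (min_le_left _ _).trans (min_le_right _ _)
  have hc3 : c ≤ 1 / (2 * B0) := (min_le_right _ _).trans (min_le_left _ _)
  have hc4 : c ≤ 1 / (2 * B1) := (min_le_right _ _).trans (min_le_right _ _)
  refine ⟨c, hcpos, fun m hm δ h0 h1 => ?_⟩
  have hN := NN_pos (q := q) (d := E + 2) (m := m)
  set t := Nat.log q m / 4 with ht
  have hm0 : m ≠ 0 := by omega
  have hml : q ^ (4 * t) ≤ m := by
    calc q ^ (4 * t) ≤ q ^ (Nat.log q m) := Nat.pow_le_pow_right (by omega) (by omega)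
      _ ≤ m := Nat.pow_log_le_self q hm0
  have hmu : m < q ^ (4 * t + 4) := by
    calc m < q ^ (Nat.log q m + 1) := Nat.lt_pow_succ_log_self (by omega) m
      _ ≤ _ := Nat.pow_le_pow_right (by omega) (by omega)
  have hmpos : (0 : ℝ) < m := by exact_mod_cast hm
  have ht1 : (0 : ℝ) < (t : ℝ) + 1 := by positivity
  rcases Nat.lt_or_ge t A with htA | htA
  · -- small m
    have he : BB q (E + 2) m (c * δ * (((q : ℝ)⁻¹) ^ m * (m : ℝ) ^ (E + 1) * ((t : ℝ) + 1))) = ∅ := by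
      apply BB_empty (by omega) hm
      have e1 : (m : ℝ) ^ (E + 1) * ((t : ℝ) + 1) ≤ B0 := by
        rw [hB0def]
        apply mul_le_mul
        · apply pow_le_pow_left₀ hmpos.le
          have : m ≤ q ^ (4 * A + 4) := hmu.le.trans (Nat.pow_le_pow_right (by omega) (by omega))
          exact_mod_cast this
        · have : (t : ℝ) ≤ A := by exact_mod_cast htA.le
          linarith
        · positivity
        · positivity
      calc c * δ * (((q : ℝ)⁻¹) ^ m * (m : ℝ) ^ (E + 1) * ((t : ℝ) + 1))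
          = (c * δ) * ((m : ℝ) ^ (E + 1) * ((t : ℝ) + 1)) * ((q : ℝ)⁻¹) ^ m := by ring
        _ ≤ (1 / (2 * B0) * 1) * B0 * ((q : ℝ)⁻¹) ^ m := by gcongr
        _ = _ := by field_simp
    rw [he]
    simp only [card_empty, Nat.cast_zero]
    positivity
  · -- large m
    have P : Par q E A m t (m / (4 * (E + 1))) (Nat.log q (m ^ (E + 1))) := by
      refine ⟨hml, hmu, lin_le_four_pow A t htA, by omega, rfl, ?_, ?_⟩
      · exact Nat.pow_log_le_self q (pow_ne_zero _ hm0)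
      · exact Nat.lt_pow_succ_log_self (by omega) _
    set M := m / (4 * (E + 1)) with hM
    have hMγ : 8 / gam q E ≤ M := by
      refine hg.trans ?_
      have e1 := P.leM
      have e2 := P.Am
      have e3 : 8 * (E + 1) * g ≤ 8 * (E + 1) * M := by
        calc 8 * (E + 1) * g ≤ A := by omega
          _ ≤ A * (t + 1) := Nat.le_mul_of_pos_right _ (by omega)
          _ ≤ m := e2
          _ ≤ _ := e1
      have e4 : g ≤ M := Nat.le_of_mul_le_mul_left e3 (by positivity)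
      exact_mod_cast e4
    by_cases hδ1 : CA q E / ((t : ℝ) + 1) ^ 2 ≤ δ
    · -- first estimate
      have e1 := estA P
      have e2 : c * δ * (((q : ℝ)⁻¹) ^ m * (m : ℝ) ^ (E + 1) * ((t : ℝ) + 1)) ≤
          cA q E * (((q : ℝ)⁻¹) ^ m * (m : ℝ) ^ (E + 1) * ((t : ℝ) + 1)) := by
        apply mul_le_mul_of_nonneg_right _ (by positivity)
        calc c * δ ≤ cA q E * 1 := by gcongr
          _ = _ := mul_one _
      have e3 : ((BB q (E + 2) m (c * δ * (((q : ℝ)⁻¹) ^ m * (m : ℝ) ^ (E + 1) *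
          ((t : ℝ) + 1)))).card : ℝ) ≤
          ((BA q (E + 2) m (cA q E * (((q : ℝ)⁻¹) ^ m * (m : ℝ) ^ (E + 1) * ((t : ℝ) + 1)))).card : ℝ) := by
        exact_mod_cast card_le_card ((BB_mono e2).trans (BB_sub_BA _))
      refine e3.trans (e1.trans ?_)
      exact mul_le_mul_of_nonneg_left hδ1 hN.le
    · push Not at hδ1
      by_cases hδ2 : ((q : ℝ)⁻¹) ^ M ≤ δ
      · -- second estimate
        have e1 := estB P hMγ h0 h1 hδ2
        have e2 : c * δ * (((q : ℝ)⁻¹) ^ m * (m : ℝ) ^ (E + 1) * ((t : ℝ) + 1)) ≤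
            cB q E * (((q : ℝ)⁻¹) ^ m * (m : ℝ) ^ (E + 1) * Real.sqrt δ) := by
          have hsq : Real.sqrt δ * ((t : ℝ) + 1) ≤ Real.sqrt (CA q E) := by
            rw [← sq_le_sq₀ (by positivity) (by positivity), mul_pow, Real.sq_sqrt h0.le,
              Real.sq_sqrt hCA.le]
            rw [lt_div_iff₀ (by positivity)] at hδ1
            exact hδ1.le
          have e3 : c * (Real.sqrt δ * ((t : ℝ) + 1)) ≤ cB q E := by
            have hs : 0 < Real.sqrt (CA q E) := Real.sqrt_pos.2 hCA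
            calc c * (Real.sqrt δ * ((t : ℝ) + 1)) ≤ (cB q E / Real.sqrt (CA q E)) * Real.sqrt (CA q E) := by
                  gcongr
              _ = _ := by field_simp
          have e4 : δ = Real.sqrt δ * Real.sqrt δ := (Real.mul_self_sqrt h0.le).symm
          calc c * δ * (((q : ℝ)⁻¹) ^ m * (m : ℝ) ^ (E + 1) * ((t : ℝ) + 1))
              = (c * (Real.sqrt δ * ((t : ℝ) + 1))) * (((q : ℝ)⁻¹) ^ m * (m : ℝ) ^ (E + 1) * Real.sqrt δ) := by
                conv_lhs => rw [e4]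
                ring
            _ ≤ _ := mul_le_mul_of_nonneg_right e3 (by positivity)
        have e3 : ((BB q (E + 2) m (c * δ * (((q : ℝ)⁻¹) ^ m * (m : ℝ) ^ (E + 1) *
            ((t : ℝ) + 1)))).card : ℝ) ≤
            ((BB q (E + 2) m (cB q E * (((q : ℝ)⁻¹) ^ m * (m : ℝ) ^ (E + 1) * Real.sqrt δ))).card : ℝ) := by
          exact_mod_cast card_le_card (BB_mono e2)
        exact e3.trans e1
      · -- tiny δ
        push Not at hδ2
        have he : BB q (E + 2) m (c * δ * (((q : ℝ)⁻¹) ^ m * (m : ℝ) ^ (E + 1) * ((t : ℝ) + 1))) = ∅ := by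
          apply BB_empty (by omega) hm
          have e0 : (t : ℝ) + 1 ≤ m := by
            have h5 := P.big
            have : t + 1 ≤ m := by nlinarith
            exact_mod_cast this
          have e1 : (m : ℝ) ^ (E + 1) * ((t : ℝ) + 1) ≤ (8 * ((E : ℝ) + 1)) ^ (E + 2) * ((M : ℝ) + 1) ^ (E + 2) := by
            calc (m : ℝ) ^ (E + 1) * ((t : ℝ) + 1) ≤ (m : ℝ) ^ (E + 1) * m := by gcongr
              _ = (m : ℝ) ^ (E + 2) := by ring
              _ ≤ (8 * ((E : ℝ) + 1) * ((M : ℝ) + 1)) ^ (E + 2) := by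
                apply pow_le_pow_left₀ hmpos.le
                have h5 := P.leM
                have h6 : ((m : ℕ) : ℝ) ≤ ((8 * (E + 1) * M : ℕ) : ℝ) := by exact_mod_cast h5
                push_cast at h6
                nlinarith
              _ = _ := by rw [mul_pow]
          have e2 : δ * ((m : ℝ) ^ (E + 1) * ((t : ℝ) + 1)) ≤ B1 := by
            calc δ * ((m : ℝ) ^ (E + 1) * ((t : ℝ) + 1))
                ≤ (1 / 2) ^ M * ((8 * ((E : ℝ) + 1)) ^ (E + 2) * ((M : ℝ) + 1) ^ (E + 2)) := by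
                  apply mul_le_mul _ e1 (by positivity) (by positivity)
                  refine hδ2.le.trans ?_
                  apply pow_le_pow_left₀ (by positivity)
                  rw [one_div]
                  exact inv_anti₀ (by norm_num) hq2
              _ = (8 * ((E : ℝ) + 1)) ^ (E + 2) * (((M : ℝ) + 1) ^ (E + 2) * (1 / 2) ^ M) := by ring
              _ ≤ _ := by
                  rw [hB1def]
                  exact mul_le_mul_of_nonneg_left (hB M) (by positivity)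
          calc c * δ * (((q : ℝ)⁻¹) ^ m * (m : ℝ) ^ (E + 1) * ((t : ℝ) + 1))
              = c * (δ * ((m : ℝ) ^ (E + 1) * ((t : ℝ) + 1))) * ((q : ℝ)⁻¹) ^ m := by ring
            _ ≤ (1 / (2 * B1)) * B1 * ((q : ℝ)⁻¹) ^ m := by gcongr
            _ = _ := by field_simp
        rw [he]
        simp only [card_empty, Nat.cast_zero]
        positivity

end Pool.Agent.DNet
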